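import Pool.Agent.Lib.MP_0b3fe5_lc.CompM

/-!
# Cantor sets outside meager sets, from infinitely often equal functions

For a family `F` of functions such that every function is infinitely often equal to a member of
`F`, and `f, h ∈ F`, `r ∈ 2^ω`, there is a point `xx f h r`, injective in `r`, such that every
meager set misses `{xx f h r : r ∈ 2^ω}` for some `f, h ∈ F`.
-/

open Set Filter

namespace Pool.Agent.Lib.MP_0b3fe5_lc.Cantor90

open Pool.Agent.Lib.MP_0b3fe5_lc

/-- the enumeration of the finite sequences -/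
noncomputable def eqL : List ℕ ≃ ℕ := Denumerable.eqv (List ℕ)

/-- a bound for the codes of the next initial segments -/
noncomputable def BB (m q : ℕ) : ℕ :=
  1 + m + ∑ i ∈ Finset.range m, ∑ b ∈ Finset.range 2, ∑ t ∈ Finset.range q,
    eqL (eqL.symm i ++ [b] ++ eqL.symm t)

/-- a monotone majorant -/
def hat (f : ℕ → ℕ) (n : ℕ) : ℕ := ∑ i ∈ Finset.range (n + 1), f i

theorem le_hat (f : ℕ → ℕ) (n : ℕ) : f n ≤ hat f n :=
  Finset.single_le_sum (f := f) (fun _ _ => Nat.zero_le _) (Finset.mem_range.2 (Nat.lt_succ_self n))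

theorem hat_mono (f : ℕ → ℕ) : Monotone (hat f) := fun _ _ h =>
  Finset.sum_le_sum_of_subset (Finset.range_mono (Nat.succ_le_succ h))

theorem BB_mono {m q q' : ℕ} (h : q ≤ q') : BB m q ≤ BB m q' := by
  refine Nat.add_le_add_left (Finset.sum_le_sum fun i _ => Finset.sum_le_sum fun b _ => ?_) _
  exact Finset.sum_le_sum_of_subset (Finset.range_mono h)

theorem lt_BB (m q : ℕ) : m < BB m q := by
  unfold BB
  omega

theorem code_lt_BB {m q b : ℕ} {s t : List ℕ} (hs : eqL s < m) (hb : b < 2) (ht : eqL t < q) :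
    eqL (s ++ [b] ++ t) < BB m q := by
  have h1 : eqL (s ++ [b] ++ t) ≤ ∑ i ∈ Finset.range m, ∑ b ∈ Finset.range 2,
      ∑ t ∈ Finset.range q, eqL (eqL.symm i ++ [b] ++ eqL.symm t) := by
    have h2 := Finset.single_le_sum (f := fun i => ∑ b ∈ Finset.range 2,
      ∑ t ∈ Finset.range q, eqL (eqL.symm i ++ [b] ++ eqL.symm t))
      (fun _ _ => Nat.zero_le _) (Finset.mem_range.2 hs)
    have h3 := Finset.single_le_sum (f := fun b =>
      ∑ t ∈ Finset.range q, eqL (eqL.symm (eqL s) ++ [b] ++ eqL.symm t))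
      (fun _ _ => Nat.zero_le _) (Finset.mem_range.2 hb)
    have h4 := Finset.single_le_sum (f := fun t =>
      eqL (eqL.symm (eqL s) ++ [b] ++ eqL.symm t))
      (fun _ _ => Nat.zero_le _) (Finset.mem_range.2 ht)
    simp only [Equiv.symm_apply_apply] at h2 h3 h4
    exact h4.trans (h3.trans h2)
  unfold BB
  omega

/-- the bounds -/
noncomputable def MM (f : ℕ → ℕ) : ℕ → ℕ
  | 0 => eqL [] + 1
  | k + 1 => BB (MM f k) (hat f (MM f k) + 1)

theorem MM_lt (f : ℕ → ℕ) (k : ℕ) : MM f k < MM f (k + 1) := lt_BB _ _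

theorem MM_strictMono (f : ℕ → ℕ) : StrictMono (MM f) := strictMono_nat_of_lt_succ (MM_lt f)

theorem exists_block {M : ℕ → ℕ} (hM : StrictMono M) {k₀ n : ℕ} (h : M k₀ ≤ n) :
    ∃ k ≥ k₀, M k ≤ n ∧ n < M (k + 1) := by
  have hex : ∃ k, n < M k := ⟨n + 1, (Nat.lt_succ_self n).trans_le (hM.id_le _)⟩
  have h1 := Nat.find_spec hex
  have h2 : k₀ < Nat.find hex := by
    by_contra hcon
    exact absurd ((hM.monotone (not_lt.1 hcon)).trans h) (not_le.2 h1)
  obtain ⟨k, hk⟩ := Nat.exists_eq_add_of_lt h2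
  have h3 := Nat.find_min hex (m := k₀ + k) (by omega)
  rw [hk] at h1
  exact ⟨k₀ + k, by omega, not_lt.1 h3, h1⟩

/-- `f` is large at infinitely many of its bounds. -/
theorem growth (q : ℕ → ℕ) : ∃ G : ℕ → ℕ, ∀ f : ℕ → ℕ, (∃ᶠ n in atTop, f n = G n) →
    ∃ᶠ k in atTop, q (MM f k) ≤ hat f (MM f k) := by
  refine ⟨fun n => hat q (hat (fun m => BB m (q m)) n), fun f hf => ?_⟩
  by_contra hcon
  rw [not_frequently] at hcon
  obtain ⟨k₀, hk₀⟩ := eventually_atTop.1 hcon
  refine hf (eventually_atTop.2 ⟨MM f k₀, fun n hn hfn => ?_⟩)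
  obtain ⟨k, hk, hkn, hnk⟩ := exists_block (MM_strictMono f) hn
  have h1 := not_le.1 (hk₀ k hk)
  have h2 := not_le.1 (hk₀ (k + 1) (by omega))
  have h3 : MM f (k + 1) ≤ hat (fun m => BB m (q m)) n := by
    refine le_trans ?_ ((le_hat (fun m => BB m (q m)) (MM f k)).trans (hat_mono _ hkn))
    exact BB_mono h1
  have h4 : f n < hat q (hat (fun m => BB m (q m)) n) := by
    refine (le_hat f n).trans_lt ((hat_mono f hnk.le).trans_lt (h2.trans_le ?_))
    exact (le_hat q _).trans (hat_mono q h3)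
  exact absurd hfn h4.ne

/-! ### Partial functions -/

/-- decoding of lists of pairs -/
noncomputable def eqP : List (ℕ × ℕ) ≃ ℕ := Denumerable.eqv (List (ℕ × ℕ))

/-- the finite partial function after step `n` -/
noncomputable def st (h : ℕ → ℕ) : ℕ → List (ℕ × ℕ)
  | 0 => []
  | n + 1 => match (eqP.symm (h n)).find? fun p => decide (p.1 ∉ (st h n).map Prod.fst) with
    | some p => p :: st h n
    | none => st h n

theorem st_succ (h : ℕ → ℕ) (n : ℕ) : (∃ p, p.1 ∉ (st h n).map Prod.fst ∧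
    p ∈ eqP.symm (h n) ∧ st h (n + 1) = p :: st h n) ∨ (st h (n + 1) = st h n ∧
    ∀ p ∈ eqP.symm (h n), p.1 ∈ (st h n).map Prod.fst) := by
  rw [st]
  cases hf : (eqP.symm (h n)).find? fun p => decide (p.1 ∉ (st h n).map Prod.fst) with
  | some p =>
    left
    have h1 := List.find?_some hf
    have h2 := List.mem_of_find?_eq_some hf
    exact ⟨p, of_decide_eq_true h1, h2, rfl⟩
  | none =>
    right
    refine ⟨rfl, fun p hp => ?_⟩
    have h1 := List.find?_eq_none.1 hf p hp
    by_contra hcon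
    exact h1 (decide_eq_true hcon)

theorem st_mono {h : ℕ → ℕ} {m n : ℕ} (hmn : m ≤ n) {p : ℕ × ℕ} (hp : p ∈ st h m) : p ∈ st h n := by
  induction n, hmn using Nat.le_induction with
  | base => exact hp
  | succ n _ ih =>
    rcases st_succ h n with ⟨q, -, -, h3⟩ | ⟨h3, -⟩
    · rw [h3]
      exact List.mem_cons_of_mem _ ih
    · rw [h3]
      exact ih

theorem st_length (h : ℕ → ℕ) (n : ℕ) : (st h n).length ≤ n := by
  induction n with
  | zero => simp [st]
  | succ n ih =>
    rcases st_succ h n with ⟨q, -, -, h3⟩ | ⟨h3, -⟩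
    · rw [h3, List.length_cons]
      omega
    · rw [h3]
      omega

theorem st_unique {h : ℕ → ℕ} {n k t t' : ℕ} (h1 : (k, t) ∈ st h n) (h2 : (k, t') ∈ st h n) :
    t = t' := by
  induction n with
  | zero => simp [st] at h1
  | succ n ih =>
    rcases st_succ h n with ⟨q, hq, -, h3⟩ | ⟨h3, -⟩
    · rw [h3] at h1 h2
      rcases List.mem_cons.1 h1 with h4 | h4 <;> rcases List.mem_cons.1 h2 with h5 | h5
      · exact congrArg Prod.snd (h4.trans h5.symm)
      · exact absurd (List.mem_map.2 ⟨_, h5, (congrArg Prod.fst h4 : k = q.1)⟩) hq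
      · exact absurd (List.mem_map.2 ⟨_, h4, (congrArg Prod.fst h5 : k = q.1)⟩) hq
      · exact ih h4 h5
    · rw [h3] at h1 h2
      exact ih h1 h2

open Classical in
/-- the function that `h` assigns -/
noncomputable def ww (h : ℕ → ℕ) (k : ℕ) : ℕ :=
  if hk : ∃ t, ∃ n, (k, t) ∈ st h n then Classical.choose hk else 0

theorem ww_eq {h : ℕ → ℕ} {n k t : ℕ} (h1 : (k, t) ∈ st h n) : ww h k = t := by
  have hk : ∃ t, ∃ n, (k, t) ∈ st h n := ⟨t, n, h1⟩
  rw [ww, dif_pos hk]
  obtain ⟨n', hn'⟩ := Classical.choose_spec hk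
  exact st_unique (st_mono (le_max_left n' n) hn') (st_mono (le_max_right n' n) h1)

theorem partial_eq {K : ℕ → Prop} (hK : ∃ᶠ k in atTop, K k) (τ : ℕ → ℕ) :
    ∃ G : ℕ → ℕ, ∀ h : ℕ → ℕ, (∃ᶠ n in atTop, h n = G n) →
      ∃ᶠ k in atTop, K k ∧ ww h k = τ k := by
  classical
  obtain ⟨κ, hκ, hκ'⟩ := extraction_of_frequently_atTop hK
  refine ⟨fun n => eqP ((List.range (n + 1)).map fun i => (κ i, τ (κ i))), fun h hh => ?_⟩
  have key : ∀ n, h n = eqP ((List.range (n + 1)).map fun i => (κ i, τ (κ i))) →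
      ∃ k, K k ∧ ww h k = τ k ∧ k ∉ (st h n).map Prod.fst ∧ k ∈ (st h (n + 1)).map Prod.fst := by
    intro n hn
    have h1 : eqP.symm (h n) = (List.range (n + 1)).map fun i => (κ i, τ (κ i)) := by
      rw [hn, Equiv.symm_apply_apply]
    rcases st_succ h n with ⟨p, hp, hp', h3⟩ | ⟨-, h3⟩
    · rw [h1] at hp'
      obtain ⟨i, -, rfl⟩ := List.mem_map.1 hp'
      refine ⟨κ i, hκ' i, ww_eq (n := n + 1) (by rw [h3]; exact List.mem_cons_self), hp, ?_⟩
      rw [h3]
      simp
    · exfalso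
      rw [h1] at h3
      have h4 : (Finset.range (n + 1)).image κ ⊆ ((st h n).map Prod.fst).toFinset := by
        intro k hk
        obtain ⟨i, hi, rfl⟩ := Finset.mem_image.1 hk
        rw [List.mem_toFinset]
        exact h3 (κ i, τ (κ i)) (List.mem_map.2 ⟨i, List.mem_range.2 (Finset.mem_range.1 hi), rfl⟩)
      have h5 := Finset.card_le_card h4
      rw [Finset.card_image_of_injective _ hκ.injective, Finset.card_range] at h5
      have h6 := (List.toFinset_card_le ((st h n).map Prod.fst)).trans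
        ((List.length_map (as := st h n) Prod.fst).le.trans (st_length h n))
      omega
  rw [Nat.frequently_atTop_iff_infinite] at hh ⊢
  choose! k hk1 hk2 hk3 hk4 using key
  refine (hh.image (f := k) fun n hn m hm hnm => ?_).mono ?_
  · have aux : ∀ n m : ℕ, h n = eqP ((List.range (n + 1)).map fun i => (κ i, τ (κ i))) →
        h m = eqP ((List.range (m + 1)).map fun i => (κ i, τ (κ i))) → n < m → k n ≠ k m := by
      intro n m hn hm hlt heq
      obtain ⟨p, hp, hp'⟩ := List.mem_map.1 (hk4 n hn)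
      refine hk3 m hm ?_
      rw [← heq, ← hp']
      exact List.mem_map.2 ⟨p, st_mono (show n + 1 ≤ m from hlt) hp, rfl⟩
    rcases lt_trichotomy n m with h1 | h1 | h1
    · exact absurd hnm (aux n m hn hm h1)
    · exact h1
    · exact absurd hnm.symm (aux m n hm hn h1)
  · rintro _ ⟨n, hn, rfl⟩
    exact ⟨hk1 n hn, hk2 n hn⟩

/-! ### The points -/

/-- the number of the sequence used at stage `k` -/
noncomputable def cc (f h : ℕ → ℕ) (k : ℕ) : ℕ :=
  if ww h k ≤ hat f (MM f k) then ww h k else 0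

/-- the initial segments -/
noncomputable def pf (f h : ℕ → ℕ) (r : ℕ → Bool) : ℕ → List ℕ
  | 0 => []
  | k + 1 => pf f h r k ++ [(r k).toNat] ++ eqL.symm (cc f h k)

theorem pf_code (f h : ℕ → ℕ) (r : ℕ → Bool) (k : ℕ) : eqL (pf f h r k) < MM f k := by
  induction k with
  | zero => exact Nat.lt_succ_self _
  | succ k ih =>
    refine code_lt_BB ih (Bool.toNat_lt _) ?_
    rw [Equiv.apply_symm_apply, cc]
    split_ifs with h1
    · omega
    · omega

theorem pf_le {f h : ℕ → ℕ} {r : ℕ → Bool} {k l : ℕ} (hkl : k ≤ l) :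
    pf f h r k <+: pf f h r l := by
  induction l, hkl using Nat.le_induction with
  | base => exact List.prefix_rfl
  | succ l _ ih =>
    refine ih.trans ?_
    rw [pf, List.append_assoc]
    exact List.prefix_append _ _

theorem pf_length (f h : ℕ → ℕ) (r : ℕ → Bool) (k : ℕ) : k ≤ (pf f h r k).length := by
  induction k with
  | zero => exact Nat.zero_le _
  | succ k ih =>
    rw [pf, List.length_append, List.length_append, List.length_singleton]
    omega

/-- the points -/
noncomputable def xx (f h : ℕ → ℕ) (r : ℕ → Bool) (i : ℕ) : ℕ := (pf f h r (i + 1)).getD i 0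

theorem getD_prefix {s t : List ℕ} (hst : s <+: t) {i : ℕ} (hi : i < s.length) :
    t.getD i 0 = s.getD i 0 := by
  obtain ⟨u, rfl⟩ := hst
  exact List.getD_append _ _ _ _ hi

theorem ext_pf (f h : ℕ → ℕ) (r : ℕ → Bool) (k : ℕ) : Ext (pf f h r k) (xx f h r) := by
  intro i hi
  rcases le_total k (i + 1) with h1 | h1
  · exact (getD_prefix (pf_le h1) hi).symm
  · exact getD_prefix (pf_le h1) (lt_of_lt_of_le (Nat.lt_succ_self i) (pf_length _ _ _ _))

theorem xx_injective (f h : ℕ → ℕ) : Function.Injective (xx f h) := by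
  intro r r' hrr
  have h1 : ∀ k, pf f h r k = pf f h r' k ∧ ∀ j < k, r j = r' j := by
    intro k
    induction k with
    | zero => exact ⟨rfl, fun j hj => absurd hj (Nat.not_lt_zero j)⟩
    | succ k ih =>
      have h2 : r k = r' k := by
        have h3 : ∀ r : ℕ → Bool, xx f h r (pf f h r k).length = (r k).toNat := by
          intro r
          have h4 : (pf f h r k).length < (pf f h r (k + 1)).length := by
            rw [pf, List.length_append, List.length_append, List.length_singleton]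
            omega
          rw [← ext_pf f h r (k + 1) _ h4, pf, List.append_assoc,
            List.getD_append_right _ _ _ _ le_rfl, Nat.sub_self]
          rfl
        have h4 := h3 r
        rw [hrr, ih.1, h3 r'] at h4
        cases hb : r k <;> cases hb' : r' k <;> simp_all
      refine ⟨by rw [pf, pf, ih.1, h2], fun j hj => ?_⟩
      rcases Nat.lt_succ_iff_lt_or_eq.1 hj with h3 | h3
      · exact ih.2 j h3
      · rw [h3, h2]
  exact funext fun k => (h1 (k + 1)).2 k (Nat.lt_succ_self k)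

/-- one sequence for finitely many initial segments -/
theorem exists_tail (τ : List ℕ → List ℕ) (L : List (List ℕ)) :
    ∃ t, ∀ s ∈ L, ∃ u v, t = u ++ τ (s ++ u) ++ v := by
  induction L with
  | nil => exact ⟨[], fun s hs => absurd hs (List.not_mem_nil)⟩
  | cons s L ih =>
    obtain ⟨t, ht⟩ := ih
    refine ⟨t ++ τ (s ++ t), fun s' hs' => ?_⟩
    rcases List.mem_cons.1 hs' with rfl | h1
    · exact ⟨t, [], by simp⟩
    · obtain ⟨u, v, huv⟩ := ht s' h1
      refine ⟨u, v ++ τ (s ++ t), ?_⟩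
      calc t ++ τ (s ++ t) = (u ++ τ (s' ++ u) ++ v) ++ τ (s ++ t) := by rw [← huv]
        _ = u ++ τ (s' ++ u) ++ (v ++ τ (s ++ t)) := by simp only [List.append_assoc]

theorem exists_tail' (τ : List ℕ → List ℕ) (m : ℕ) : ∃ t, ∀ s : List ℕ, eqL s < m →
    ∀ b : Bool, ∃ u v, t = u ++ τ (s ++ [b.toNat] ++ u) ++ v := by
  obtain ⟨t, ht⟩ := exists_tail τ ((List.range m).flatMap fun i =>
    [eqL.symm i ++ [0], eqL.symm i ++ [1]])
  refine ⟨t, fun s hs b => ht _ (List.mem_flatMap.2 ⟨eqL s, List.mem_range.2 hs, ?_⟩)⟩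
  rw [Equiv.symm_apply_apply]
  cases b <;> simp

theorem main {F : Set (ℕ → ℕ)} (hF : ∀ g : ℕ → ℕ, ∃ f ∈ F, ∃ᶠ n in atTop, f n = g n)
    {X : Set (ℕ → ℕ)} (hX : IsMeagre X) : ∃ f ∈ F, ∃ h ∈ F, ∀ r, xx f h r ∉ X := by
  obtain ⟨τ, hτ⟩ := exists_tau hX
  choose t ht using exists_tail' τ
  obtain ⟨G, hG⟩ := growth fun m => eqL (t m)
  obtain ⟨f, hf, hf'⟩ := hF G
  obtain ⟨G', hG'⟩ := partial_eq (hG f hf') fun k => eqL (t (MM f k))
  obtain ⟨h, hh, hh'⟩ := hF G'
  refine ⟨f, hf, h, hh, fun r hr => ?_⟩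
  obtain ⟨n₀, hn₀⟩ := eventually_atTop.1 (hτ _ hr)
  obtain ⟨k, hk, h1, h2⟩ := frequently_atTop.1 (hG' h hh') n₀
  have h3 : eqL.symm (cc f h k) = t (MM f k) := by
    rw [cc, h2, if_pos h1, Equiv.symm_apply_apply]
  obtain ⟨u, v, huv⟩ := ht (MM f k) (pf f h r k) (pf_code f h r k) (r k)
  have h4 : pf f h r (k + 1) = pf f h r k ++ [(r k).toNat] ++ u ++
      τ (pf f h r k ++ [(r k).toNat] ++ u) ++ v := by
    rw [pf, h3]
    conv_lhs => rw [huv]
    simp only [List.append_assoc]
  have h5 := ext_pf f h r (k + 1)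
  rw [h4] at h5
  have h6 := h5.left
  have h7 := h6.left.eq_pre
  refine hn₀ (pf f h r k ++ [(r k).toNat] ++ u).length ?_ ?_
  · have h8 := pf_length f h r k
    rw [List.length_append, List.length_append]
    omega
  · rw [← h7]
    exact h6

end Pool.Agent.Lib.MP_0b3fe5_lc.Cantor90
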