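import Mathlib

/-!
# Combinatorics: families of functions that are large on every large set
-/

open Cardinal Set

namespace Pool.Agent.Lib.MP_0b3fe5_lc

/-- Systems of distinct representatives for at most continuum many sets of size continuum. -/
theorem exists_sdr {J X : Type} (A : J → Set X) (hJ : #J ≤ 𝔠) (hA : ∀ j, 𝔠 ≤ #(A j)) :
    ∃ f : J → X, Function.Injective f ∧ ∀ j, f j ∈ A j := by
  classical
  obtain ⟨r, wo, hr⟩ := Cardinal.exists_ord_eq J
  have hne : ∀ (j : J) (g : {i // r i j} → X), ∃ x ∈ A j, ∀ i, g i ≠ x := by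
    intro j g
    by_contra hcon
    push Not at hcon
    have h1 : A j ⊆ Set.range g := fun x hx => by
      obtain ⟨i, hi⟩ := hcon x hx
      exact ⟨i, hi⟩
    have h2 : #(A j) ≤ #{i // r i j} := (mk_le_mk_of_subset h1).trans mk_range_le
    have h3 : #{i // r i j} < #J := by
      rw [← Ordinal.card_typein]
      exact card_typein_lt (r := r) j hr
    exact absurd (((hA j).trans h2).trans_lt (h3.trans_le hJ)) (lt_irrefl _)
  choose c hc hc' using hne
  let f : J → X := wo.wf.fix fun j g => c j fun i => g i.1 i.2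
  have hf : ∀ j, f j = c j fun i => f i.1 := fun j => wo.wf.fix_eq _ j
  refine ⟨f, ?_, fun j => hf j ▸ hc j _⟩
  have key : ∀ i j, r i j → f i ≠ f j := by
    intro i j hij h
    have := hc' j (fun i => f i.1) ⟨i, hij⟩
    rw [← hf j] at this
    exact this h
  intro i j hij
  rcases trichotomous_of r i j with h | h | h
  · exact absurd hij (key _ _ h)
  · exact h
  · exact absurd hij.symm (key _ _ h)

theorem exists_family {l : Cardinal.{0}} (hreg : l.IsRegular) (Λ : Type) (hΛ : #Λ = l) :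
    ∀ (κ : Cardinal.{0}), κ ≤ 𝔠 → ∀ T : Type, #T = κ → ∃ Φ : Set (T → Λ), #Φ ≤ 𝔠 ∧
      ∀ Γ : Set T, #Γ = l → ∃ φ ∈ Φ, #(φ '' Γ) = l := by
  classical
  intro κ
  induction κ using Cardinal.lt_wf.induction with
  | h κ ih =>
  intro hκ T hT
  have hl0 : l ≠ 0 := hreg.ne_zero
  have : Nonempty Λ := by
    rw [← mk_ne_zero_iff, hΛ]
    exact hl0
  rcases le_or_gt κ l with hle | hlt
  · -- an injection
    rw [← hT, ← hΛ] at hle
    obtain ⟨e⟩ := hle
    refine ⟨{(e : T → Λ)}, ?_, fun Γ hΓ => ⟨e, rfl, ?_⟩⟩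
    · rw [mk_singleton]
      exact one_le_aleph0.trans aleph0_le_continuum
    · rw [mk_image_eq e.injective, hΓ]
  · obtain ⟨r, wo, hr⟩ := Cardinal.exists_ord_eq T
    have hseg : ∀ t : T, #{s // r s t} < κ := by
      intro t
      rw [← hT, ← Ordinal.card_typein]
      exact card_typein_lt (r := r) t hr
    have hΦ : ∀ t : T, ∃ Φ : Set ({s // r s t} → Λ), #Φ ≤ 𝔠 ∧
        ∀ Γ : Set {s // r s t}, #Γ = l → ∃ φ ∈ Φ, #(φ '' Γ) = l :=
      fun t => ih _ (hseg t) ((hseg t).le.trans hκ) _ rfl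
    choose Φ hΦ1 hΦ2 using hΦ
    let ext : ∀ t : T, ({s // r s t} → Λ) → (T → Λ) := fun t φ s =>
      if h : r s t then φ ⟨s, h⟩ else Classical.arbitrary Λ
    -- the extra function
    obtain ⟨φ₀, hφ₀⟩ : ∃ φ₀ : T → Λ, ∀ Γ : Set T, #Γ = l → (∀ t, #(Γ ∩ {s | r s t} : Set T) < l) →
        #(φ₀ '' Γ) = l := by
      by_cases hex : ∃ Γ₀ : Set T, #Γ₀ = l ∧ ∀ t, #(Γ₀ ∩ {s | r s t} : Set T) < l
      · obtain ⟨Γ₀, h1, h2⟩ := hex
        have hnext : ∀ t, ∃ γ : Γ₀, ¬ r γ.1 t := by
          intro t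
          by_contra hcon
          push Not at hcon
          refine absurd (h2 t) (not_lt.2 ?_)
          rw [← h1]
          exact mk_le_mk_of_subset fun γ hγ => ⟨hγ, hcon ⟨γ, hγ⟩⟩
        choose nx hnx using hnext
        have he : #Γ₀ = #Λ := h1.trans hΛ.symm
        obtain ⟨e⟩ := Cardinal.eq.1 he
        refine ⟨fun t => e (nx t), fun Γ hΓ hΓ' => ?_⟩
        refine le_antisymm ?_ ?_
        · rw [← hΛ]
          exact mk_set_le _
        by_contra hcon
        push Not at hcon
        have hsub : Γ ⊆ ⋃ v ∈ ((fun t => e (nx t)) '' Γ),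
            (Γ ∩ {s | r s (e.symm v).1} ∪ {(e.symm v).1} : Set T) := by
          intro t ht
          rw [mem_iUnion₂]
          refine ⟨e (nx t), ⟨t, ht, rfl⟩, ?_⟩
          rw [e.symm_apply_apply]
          rcases trichotomous_of r t (nx t).1 with h | h | h
          · exact Or.inl ⟨ht, h⟩
          · exact Or.inr h
          · exact absurd h (hnx t)
        have hlt' : #(⋃ v ∈ ((fun t => e (nx t)) '' Γ),
            (Γ ∩ {s | r s (e.symm v).1} ∪ {(e.symm v).1} : Set T) : Set T) < l := by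
          refine (card_biUnion_lt_iff_forall_of_isRegular hreg hcon).2 fun v _ => ?_
          refine (mk_union_le _ _).trans_lt (add_lt_of_lt hreg.aleph0_le (hΓ' _) ?_)
          rw [mk_singleton]
          exact one_lt_aleph0.trans_le hreg.aleph0_le
        exact absurd ((mk_le_mk_of_subset hsub).trans_lt hlt') (by rw [hΓ]; exact lt_irrefl _)
      · push Not at hex
        refine ⟨fun _ => Classical.arbitrary Λ, fun Γ hΓ hΓ' => ?_⟩
        obtain ⟨t, ht⟩ := hex Γ hΓ
        exact absurd (hΓ' t) (not_lt.2 ht)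
    refine ⟨(⋃ t, (ext t '' Φ t)) ∪ {φ₀}, ?_, fun Γ hΓ => ?_⟩
    · refine (mk_union_le _ _).trans (add_le_of_le aleph0_le_continuum ?_ ?_)
      · refine (mk_iUnion_le _).trans ?_
        refine (mul_le_mul' (hT.le.trans hκ) (ciSup_le' fun t => mk_image_le.trans (hΦ1 t))).trans ?_
        exact (continuum_mul_self).le
      · rw [mk_singleton]
        exact one_le_aleph0.trans aleph0_le_continuum
    · by_cases hb : ∃ t, l ≤ #(Γ ∩ {s | r s t} : Set T)
      · obtain ⟨t, ht⟩ := hb
        let Γ' : Set {s // r s t} := {s | s.1 ∈ Γ}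
        have hΓ' : #Γ' = l := by
          refine le_antisymm ?_ ?_
          · rw [← hΓ]
            exact mk_le_of_injective (f := fun s : Γ' => (⟨s.1.1, s.2⟩ : Γ)) (by
              intro a b hab
              have := congrArg (fun q : Γ => q.1) hab
              exact Subtype.ext (Subtype.ext this))
          · refine ht.trans ?_
            exact mk_le_of_injective (f := fun s : (Γ ∩ {s | r s t} : Set T) =>
              (⟨⟨s.1, s.2.2⟩, s.2.1⟩ : Γ')) (by
              intro a b hab
              have := congrArg (fun q : Γ' => q.1.1) hab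
              exact Subtype.ext this)
        obtain ⟨φ, hφ, hφ'⟩ := hΦ2 t Γ' hΓ'
        refine ⟨ext t φ, Or.inl (mem_iUnion.2 ⟨t, φ, hφ, rfl⟩), le_antisymm ?_ ?_⟩
        · exact mk_image_le.trans hΓ.le
        · rw [← hφ']
          refine mk_le_mk_of_subset ?_
          rintro _ ⟨s, hs, rfl⟩
          refine ⟨s.1, hs, ?_⟩
          show (if h : r s.1 t then φ ⟨s.1, h⟩ else _) = _
          rw [dif_pos s.2]
      · push Not at hb
        exact ⟨φ₀, Or.inr rfl, hφ₀ Γ hΓ hb⟩

end Pool.Agent.Lib.MP_0b3fe5_lc
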