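import Pool.Agent.Lib.MP_0b3fe5_lc.Inst

/-!
# Bounding meager sets by functions, relative to a point outside a meager set
-/

open Cardinal Set Filter

namespace Pool.Agent.Lib.MP_0b3fe5_lc

/-- `z ↾ n` -/
def pre (z : ℕ → ℕ) (n : ℕ) : List ℕ := (List.range n).map z

/-- `z` extends the finite sequence `s`. -/
def Ext (s : List ℕ) (z : ℕ → ℕ) : Prop := ∀ i < s.length, s.getD i 0 = z i

@[simp] theorem length_pre (z : ℕ → ℕ) (n : ℕ) : (pre z n).length = n := by simp [pre]

theorem getD_pre (z : ℕ → ℕ) {n i : ℕ} (h : i < n) : (pre z n).getD i 0 = z i := by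
  simp [pre, List.getD, h]

theorem ext_pre (z : ℕ → ℕ) (n : ℕ) : Ext (pre z n) z := fun i hi => by
  rw [length_pre] at hi
  exact getD_pre z hi

theorem Ext.eq_pre {s : List ℕ} {z : ℕ → ℕ} (h : Ext s z) : s = pre z s.length := by
  refine List.ext_getElem (by simp) fun i h1 h2 => ?_
  have h3 := h i h1
  have h4 := getD_pre z (n := s.length) h1
  rw [← h3] at h4
  simpa [List.getD, h1] using h4.symm

theorem Ext.left {s t : List ℕ} {z : ℕ → ℕ} (h : Ext (s ++ t) z) : Ext s z := fun i hi => by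
  rw [← h i (by rw [List.length_append]; omega), List.getD_append _ _ _ _ hi]

/-- the enumeration of the finite sequences -/
def sq (i : ℕ) : List ℕ := (Denumerable.eqv (List ℕ)).symm i

theorem frequently_sq (z : ℕ → ℕ) (N k : ℕ) : ∃ i ≥ N, ∃ k' ≥ k, sq i = pre z k' := by
  by_contra hcon
  push Not at hcon
  have h1 : ∀ k' : ℕ, k ≤ k' → Denumerable.eqv (List ℕ) (pre z k') < N := by
    intro k' hk'
    by_contra h
    refine hcon _ (not_lt.1 h) k' hk' ?_
    rw [sq, Equiv.symm_apply_apply]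
  have h2 : Function.Injective fun j : ℕ => Denumerable.eqv (List ℕ) (pre z (k + j)) := by
    intro a b hab
    have h3 := congrArg List.length ((Denumerable.eqv (List ℕ)).injective hab)
    simpa using h3
  have h3 : Set.Infinite (range fun j : ℕ => Denumerable.eqv (List ℕ) (pre z (k + j))) :=
    infinite_range_of_injective h2
  refine h3 ((finite_Iio N).subset ?_)
  rintro _ ⟨j, rfl⟩
  exact h1 _ (by omega)

theorem eventually_sq (z : ℕ → ℕ) (n : ℕ) : ∀ᶠ i in atTop, Ext (sq i) z → n ≤ (sq i).length := by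
  have h1 : ({i | Ext (sq i) z ∧ (sq i).length < n} : Set ℕ).Finite := by
    refine ((finite_Iio n).image fun k => Denumerable.eqv (List ℕ) (pre z k)).subset ?_
    rintro i ⟨h1, h2⟩
    refine ⟨(sq i).length, h2, ?_⟩
    show Denumerable.eqv (List ℕ) (pre z (sq i).length) = i
    rw [← h1.eq_pre, sq, Equiv.apply_symm_apply]
  have h2 := h1.eventually_cofinite_notMem
  rw [Nat.cofinite_eq_atTop] at h2
  filter_upwards [h2] with i hi hi'
  by_contra hcon
  exact hi ⟨hi', not_le.1 hcon⟩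

open Classical in
/-- the finite partial function given by a table -/
noncomputable def look (L : List (List ℕ × List ℕ)) (u : List ℕ) : List ℕ :=
  if h : ∃ p ∈ L, p.1 = u then (Classical.choose h).2 else []

/-- the finite partial function coded by a number -/
noncomputable def dec (c : ℕ) (u : List ℕ) : List ℕ :=
  look ((Encodable.decode c : Option (List (List ℕ × List ℕ))).getD []) u

theorem exists_code (F : Finset (List ℕ)) (τ : List ℕ → List ℕ) : ∃ c, ∀ u ∈ F, dec c u = τ u := by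
  classical
  refine ⟨Encodable.encode (F.toList.map fun u => (u, τ u)), fun u hu => ?_⟩
  have h : ∃ p ∈ (F.toList.map fun u => (u, τ u)), p.1 = u :=
    ⟨(u, τ u), List.mem_map.2 ⟨u, Finset.mem_toList.2 hu, rfl⟩, rfl⟩
  rw [dec, Encodable.encodek]
  show look (F.toList.map fun u => (u, τ u)) u = τ u
  rw [look, dif_pos h]
  obtain ⟨h1, h2⟩ := Classical.choose_spec h
  obtain ⟨v, -, hv⟩ := List.mem_map.1 h1
  rw [← hv] at h2 ⊢
  rw [show v = u from h2]

/-- successive extensions by the guesses `y m, y (m + 1), …` -/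
noncomputable def E (y : ℕ → ℕ) (m : ℕ) (s : List ℕ) : ℕ → List ℕ
  | 0 => s
  | j + 1 => E y m s j ++ dec (y (m + j)) (E y m s j)

theorem E_congr {y y' : ℕ → ℕ} {m : ℕ} {s : List ℕ} : ∀ {j : ℕ},
    (∀ i < m + j, y' i = y i) → E y' m s j = E y m s j
  | 0, _ => rfl
  | j + 1, h => by
    rw [E, E, E_congr (j := j) fun i hi => h i (by omega), h (m + j) (by omega)]

theorem E_mono (y : ℕ → ℕ) (m : ℕ) (s : List ℕ) (j : ℕ) : ∀ k, ∃ t,
    E y m s (j + k) = E y m s j ++ t
  | 0 => ⟨[], by simp⟩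
  | k + 1 => by
    obtain ⟨t, ht⟩ := E_mono y m s j k
    refine ⟨t ++ dec (y (m + (j + k))) (E y m s (j + k)), ?_⟩
    rw [show j + (k + 1) = (j + k) + 1 from rfl, E, ht, List.append_assoc]

theorem E_le {y : ℕ → ℕ} {m : ℕ} {s : List ℕ} {j k : ℕ} (h : j ≤ k) :
    ∃ t, E y m s k = E y m s j ++ t := by
  obtain ⟨d, rfl⟩ := Nat.exists_eq_add_of_le h
  exact E_mono y m s j d

/-- The guess `y n` is correct for `τ` at all sequences that can occur. -/
def Corr (τ : List ℕ → List ℕ) (y : ℕ → ℕ) (n : ℕ) : Prop :=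
  ∀ m ≤ n, ∀ i ≤ m, dec (y n) (E y m (sq i) (n - m)) = τ (E y m (sq i) (n - m))

theorem Corr.congr {τ : List ℕ → List ℕ} {y y' : ℕ → ℕ} {n : ℕ} (h : ∀ i < n + 1, y' i = y i)
    (hc : Corr τ y n) : Corr τ y' n := by
  intro m hm i hi
  have h1 : E y' m (sq i) (n - m) = E y m (sq i) (n - m) := E_congr fun i hi => h i (by omega)
  rw [h1, h n (by omega)]
  exact hc m hm i hi

theorem meager_corr (τ : List ℕ → List ℕ) : IsMeagre {y | ¬ ∃ᶠ n in atTop, Corr τ y n} := by
  classical
  have h1 : (⋂ N : ℕ, {y | ∃ n ≥ N, Corr τ y n}) ∈ residual (ℕ → ℕ) := by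
    rw [countable_iInter_mem]
    intro N
    refine residual_of_dense_open ?_ (dense_dep fun y n => ?_)
    · have h2 : {y | ∃ n ≥ N, Corr τ y n} = ⋃ n ≥ N, {y | Corr τ y n} := by
        ext y
        simp
      rw [h2]
      exact isOpen_biUnion fun n _ => isOpen_dep (n + 1) fun y y' h hc => hc.congr h
    · obtain ⟨c, hc⟩ := exists_code ((Finset.range (max N n + 1)).biUnion fun m =>
        (Finset.range (m + 1)).image fun i => E y m (sq i) (max N n - m)) τ
      have h3 : ∀ i < max N n, Function.update y (max N n) c i = y i := fun i hi => by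
        rw [Function.update_of_ne hi.ne]
      refine ⟨Function.update y (max N n) c, ⟨max N n, le_max_left _ _, fun m hm i hi => ?_⟩,
        fun i hi => h3 i (hi.trans_le (le_max_right _ _))⟩
      have h4 : E (Function.update y (max N n) c) m (sq i) (max N n - m) =
        E y m (sq i) (max N n - m) := E_congr fun i hi => h3 i (by omega)
      rw [h4, Function.update_self]
      refine hc _ (Finset.mem_biUnion.2 ⟨m, Finset.mem_range.2 (by omega),
        Finset.mem_image.2 ⟨i, Finset.mem_range.2 (by omega), rfl⟩⟩)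
  refine mem_of_superset h1 fun y hy => ?_
  show ¬ ¬ _
  rw [not_not, frequently_atTop]
  exact fun N => mem_iInter.1 hy N

/-- The meager set with the code `(y, h)`. -/
def Psi (y h : ℕ → ℕ) : Set (ℕ → ℕ) :=
  {z | ¬ ∃ᶠ i in atTop, Ext (sq i) z ∧ Ext (E y i (sq i) (h i + 1 - i)) z}

theorem meager_Psi (y h : ℕ → ℕ) : IsMeagre (Psi y h) := by
  have h1 : (⋂ N : ℕ, {z | ∃ i ≥ N, Ext (sq i) z ∧ Ext (E y i (sq i) (h i + 1 - i)) z}) ∈
      residual (ℕ → ℕ) := by
    rw [countable_iInter_mem]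
    intro N
    refine residual_of_dense_open ?_ (dense_dep fun z n => ?_)
    · have h2 : {z | ∃ i ≥ N, Ext (sq i) z ∧ Ext (E y i (sq i) (h i + 1 - i)) z} =
          ⋃ i ≥ N, {z | Ext (sq i) z ∧ Ext (E y i (sq i) (h i + 1 - i)) z} := by
        ext y
        simp only [mem_ofPred_eq, mem_iUnion, exists_prop]
      rw [h2]
      refine isOpen_biUnion fun i _ => isOpen_dep (max (sq i).length
        (E y i (sq i) (h i + 1 - i)).length) fun z z' hz hc => ⟨fun j hj => ?_, fun j hj => ?_⟩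
      · rw [hz j (hj.trans_le (le_max_left _ _))]
        exact hc.1 j hj
      · rw [hz j (hj.trans_le (le_max_right _ _))]
        exact hc.2 j hj
    · obtain ⟨i, hi, k, hk, hik⟩ := frequently_sq z N n
      obtain ⟨t, ht⟩ := E_le (y := y) (m := i) (s := sq i) (Nat.zero_le (h i + 1 - i))
      have h3 : Ext (E y i (sq i) (h i + 1 - i)) fun j => (E y i (sq i) (h i + 1 - i)).getD j 0 :=
        fun _ _ => rfl
      have h4 : Ext (sq i) fun j => (E y i (sq i) (h i + 1 - i)).getD j 0 := by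
        refine Ext.left (t := t) ?_
        rw [show sq i ++ t = E y i (sq i) (h i + 1 - i) from ht.symm]
        exact h3
      refine ⟨_, ⟨i, hi, h4, h3⟩, fun j hj => ?_⟩
      have h5 := h4 j (by rw [hik, length_pre]; omega)
      refine h5.symm.trans ?_
      rw [hik, getD_pre z (by omega)]
  refine mem_of_superset h1 fun z hz => ?_
  show ¬ ¬ _
  rw [not_not, frequently_atTop]
  exact fun N => mem_iInter.1 hz N

theorem exists_cylinder {U : Set (ℕ → ℕ)} (hU : IsOpen U) {z : ℕ → ℕ} (hz : z ∈ U) :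
    ∃ n, ∀ z' : ℕ → ℕ, (∀ i < n, z' i = z i) → z' ∈ U := by
  obtain ⟨_, ⟨x, n, rfl⟩, h1, h2⟩ :=
    (PiNat.isTopologicalBasis_cylinders fun _ => ℕ).exists_subset_of_mem_open hz hU
  refine ⟨n, fun z' hz' => h2 ?_⟩
  rw [PiNat.mem_cylinder_iff] at h1 ⊢
  intro i hi
  rw [hz' i hi, h1 i hi]

theorem exists_tau {X : Set (ℕ → ℕ)} (hX : IsMeagre X) :
    ∃ τ : List ℕ → List ℕ, ∀ z ∈ X, ∀ᶠ n in atTop, ¬ Ext (pre z n ++ τ (pre z n)) z := by
  classical
  obtain ⟨S, hS1, hS2, hS3, hS4⟩ := mem_residual_iff.1 (show Xᶜ ∈ residual (ℕ → ℕ) from hX)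
  obtain ⟨O, hO⟩ := (hS3.insert Set.univ).exists_eq_range (insert_nonempty _ _)
  have hO1 : ∀ k, IsOpen (O k) ∧ Dense (O k) := by
    intro k
    have h1 : O k ∈ insert Set.univ S := hO ▸ mem_range_self k
    rcases h1 with h1 | h1
    · rw [h1]
      exact ⟨isOpen_univ, dense_univ⟩
    · exact ⟨hS1 _ h1, hS2 _ h1⟩
  have hO2 : ∀ z ∈ X, ∃ k, z ∉ O k := by
    intro z hz
    by_contra hcon
    push Not at hcon
    refine hS4 (fun t ht => ?_) hz
    have h1 : t ∈ range O := hO ▸ mem_insert_of_mem _ ht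
    obtain ⟨k, rfl⟩ := h1
    exact hcon k
  have hV : ∀ n, IsOpen (⋂ k ∈ Iic n, O k) ∧ Dense (⋂ k ∈ Iic n, O k) := by
    intro n
    refine ⟨(finite_Iic n).isOpen_biInter fun k _ => (hO1 k).1, ?_⟩
    exact dense_biInter_of_isOpen (fun k _ => (hO1 k).1) (to_countable _) fun k _ => (hO1 k).2
  have hτ : ∀ s : List ℕ, ∃ t : List ℕ, ∀ z, Ext (s ++ t) z → ∀ k ≤ s.length, z ∈ O k := by
    intro s
    have h1 : IsOpen {z : ℕ → ℕ | Ext s z} := isOpen_dep s.length fun y y' h hy i hi => by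
      rw [h i hi]
      exact hy i hi
    obtain ⟨z, hz1, hz2⟩ := (hV s.length).2.inter_open_nonempty _ h1 ⟨fun i => s.getD i 0,
      fun _ _ => rfl⟩
    obtain ⟨n, hn⟩ := exists_cylinder (hV s.length).1 hz2
    have h2 : Ext (pre z (s.length + n)) z := ext_pre z _
    have h3 : pre z (s.length + n) = s ++ (List.range n).map fun i => z (s.length + i) := by
      have h4 : s = pre z s.length := Ext.eq_pre hz1
      conv_rhs => rw [h4]
      rw [length_pre, pre, pre, List.range_add, List.map_append, List.map_map]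
      rfl
    refine ⟨(List.range n).map fun i => z (s.length + i), fun z' hz' k hk => ?_⟩
    rw [← h3] at hz'
    refine mem_iInter₂.1 (hn z' fun i hi => ?_) k hk
    have h5 := hz' i (by rw [length_pre]; omega)
    rw [← h5, getD_pre z (by omega)]
  choose τ hτ using hτ
  refine ⟨τ, fun z hz => ?_⟩
  obtain ⟨k, hk⟩ := hO2 z hz
  filter_upwards [eventually_ge_atTop k] with n hn hcon
  exact hk (hτ (pre z n) z hcon k (by rw [length_pre]; exact hn))

open Classical in
theorem comp_meager {B : Type} {R : (ℕ → ℕ) → B → Prop} (H : B → ℕ → ℕ)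
    (hH : ∀ x b, R x b → LeStar x (H b)) : Comp R MeagerSets := by
  let τ : Set (ℕ → ℕ) → List ℕ → List ℕ := fun X =>
    if h : IsMeagre X then Classical.choose (exists_tau h) else fun _ => []
  have hτ : ∀ X, IsMeagre X → ∀ z ∈ X, ∀ᶠ n in atTop, ¬ Ext (pre z n ++ τ X (pre z n)) z := by
    intro X hX
    show ∀ z ∈ X, ∀ᶠ n in atTop,
      ¬ Ext (pre z n ++ (if h : IsMeagre X then Classical.choose (exists_tau h) else fun _ => [])
        (pre z n)) z
    rw [dif_pos hX]
    exact Classical.choose_spec (exists_tau hX)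
  refine ⟨fun X => {y | ¬ ∃ᶠ n in atTop, Corr (τ X) y n}, fun X y m =>
    if h : ∃ n ≥ m, Corr (τ X) y n then Classical.choose h else 0, fun y b => Psi y (H b),
    fun y b => meager_Psi _ _, fun X hX => ⟨meager_corr _, fun y hy b hb z hz hcon => ?_⟩⟩
  have hy' : ∀ m, ∃ n ≥ m, Corr (τ X) y n := frequently_atTop.1 (not_not.1 hy)
  have hb' := hH _ _ hb
  obtain ⟨n₀, hn₀⟩ := eventually_atTop.1 (hτ X hX z hz)
  obtain ⟨i, ⟨h1, h2⟩, h3, h4⟩ := (hcon.and_eventually (hb'.and (eventually_sq z n₀))).exists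
  dsimp only at h3
  rw [dif_pos (hy' i)] at h3
  obtain ⟨h5, h6⟩ := Classical.choose_spec (hy' i)
  generalize Classical.choose (hy' i) = n at h3 h5 h6
  have h7 := h6 i h5 i le_rfl
  -- the sequence at the correct guess
  obtain ⟨t, ht⟩ := E_le (y := y) (m := i) (s := sq i) (Nat.zero_le (n - i))
  obtain ⟨t', ht'⟩ := E_le (y := y) (m := i) (s := sq i) (show n - i + 1 ≤ H b i + 1 - i by omega)
  have h8 : E y i (sq i) (n - i + 1) = E y i (sq i) (n - i) ++ τ X (E y i (sq i) (n - i)) := by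
    rw [E, show i + (n - i) = n by omega, h7]
  rw [ht', h8] at h2
  have h9 : Ext (E y i (sq i) (n - i) ++ τ X (E y i (sq i) (n - i))) z := h2.left
  have h10 := h9.left.eq_pre
  refine hn₀ (E y i (sq i) (n - i)).length ?_ ?_
  · rw [ht]
    have h11 := h4 h1
    show n₀ ≤ (sq i ++ t).length
    rw [List.length_append]
    omega
  · rw [← h10]
    exact h9

theorem comp_K {B : Type} {R : (ℕ → ℕ) → B → Prop} (H : B → ℕ → ℕ)
    (hH : ∀ x b, R x b → LeStar x (H b)) : Comp R KSets := by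
  classical
  refine ⟨fun _ => ∅, fun X _ => if h : X ∈ KSets then Classical.choose (mem_KSets_iff.1 h) else 0,
    fun _ b => {z | LeStar z (H b)}, fun y b => mem_KSets_iff.2 ⟨H b, fun _ hz => hz⟩,
    fun X hX => ⟨mem_KSets_iff.2 ⟨0, fun y hy => hy.elim⟩, fun y _ b hb z hz => ?_⟩⟩
  dsimp only at hb
  rw [dif_pos hX] at hb
  have h1 := Classical.choose_spec (mem_KSets_iff.1 hX) z hz
  show LeStar z (H b)
  filter_upwards [h1, hH _ _ hb] with k h2 h3
  exact h2.trans h3

end Pool.Agent.Lib.MP_0b3fe5_lc
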