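import Pool.Agent.Lib.MP_0b3fe5_lc.Inst

/-!
# Bounding null sets by slaloms
-/

open Cardinal Set Filter MeasureTheory TopologicalSpace
open scoped ENNReal

namespace Pool.Agent.Lib.MP_0b3fe5_lc

/-- the algebra generated by a countable basis -/
def Alg : Set (Set (ℕ → ℕ)) := generateSetAlgebra (countableBasis (ℕ → ℕ))

theorem isSetAlgebra_Alg : IsSetAlgebra Alg := isSetAlgebra_generateSetAlgebra

theorem exists_enum : ∃ A : ℕ → Set (ℕ → ℕ), Alg = range A :=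
  (countable_generateSetAlgebra (countable_countableBasis _)).exists_eq_range
    ⟨∅, isSetAlgebra_Alg.empty_mem⟩

theorem measurable_Alg {D : Set (ℕ → ℕ)} (h : D ∈ Alg) : MeasurableSet D := by
  induction h with
  | base s hs => exact (isOpen_of_mem_countableBasis hs).measurableSet
  | empty => exact MeasurableSet.empty
  | compl s _ ih => exact ih.compl
  | union s t _ _ h1 h2 => exact h1.union h2

theorem exists_pieces (μ : Measure (ℕ → ℕ)) [IsProbabilityMeasure μ] {O : Set (ℕ → ℕ)}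
    (hO : IsOpen O) (ε : ℕ → ℝ≥0∞) (hε : ∀ i, 0 < ε i) (h0 : μ O ≤ ε 0) :
    ∃ D : ℕ → Set (ℕ → ℕ), (∀ i, D i ∈ Alg) ∧ (∀ i, μ (D i) ≤ ε i) ∧ O ⊆ ⋃ i, D i := by
  classical
  have hc : (insert ∅ {b ∈ countableBasis (ℕ → ℕ) | b ⊆ O} : Set (Set (ℕ → ℕ))).Countable :=
    ((countable_countableBasis _).mono fun b hb => hb.1).insert ∅
  obtain ⟨f, hf⟩ := hc.exists_eq_range (insert_nonempty _ _)
  have hf1 : ∀ j, f j ∈ Alg ∧ f j ⊆ O := by
    intro j
    have h1 : f j ∈ (insert ∅ {b ∈ countableBasis (ℕ → ℕ) | b ⊆ O} : Set (Set (ℕ → ℕ))) :=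
      hf ▸ mem_range_self j
    rcases h1 with h1 | h1
    · rw [h1]
      exact ⟨isSetAlgebra_Alg.empty_mem, empty_subset _⟩
    · exact ⟨self_subset_generateSetAlgebra h1.1, h1.2⟩
  have hf2 : O ⊆ ⋃ j, f j := by
    intro x hx
    obtain ⟨b, hb, hxb, hbO⟩ := (isBasis_countableBasis (ℕ → ℕ)).exists_subset_of_mem_open hx hO
    have h1 : b ∈ range f := hf ▸ mem_insert_of_mem _ ⟨hb, hbO⟩
    obtain ⟨j, rfl⟩ := h1
    exact mem_iUnion.2 ⟨j, hxb⟩
  let W : ℕ → Set (ℕ → ℕ) := fun j => ⋃ k ∈ Finset.range (j + 1), f k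
  have hW1 : ∀ j, W j ∈ Alg := fun j => isSetAlgebra_Alg.biUnion_mem _ fun k _ => (hf1 k).1
  have hW2 : Monotone W := by
    intro i j hij x hx
    obtain ⟨k, hk, hx⟩ := mem_iUnion₂.1 hx
    refine mem_iUnion₂.2 ⟨k, ?_, hx⟩
    rw [Finset.mem_range] at hk ⊢
    omega
  have hW3 : ∀ j, W j ⊆ O := fun j => iUnion₂_subset fun k _ => (hf1 k).2
  have hW4 : ∀ x ∈ O, ∃ j, x ∈ W j := by
    intro x hx
    obtain ⟨j, hj⟩ := mem_iUnion.1 (hf2 hx)
    exact ⟨j, mem_iUnion₂.2 ⟨j, Finset.mem_range.2 (Nat.lt_succ_self j), hj⟩⟩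
  have hlim : Tendsto (fun j => μ (O \ W j)) atTop (nhds 0) := by
    have h1 := tendsto_measure_iInter_atTop (μ := μ) (s := fun j => O \ W j)
      (fun j => (hO.measurableSet.diff (measurable_Alg (hW1 j))).nullMeasurableSet)
      (fun i j hij => sdiff_subset_sdiff_right (hW2 hij)) ⟨0, measure_ne_top _ _⟩
    have h2 : (⋂ j, O \ W j) = ∅ := by
      rw [eq_empty_iff_forall_notMem]
      intro x hx
      have h3 := mem_iInter.1 hx
      obtain ⟨j, hj⟩ := hW4 x (h3 0).1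
      exact (h3 j).2 hj
    rw [h2, measure_empty] at h1
    exact h1
  have hJ : ∀ i, ∃ j ≥ i, μ (O \ W j) ≤ ε (i + 1) := by
    intro i
    obtain ⟨j, h1, h2⟩ := ((hlim.eventually_lt_const (hε (i + 1))).and
      (eventually_ge_atTop i)).exists
    exact ⟨j, h2, h1.le⟩
  choose J hJ1 hJ2 using hJ
  refine ⟨fun i => match i with
    | 0 => W (J 0)
    | i + 1 => W (J (i + 1)) \ W (J i), fun i => ?_, fun i => ?_, fun x hx => ?_⟩
  · cases i with
    | zero => exact hW1 _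
    | succ i => exact isSetAlgebra_Alg.sdiff_mem (hW1 _) (hW1 _)
  · cases i with
    | zero => exact (measure_mono (hW3 _)).trans h0
    | succ i => exact (measure_mono (sdiff_subset_sdiff_left (hW3 _))).trans (hJ2 i)
  · have hex : ∃ i, x ∈ W (J i) := by
      obtain ⟨j, hj⟩ := hW4 x hx
      exact ⟨j, hW2 (hJ1 j) hj⟩
    have h1 := Nat.find_spec hex
    rcases Nat.eq_zero_or_pos (Nat.find hex) with h2 | h2
    · rw [h2] at h1
      exact mem_iUnion.2 ⟨0, h1⟩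
    · obtain ⟨i, hi⟩ := Nat.exists_eq_succ_of_ne_zero h2.ne'
      have h3 := Nat.find_min hex (m := i) (by omega)
      rw [hi] at h1
      exact mem_iUnion.2 ⟨i + 1, h1, h3⟩

theorem exists_limsup (μ : Measure (ℕ → ℕ)) [IsProbabilityMeasure μ] {X : Set (ℕ → ℕ)}
    (hX : μ X = 0) : ∃ C : ℕ → Set (ℕ → ℕ), (∀ n, C n ∈ Alg) ∧ (∀ n, μ (C n) ≤ (1 / 4) ^ n) ∧
      ∀ x ∈ X, ∃ᶠ n in atTop, x ∈ C n := by
  classical
  have h8 : ∀ n : ℕ, (0 : ℝ≥0∞) < (1 / 8) ^ n := fun n => by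
    refine ENNReal.pow_pos ?_ n
    simp
  have hD : ∀ m : ℕ, ∃ D : ℕ → Set (ℕ → ℕ), (∀ i, D i ∈ Alg) ∧
      (∀ i, μ (D i) ≤ (1 / 8) ^ (m + i)) ∧ X ⊆ ⋃ i, D i := by
    intro m
    obtain ⟨O, hO1, hO2, hO3⟩ := X.exists_isOpen_lt_of_lt (μ := μ) _ (hX ▸ h8 m)
    obtain ⟨D, h1, h2, h3⟩ := exists_pieces μ hO2 (fun i => (1 / 8) ^ (m + i)) (fun i => h8 _) hO3.le
    exact ⟨D, h1, h2, hO1.trans h3⟩
  choose D hD1 hD2 hD3 using hD
  refine ⟨fun n => ⋃ m ∈ Finset.range (n + 1), D m (n - m), fun n =>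
    isSetAlgebra_Alg.biUnion_mem _ fun m _ => hD1 _ _, fun n => ?_, fun x hx => ?_⟩
  · refine (measure_biUnion_finset_le _ _).trans ?_
    have h1 : ∀ m ∈ Finset.range (n + 1), μ (D m (n - m)) ≤ (1 / 8) ^ n := by
      intro m hm
      have h2 := hD2 m (n - m)
      rwa [show m + (n - m) = n by rw [Finset.mem_range] at hm; omega] at h2
    refine (Finset.sum_le_sum h1).trans ?_
    rw [Finset.sum_const, Finset.card_range, nsmul_eq_mul]
    have h3 : ((n + 1 : ℕ) : ℝ≥0∞) ≤ 2 ^ n := by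
      exact_mod_cast Nat.lt_two_pow_self
    have h4 : (2 : ℝ≥0∞) ^ n * (1 / 8) ^ n = (1 / 4) ^ n := by
      rw [← mul_pow]
      congr 1
      rw [show (8 : ℝ≥0∞) = 2 * 4 by norm_num, one_div, one_div,
        ENNReal.mul_inv (Or.inl (by norm_num)) (Or.inl (by norm_num)), ← mul_assoc,
        ENNReal.mul_inv_cancel (by norm_num) (by norm_num), one_mul]
    rw [← h4]
    exact mul_le_mul_left h3 _
  · rw [frequently_atTop]
    intro m
    obtain ⟨i, hi⟩ := mem_iUnion.1 (hD3 m hx)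
    refine ⟨m + i, Nat.le_add_right _ _, mem_iUnion₂.2 ⟨m, Finset.mem_range.2 (by omega), ?_⟩⟩
    rwa [show m + i - m = i by omega]

theorem comp_null (μ : Measure (ℕ → ℕ)) [IsProbabilityMeasure μ] : Comp InStar (NullSets μ) := by
  classical
  obtain ⟨A, hA⟩ := exists_enum
  have hcode : ∀ X ∈ NullSets μ, ∃ c : ℕ → ℕ, (∀ n, μ (A (c n)) ≤ (1 / 4) ^ n) ∧
      ∀ x ∈ X, ∃ᶠ n in atTop, x ∈ A (c n) := by
    intro X hX
    obtain ⟨C, h1, h2, h3⟩ := exists_limsup μ hX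
    have h4 : ∀ n, ∃ c, A c = C n := fun n => by
      have := h1 n
      rw [hA] at this
      exact this
    choose c hc using h4
    exact ⟨c, fun n => (hc n).symm ▸ h2 n, fun x hx => (h3 x hx).mono fun n hn => (hc n).symm ▸ hn⟩
  choose! c hc1 hc2 using hcode
  refine ⟨fun _ => ∅, fun X _ => c X,
    fun _ s => {z | ∃ᶠ n in atTop, ∃ k ∈ s.1 n, μ (A k) ≤ (1 / 4) ^ n ∧ z ∈ A k}, fun _ s => ?_,
    fun X hX => ⟨measure_empty, fun y _ b hb z hz => ?_⟩⟩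
  · show μ _ = 0
    refine measure_setOfPred_frequently_eq_zero ?_
    have h1 : ∀ n, μ {z | ∃ k ∈ s.1 n, μ (A k) ≤ (1 / 4) ^ n ∧ z ∈ A k} ≤ (1 / 2) ^ n := by
      intro n
      have h2 : {z | ∃ k ∈ s.1 n, μ (A k) ≤ (1 / 4) ^ n ∧ z ∈ A k} ⊆
          ⋃ k ∈ (s.1 n).filter fun k => μ (A k) ≤ (1 / 4) ^ n, A k := by
        rintro z ⟨k, hk, hk', hz⟩
        exact mem_iUnion₂.2 ⟨k, Finset.mem_filter.2 ⟨hk, hk'⟩, hz⟩
      refine (measure_mono h2).trans ((measure_biUnion_finset_le _ _).trans ?_)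
      refine (Finset.sum_le_sum fun k hk => (Finset.mem_filter.1 hk).2).trans ?_
      rw [Finset.sum_const, nsmul_eq_mul]
      have h3 : (((s.1 n).filter fun k => μ (A k) ≤ (1 / 4) ^ n).card : ℝ≥0∞) ≤ 2 ^ n := by
        have h4 : ((s.1 n).filter fun k => μ (A k) ≤ (1 / 4) ^ n).card ≤ 2 ^ n :=
          (Finset.card_filter_le _ _).trans ((s.2 n).trans Nat.lt_two_pow_self.le)
        exact_mod_cast h4
      have h4 : (2 : ℝ≥0∞) ^ n * (1 / 4) ^ n = (1 / 2) ^ n := by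
        rw [← mul_pow]
        congr 1
        rw [show (4 : ℝ≥0∞) = 2 * 2 by norm_num, one_div, one_div,
          ENNReal.mul_inv (Or.inl (by norm_num)) (Or.inl (by norm_num)), ← mul_assoc,
          ENNReal.mul_inv_cancel (by norm_num) (by norm_num), one_mul]
      rw [← h4]
      exact mul_le_mul_left h3 _
    refine ne_top_of_le_ne_top ?_ (ENNReal.tsum_le_tsum h1)
    rw [ENNReal.tsum_geometric]
    simp
  · show ∃ᶠ n in atTop, _
    have h1 : ∃ᶠ n in atTop, z ∈ A (c X n) := hc2 X hX z hz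
    have h2 : ∀ᶠ n in atTop, c X n ∈ b.1 n := hb
    exact (h1.and_eventually h2).mono fun n hn => ⟨_, hn.2, hc1 X hX n, hn.1⟩

end Pool.Agent.Lib.MP_0b3fe5_lc
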