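import Mathlib

/-!
# Rothberger families and bounding numbers for sets of functions: definitions
-/

open Cardinal Set Filter MeasureTheory

namespace Pool.Agent.Lib.MP_0b3fe5_lc

/-- A slalom: a function `s` from `ω` to the finite subsets of `ω` with `|s(n)| ≤ n`. -/
def Slalom : Type := {s : ℕ → Finset ℕ // ∀ n, (s n).card ≤ n}

/-- `x ≤* y`. -/
def LeStar (x y : ℕ → ℕ) : Prop := ∀ᶠ k in atTop, x k ≤ y k

/-- `x ∈* s`. -/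
def InStar (x : ℕ → ℕ) (s : Slalom) : Prop := ∀ᶠ k in atTop, x k ∈ s.1 k

section

variable {B : Type} (R : (ℕ → ℕ) → B → Prop)

/-- The set `A` is `R`-bounded. -/
def Bounded (A : Set (ℕ → ℕ)) : Prop := ∃ b, ∀ a ∈ A, R a b

/-- `𝔟(R)`: the least size of an `R`-unbounded set. -/
noncomputable def bnum : Cardinal.{0} := sInf {κ | ∃ A : Set (ℕ → ℕ), ¬ Bounded R A ∧ #A = κ}

/-- The family `𝓕` of functions is `R_I`-bounded: for some `g` and all `f ∈ 𝓕`, the set of all `x`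
for which `f(x) R g(x)` fails belongs to `I`. -/
def BoundedMod (I : Set (Set (ℕ → ℕ))) (𝓕 : Set ((ℕ → ℕ) → (ℕ → ℕ))) : Prop :=
  ∃ g : (ℕ → ℕ) → B, ∀ f ∈ 𝓕, {x | ¬ R (f x) (g x)} ∈ I

/-- `𝔟(R_I)`: the least size of an `R_I`-unbounded family of functions. -/
noncomputable def bnumMod (I : Set (Set (ℕ → ℕ))) : Cardinal.{0} :=
  sInf {κ | ∃ 𝓕 : Set ((ℕ → ℕ) → (ℕ → ℕ)), ¬ BoundedMod R I 𝓕 ∧ #𝓕 = κ}

end

/-- `𝓧` is a `(κ, l)`-Rothberger family for `I`. -/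
def IsRothberger (κ l : Cardinal.{0}) (I 𝓧 : Set (Set (ℕ → ℕ))) : Prop :=
  𝓧 ⊆ I ∧ #𝓧 = κ ∧ ∀ 𝓨 ⊆ 𝓧, #𝓨 = l → ⋃₀ 𝓨 = Set.univ

/-- The null sets of the measure `μ`. -/
def NullSets (μ : Measure (ℕ → ℕ)) : Set (Set (ℕ → ℕ)) := {X | μ X = 0}

/-- The meager sets. -/
def MeagerSets : Set (Set (ℕ → ℕ)) := {X | IsMeagre X}

/-- The subsets of σ-compact sets. -/
def KSets : Set (Set (ℕ → ℕ)) :=
  {X | ∃ K : ℕ → Set (ℕ → ℕ), (∀ n, IsCompact (K n)) ∧ X ⊆ ⋃ n, K n}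

end Pool.Agent.Lib.MP_0b3fe5_lc
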