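import Pool.Agent.Lib.MP_0b3fe5_lc.Weak

/-!
# The relations `≤*` and `∈*`
-/

open Cardinal Set Filter MeasureTheory

namespace Pool.Agent.Lib.MP_0b3fe5_lc

theorem goodRel_leStar : GoodRel LeStar where
  finite := by
    intro A hA
    refine ⟨fun k => ∑ a ∈ hA.toFinset, a k, fun a ha => Eventually.of_forall fun k => ?_⟩
    exact Finset.single_le_sum (f := fun a : ℕ → ℕ => a k) (fun _ _ => Nat.zero_le _)
      (hA.mem_toFinset.2 ha)
  unb := by
    rintro ⟨b, hb⟩
    obtain ⟨k, hk⟩ := (hb (fun k => b k + 1) (mem_univ _)).exists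
    exact absurd hk (by simp)
  tr := by
    refine ⟨id, fun U hU => ?_⟩
    obtain ⟨a, ha⟩ := bounded_of_lt hU
    exact ⟨a, fun b hb u hu => by
      filter_upwards [hb, ha u hu] with k h1 h2
      exact h2.trans h1⟩

/-- decoding of lists -/
def decL (c : ℕ) : List ℕ := (Encodable.decode c).getD []

/-- decoding of finite sets -/
noncomputable def decF (c : ℕ) : Finset ℕ := (Encodable.decode c).getD ∅

theorem decL_encode (l : List ℕ) : decL (Encodable.encode l) = l := by
  simp [decL]

theorem decF_encode (l : Finset ℕ) : decF (Encodable.encode l) = l := by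
  simp [decF]

theorem tendsto_sqrt : Tendsto Nat.sqrt atTop atTop :=
  tendsto_atTop.2 fun b => eventually_atTop.2 ⟨b * b, fun _ hk => Nat.le_sqrt.2 hk⟩

open Classical in
/-- The transfer of slaloms. -/
noncomputable def trS (s : Slalom) : Slalom :=
  ⟨fun k => (s.1 (Nat.sqrt k)).biUnion fun c => if (decF c).card ≤ Nat.sqrt k then
    (decF c).image fun σ => (decL σ).getD k 0 else ∅, by
    intro k
    refine (Finset.card_biUnion_le_card_mul _ _ (Nat.sqrt k) fun c _ => ?_).trans ?_
    · split_ifs with h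
      · exact Finset.card_image_le.trans h
      · simp
    · exact (Nat.mul_le_mul_right _ (s.2 _)).trans (Nat.sqrt_le k)⟩

theorem goodRel_inStar : GoodRel InStar where
  finite := by
    classical
    intro A hA
    refine ⟨⟨fun k => if hA.toFinset.card ≤ k then hA.toFinset.image fun a => a k else ∅,
      fun k => ?_⟩, fun a ha => ?_⟩
    · dsimp only
      split_ifs with h
      · exact Finset.card_image_le.trans h
      · simp
    · filter_upwards [eventually_ge_atTop hA.toFinset.card] with k hk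
      show a k ∈ (if hA.toFinset.card ≤ k then hA.toFinset.image fun a => a k else ∅)
      rw [if_pos hk]
      exact Finset.mem_image.2 ⟨a, hA.mem_toFinset.2 ha, rfl⟩
  unb := by
    rintro ⟨s, hs⟩
    have h : ∀ k, ∃ m, m ∉ s.1 k := fun k => Infinite.exists_notMem_finset _
    choose x hx using h
    obtain ⟨k, hk⟩ := (hs x (mem_univ _)).exists
    exact hx k hk
  tr := by
    classical
    refine ⟨trS, fun U hU => ?_⟩
    let c : (ℕ → ℕ) → (ℕ → ℕ) := fun u m =>
      Encodable.encode ((List.range ((m + 1) * (m + 1))).map u)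
    obtain ⟨s', hs'⟩ := bounded_of_lt (A := c '' U) (mk_image_le.trans_lt hU)
    refine ⟨fun m => Encodable.encode (s'.1 m), fun s hs u hu => ?_⟩
    have h1 : ∀ᶠ m in atTop, c u m ∈ s'.1 m := hs' _ ⟨u, hu, rfl⟩
    filter_upwards [tendsto_sqrt.eventually h1, tendsto_sqrt.eventually hs] with k h2 h3
    show u k ∈ (s.1 (Nat.sqrt k)).biUnion _
    refine Finset.mem_biUnion.2 ⟨_, h3, ?_⟩
    rw [decF_encode, if_pos (s'.2 _)]
    refine Finset.mem_image.2 ⟨_, h2, ?_⟩
    show (decL (Encodable.encode _)).getD k 0 = u k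
    rw [decL_encode]
    have h4 : k < (Nat.sqrt k + 1) * (Nat.sqrt k + 1) := Nat.lt_succ_sqrt k
    simp [List.getD, h4]

/-! ### The ideals -/

theorem goodIdl_null (μ : Measure (ℕ → ℕ)) [IsProbabilityMeasure μ] (hμ : ∀ x, μ {x} = 0) :
    GoodIdl (NullSets μ) where
  sub := fun _ hX _ hY => measure_mono_null hY hX
  union := fun _ hX _ hY => measure_union_null hX hY
  countable := fun _ hC => by
    have : NullSingletonClass μ := ⟨hμ⟩
    exact hC.measure_zero μ
  univ := by
    intro h
    have h' : μ Set.univ = 0 := h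
    simp at h'
  borel := fun X hX => ⟨toMeasurable μ X, by
    show μ (toMeasurable μ X) = 0
    rw [measure_toMeasurable]
    exact hX, subset_toMeasurable μ X, measurableSet_toMeasurable μ X⟩

theorem mem_KSets_iff {X : Set (ℕ → ℕ)} : X ∈ KSets ↔ ∃ h, ∀ y ∈ X, LeStar y h := by
  constructor
  · rintro ⟨K, hK, hX⟩
    have h1 : ∀ n k, ∃ m, ∀ y ∈ K n, y k ≤ m := by
      intro n k
      have h2 := ((hK n).image (continuous_apply k : Continuous fun y : ℕ → ℕ => y k)).bddAbove
      obtain ⟨m, hm⟩ := h2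
      exact ⟨m, fun y hy => hm ⟨y, hy, rfl⟩⟩
    choose m hm using h1
    refine ⟨fun k => ∑ n ∈ Finset.range (k + 1), m n k, fun y hy => ?_⟩
    obtain ⟨n, hn⟩ := mem_iUnion.1 (hX hy)
    filter_upwards [eventually_ge_atTop n] with k hk
    refine (hm n k y hn).trans ?_
    exact Finset.single_le_sum (f := fun n => m n k) (fun _ _ => Nat.zero_le _)
      (Finset.mem_range.2 (by omega))
  · rintro ⟨h, hh⟩
    refine ⟨fun n => Set.pi Set.univ fun k =>
      Iic (if k < n.unpair.1 then n.unpair.2 else h k), fun n => ?_, fun y hy => ?_⟩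
    · exact isCompact_univ_pi fun k => (finite_Iic _).isCompact
    · obtain ⟨m, hm⟩ := eventually_atTop.1 (hh y hy)
      refine mem_iUnion.2 ⟨Nat.pair m (∑ k ∈ Finset.range m, y k), fun k _ => ?_⟩
      rw [Nat.unpair_pair]
      show y k ≤ _
      split_ifs with hk
      · exact Finset.single_le_sum (f := y) (fun _ _ => Nat.zero_le _) (Finset.mem_range.2 hk)
      · exact hm k (not_lt.1 hk)

theorem goodIdl_K : GoodIdl KSets where
  sub := fun _ ⟨K, hK, hX⟩ _ hY => ⟨K, hK, hY.trans hX⟩
  union := by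
    intro X hX Y hY
    rw [mem_KSets_iff] at hX hY ⊢
    obtain ⟨h, hh⟩ := hX
    obtain ⟨h', hh'⟩ := hY
    refine ⟨fun k => h k + h' k, fun y hy => ?_⟩
    rcases hy with hy | hy
    · filter_upwards [hh y hy] with k hk
      omega
    · filter_upwards [hh' y hy] with k hk
      omega
  countable := by
    intro C hC
    rcases C.eq_empty_or_nonempty with rfl | hne
    · exact ⟨fun _ => ∅, fun _ => isCompact_empty, empty_subset _⟩
    · obtain ⟨f, rfl⟩ := hC.exists_eq_range hne
      refine ⟨fun n => {f n}, fun _ => isCompact_singleton, ?_⟩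
      rintro _ ⟨n, rfl⟩
      exact mem_iUnion.2 ⟨n, rfl⟩
  univ := by
    rw [mem_KSets_iff]
    exact goodRel_leStar.unb
  borel := fun X ⟨K, hK, hX⟩ => ⟨⋃ n, K n, ⟨K, hK, Subset.rfl⟩, hX,
    MeasurableSet.iUnion fun n => (hK n).isClosed.measurableSet⟩

theorem isOpen_dep {P : (ℕ → ℕ) → Prop} (n : ℕ)
    (h : ∀ y y' : ℕ → ℕ, (∀ i < n, y' i = y i) → P y → P y') : IsOpen {y | P y} := by
  rw [isOpen_iff_mem_nhds]
  intro y hy
  have h1 : {y' : ℕ → ℕ | ∀ i < n, y' i = y i} ∈ nhds y := by
    have h2 : {y' : ℕ → ℕ | ∀ i < n, y' i = y i} = Set.pi (Iio n) fun i => {y i} := by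
      ext y'
      simp [Set.mem_pi]
    rw [h2]
    exact set_pi_mem_nhds (finite_Iio n) fun i _ => by simp
  filter_upwards [h1] with y' hy'
  exact h y y' hy' hy

/-- A set that meets every cylinder is dense. -/
theorem dense_dep {D : Set (ℕ → ℕ)}
    (h : ∀ (y : ℕ → ℕ) (n : ℕ), ∃ y' ∈ D, ∀ i < n, y' i = y i) : Dense D := by
  choose s hs hs' using h
  intro y
  refine mem_closure_of_tendsto (f := fun n => s y n) (b := atTop) ?_
    (Eventually.of_forall fun n => hs y n)
  rw [tendsto_pi_nhds]
  intro i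
  refine tendsto_const_nhds.congr' ?_
  filter_upwards [eventually_gt_atTop i] with n hn
  exact (hs' y n i hn).symm

theorem goodIdl_meager : GoodIdl MeagerSets where
  sub := fun _ hX _ hY => IsMeagre.mono hY hX
  union := fun _ hX _ hY => IsMeagre.union hX hY
  countable := by
    intro C hC
    have h1 : ∀ y : ℕ → ℕ, IsMeagre {y} := by
      intro y
      refine residual_of_dense_open isClosed_singleton.isOpen_compl (dense_dep fun z n => ?_)
      by_cases h : z = y
      · refine ⟨Function.update z n (z n + 1), fun h' => ?_, fun i hi => ?_⟩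
        · have h2 := congrFun (h'.trans h.symm) n
          simp at h2
        · rw [Function.update_of_ne hi.ne]
      · exact ⟨z, h, fun _ _ => rfl⟩
    have h2 : C = ⋃ y : C, {y.1} := by
      ext y
      simp
    have := hC.to_subtype
    rw [h2]
    exact isMeagre_iUnion fun y => h1 y.1
  univ := fun h => not_isMeagre_of_isOpen isOpen_univ univ_nonempty h
  borel := by
    intro X hX
    obtain ⟨t, ht, ht', ht''⟩ := mem_residual.1 (show Xᶜ ∈ residual (ℕ → ℕ) from hX)
    refine ⟨tᶜ, ?_, fun x hx hxt => ht hxt hx, ht'.measurableSet.compl⟩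
    show tᶜᶜ ∈ residual (ℕ → ℕ)
    rw [compl_compl]
    exact mem_residual.2 ⟨t, Subset.rfl, ht', ht''⟩

end Pool.Agent.Lib.MP_0b3fe5_lc
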