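import Mathlib

/-!
# The perfect set lemma for null sets

For an atomless probability measure `μ` on `ω^ω` there are sets `Q y h` (`y, h ∈ ω^ω`) of size `𝔠`
such that for every null set `N` there is a function `φ` such that, whenever `φ ≤* h`, the set of
all `y` for which `Q y h` meets `N` is null.  With the distribution function `G`, the set `Q y h`
consists of all `x` for which `G x - G y` is a sum of different powers `3^(-H j)`, where `H j` is
the sum of all `h i + 1`, `i ≤ j`.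
-/

open Cardinal Set Filter MeasureTheory ENNReal Topology

namespace Pool.Agent.Lib.MP_0b3fe5_lc.Psl27

theorem cover (F : StieltjesFunction ℝ) {N : Set ℝ} (hN : F.measure N = 0) {ε : ℝ≥0∞}
    (hε : ε ≠ 0) : ∃ a b : ℕ → ℝ, N ⊆ ⋃ i, Ioc (a i) (b i) ∧
      ∑' i, ENNReal.ofReal (F (b i) - F (a i)) ≤ ε := by
  have h1 : F.outer N = 0 := by
    rw [StieltjesFunction.measure] at hN
    exact hN
  have hε2 : ε / 2 ≠ 0 := by simp [hε]
  rw [StieltjesFunction.outer, OuterMeasure.ofFunction_apply] at h1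
  have h2 : (⨅ (t : ℕ → Set ℝ) (_ : N ⊆ iUnion t), ∑' n, F.length (t n)) < ε / 2 := by
    rw [h1]
    exact pos_iff_ne_zero.2 hε2
  simp only [iInf_lt_iff] at h2
  obtain ⟨t, ht, h2⟩ := h2
  obtain ⟨δ, hδ, hδ'⟩ := ENNReal.exists_pos_sum_of_countable hε2 ℕ
  have h3 : ∀ i, ∃ a b : ℝ, t i ⊆ Ioc a b ∧
      ENNReal.ofReal (F b - F a) ≤ F.length (t i) + δ i := by
    intro i
    have hl := ENNReal.lt_add_right ((ENNReal.le_tsum i).trans_lt (h2.trans_le le_top)).ne
      (ENNReal.coe_pos.2 (hδ i)).ne'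
    conv at hl =>
      lhs
      rw [StieltjesFunction.length_eq]
    simp only [iInf_lt_iff] at hl
    obtain ⟨a, b, h4, h5⟩ := hl
    refine ⟨a, b, fun x hx => h4 ⟨hx, fun hb => ?_⟩, h5.le⟩
    exact not_isBot x hb
  choose a b hab hab' using h3
  refine ⟨a, b, ht.trans (iUnion_mono hab), ?_⟩
  calc ∑' i, ENNReal.ofReal (F (b i) - F (a i)) ≤ ∑' i, (F.length (t i) + δ i) :=
        ENNReal.tsum_le_tsum hab'
    _ = ∑' i, F.length (t i) + ∑' i, (δ i : ℝ≥0∞) := ENNReal.tsum_add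
    _ ≤ ε / 2 + ε / 2 := add_le_add h2.le hδ'.le
    _ = ε := ENNReal.add_halves ε

/-- slow weights -/
theorem slow {r : ℕ → ℝ} (hr : ∀ i, 0 < r i) (hs : Summable r) :
    ∃ K : ℕ → ℕ, Tendsto K atTop atTop ∧ Summable fun i => 2 ^ K i * r i := by
  let R : ℕ → ℝ := fun i => ∑' j, r (j + i)
  have hR : ∀ i, Summable fun j => r (j + i) := fun i => (summable_nat_add_iff i).2 hs
  have hR1 : ∀ i, R i = r i + R (i + 1) := by
    intro i
    show ∑' j, r (j + i) = r i + ∑' j, r (j + (i + 1))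
    rw [(hR i).tsum_eq_zero_add]
    simp only [zero_add]
    congr 1
    refine tsum_congr fun j => ?_
    congr 1
    ring
  have hR0 : ∀ i, 0 ≤ R i := fun i => tsum_nonneg fun j => (hr _).le
  have hRpos : ∀ i, 0 < R i := fun i => by
    rw [hR1]
    exact add_pos_of_pos_of_nonneg (hr i) (hR0 _)
  have hRt : Tendsto R atTop (𝓝 0) := tendsto_sum_nat_add r
  let w : ℕ → ℝ := fun i => Real.sqrt (R i)
  have hw : ∀ i, 0 < w i := fun i => Real.sqrt_pos.2 (hRpos i)
  have hww : ∀ i, w i * w i = R i := fun i => Real.mul_self_sqrt (hR0 i)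
  have hle : ∀ i, w (i + 1) ≤ w i := fun i => Real.sqrt_le_sqrt (by
    rw [hR1 i]
    linarith [hr i])
  have h1 : ∀ i, r i / w i ≤ 2 * (w i - w (i + 1)) := by
    intro i
    rw [div_le_iff₀ (hw i)]
    have h2 : r i = w i * w i - w (i + 1) * w (i + 1) := by
      rw [hww, hww, hR1 i]
      ring
    have h3 := hle i
    have h4 := hw (i + 1)
    rw [h2]
    nlinarith
  have hsum : Summable fun i => r i / w i := by
    refine summable_of_sum_range_le (c := 2 * w 0) (fun i => (div_pos (hr i) (hw i)).le) fun n => ?_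
    calc ∑ i ∈ Finset.range n, r i / w i ≤ ∑ i ∈ Finset.range n, 2 * (w i - w (i + 1)) :=
          Finset.sum_le_sum fun i _ => h1 i
      _ = 2 * (w 0 - w n) := by
          rw [← Finset.mul_sum, Finset.sum_range_sub']
      _ ≤ 2 * w 0 := by linarith [hw n]
  have hwt : Tendsto (fun i => (w i)⁻¹) atTop atTop := by
    refine Tendsto.inv_tendsto_nhdsGT_zero ?_
    refine tendsto_nhdsWithin_iff.2 ⟨?_, Eventually.of_forall hw⟩
    have h2 := (Real.continuous_sqrt.tendsto 0).comp hRt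
    rw [Real.sqrt_zero] at h2
    exact h2
  refine ⟨fun i => Nat.log 2 ⌊(w i)⁻¹⌋₊, ?_, ?_⟩
  · refine tendsto_atTop.2 fun k => ?_
    filter_upwards [hwt.eventually (eventually_ge_atTop ((2 : ℝ) ^ k))] with i hi
    refine Nat.le_log_of_pow_le one_lt_two ?_
    refine Nat.le_floor ?_
    push_cast
    exact hi
  · refine Summable.of_nonneg_of_le (fun i => mul_nonneg (by positivity) (hr i).le)
      (fun i => ?_) (hs.add hsum)
    have h5 : (2 : ℝ) ^ Nat.log 2 ⌊(w i)⁻¹⌋₊ ≤ 1 + (w i)⁻¹ := by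
      rcases Nat.eq_zero_or_pos ⌊(w i)⁻¹⌋₊ with h6 | h6
      · rw [h6]
        simp only [Nat.log_zero_right, pow_zero]
        linarith [inv_pos.2 (hw i)]
      · have h7 : (2 : ℕ) ^ Nat.log 2 ⌊(w i)⁻¹⌋₊ ≤ ⌊(w i)⁻¹⌋₊ := Nat.pow_log_le_self 2 h6.ne'
        have h8 : ((2 : ℕ) ^ Nat.log 2 ⌊(w i)⁻¹⌋₊ : ℝ) ≤ (⌊(w i)⁻¹⌋₊ : ℝ) := by exact_mod_cast h7
        have h9 := Nat.floor_le (inv_pos.2 (hw i)).le
        push_cast at h8
        linarith
    calc 2 ^ Nat.log 2 ⌊(w i)⁻¹⌋₊ * r i ≤ (1 + (w i)⁻¹) * r i :=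
          mul_le_mul_of_nonneg_right h5 (hr i).le
      _ = r i + r i / w i := by
          rw [div_eq_mul_inv]
          ring

section

variable {ν : Measure ℝ} [IsProbabilityMeasure ν]

theorem cdf_cont (hν : ∀ x, ν {x} = 0) : Continuous (ProbabilityTheory.cdf ν) := by
  rw [continuous_iff_continuousAt]
  intro x
  have hm : Monotone (ProbabilityTheory.cdf ν) := ProbabilityTheory.monotone_cdf ν
  rw [hm.continuousAt_iff_leftLim_eq_rightLim, StieltjesFunction.rightLim_eq]
  have h1 : (ProbabilityTheory.cdf ν).measure {x} = 0 := by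
    rw [ProbabilityTheory.measure_cdf]
    exact hν x
  rw [StieltjesFunction.measure_singleton, ENNReal.ofReal_eq_zero] at h1
  exact le_antisymm (hm.leftLim_le le_rfl) (by linarith)

theorem meas_le (hν : ∀ x, ν {x} = 0) (u v : ℝ) :
    ν {z | u ≤ ProbabilityTheory.cdf ν z ∧ ProbabilityTheory.cdf ν z ≤ v} ≤
      ENNReal.ofReal (v - u) := by
  have hc := cdf_cont hν
  have hm : Monotone (ProbabilityTheory.cdf ν) := ProbabilityTheory.monotone_cdf ν
  let S : Set ℝ := {z | u ≤ ProbabilityTheory.cdf ν z ∧ ProbabilityTheory.cdf ν z ≤ v}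
  have hS : IsClosed S := (isClosed_le continuous_const hc).inter (isClosed_le hc continuous_const)
  have h1 : ∀ n : ℕ, ν (S ∩ Icc (-(n : ℝ)) n) ≤ ENNReal.ofReal (v - u) := by
    intro n
    rcases (S ∩ Icc (-(n : ℝ)) n).eq_empty_or_nonempty with he | hne
    · rw [he]
      simp
    · have hK : IsCompact (S ∩ Icc (-(n : ℝ)) n) := isCompact_Icc.inter_left hS
      obtain ⟨a, ha, ha'⟩ := hK.exists_isLeast hne
      obtain ⟨b, hb, hb'⟩ := hK.exists_isGreatest hne
      have h2 : S ∩ Icc (-(n : ℝ)) n ⊆ {a} ∪ Ioc a b := by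
        intro z hz
        rcases (ha' hz).eq_or_lt with h3 | h3
        · exact Or.inl h3.symm
        · exact Or.inr ⟨h3, hb' hz⟩
      refine (measure_mono h2).trans ((measure_union_le _ _).trans ?_)
      rw [hν a, zero_add]
      have h4 := StieltjesFunction.measure_Ioc (ProbabilityTheory.cdf ν) a b
      rw [ProbabilityTheory.measure_cdf] at h4
      rw [h4]
      refine ENNReal.ofReal_le_ofReal ?_
      have h5 := ha.1.1
      have h6 := hb.1.2
      linarith
  have h2 : S = ⋃ n : ℕ, S ∩ Icc (-(n : ℝ)) n := by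
    rw [← inter_iUnion]
    refine (inter_eq_left.2 fun z _ => ?_).symm
    obtain ⟨n, hn⟩ := exists_nat_ge |z|
    exact mem_iUnion.2 ⟨n, abs_le.1 hn⟩
  have h3 : Monotone fun n : ℕ => S ∩ Icc (-(n : ℝ)) n := by
    intro m n hmn
    have h4 : (m : ℝ) ≤ n := by exact_mod_cast hmn
    exact inter_subset_inter_right _ (Icc_subset_Icc (by linarith) h4)
  show ν S ≤ _
  rw [h2, h3.measure_iUnion]
  exact iSup_le h1

end

/-- Null sets are covered infinitely often. -/
theorem inf_cover (F : StieltjesFunction ℝ) {N : Set ℝ} (hN : F.measure N = 0) :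
    ∃ u v : ℕ → ℝ, (∀ i, u i < v i) ∧ Summable (fun i => v i - u i) ∧
      ∀ x ∈ N, ∃ᶠ i in atTop, u i ≤ F x ∧ F x ≤ v i := by
  have h1 : ∀ k : ℕ, ∃ a b : ℕ → ℝ, N ⊆ ⋃ i, Ioc (a i) (b i) ∧
      ∑' i, ENNReal.ofReal (F (b i) - F (a i)) ≤ (2⁻¹ : ℝ≥0∞) ^ k := fun k =>
    cover F hN (pow_ne_zero _ (by simp))
  choose a b hab hab' using h1
  let d : ℕ → ℝ := fun n => max (F (b n.unpair.1 n.unpair.2) - F (a n.unpair.1 n.unpair.2)) 0
  have hd : Summable d := by
    have h2 : ∑' n, ENNReal.ofReal (F (b (Nat.unpair n).1 (Nat.unpair n).2) -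
        F (a (Nat.unpair n).1 (Nat.unpair n).2)) ≠ ∞ := by
      have h3 := (Nat.pairEquiv.symm.tsum_eq fun p : ℕ × ℕ =>
        ENNReal.ofReal (F (b p.1 p.2) - F (a p.1 p.2)))
      have h4 : ∑' n, ENNReal.ofReal (F (b (Nat.unpair n).1 (Nat.unpair n).2) -
        F (a (Nat.unpair n).1 (Nat.unpair n).2)) =
          ∑' p : ℕ × ℕ, ENNReal.ofReal (F (b p.1 p.2) - F (a p.1 p.2)) := h3
      rw [h4, ENNReal.tsum_prod (f := fun k i => ENNReal.ofReal (F (b k i) - F (a k i)))]
      refine ne_top_of_le_ne_top ?_ (ENNReal.tsum_le_tsum hab')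
      rw [ENNReal.tsum_geometric]
      simp
    have h3 := ENNReal.summable_toReal h2
    refine h3.congr fun n => ?_
    rw [ENNReal.toReal_ofReal']
  refine ⟨fun n => F (a n.unpair.1 n.unpair.2),
    fun n => F (a n.unpair.1 n.unpair.2) + d n + (1 / 2) ^ n, fun n => ?_, ?_, fun x hx => ?_⟩
  · have h2 : (0 : ℝ) < (1 / 2) ^ n := by positivity
    have h3 : 0 ≤ d n := le_max_right _ _
    dsimp only
    linarith
  · have h2 := hd.add (summable_geometric_of_lt_one (r := (1 / 2 : ℝ)) (by norm_num) (by norm_num))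
    refine h2.congr fun n => ?_
    dsimp only
    ring
  · rw [frequently_atTop]
    intro k
    obtain ⟨i, hi⟩ := mem_iUnion.1 (hab k hx)
    refine ⟨Nat.pair k i, Nat.left_le_pair k i, ?_⟩
    dsimp only [d]
    rw [Nat.unpair_pair]
    dsimp only
    have h2 := F.mono hi.1.le
    have h3 := F.mono hi.2
    have h4 := le_max_left (F (b k i) - F (a k i)) 0
    have h5 : (0 : ℝ) < (1 / 2) ^ (Nat.pair k i) := by positivity
    exact ⟨h2, by linarith⟩



/-- the exponents -/
def HH (h : ℕ → ℕ) (j : ℕ) : ℕ := ∑ i ∈ Finset.range (j + 1), (h i + 1)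

theorem HH_succ (h : ℕ → ℕ) (j : ℕ) : HH h j + 1 ≤ HH h (j + 1) := by
  unfold HH
  rw [Finset.sum_range_succ _ (j + 1)]
  omega

theorem le_HH (h : ℕ → ℕ) (j : ℕ) : h j ≤ HH h j := by
  unfold HH
  rw [Finset.sum_range_succ]
  omega

theorem HH_add (h : ℕ → ℕ) (k i : ℕ) : HH h k + i ≤ HH h (k + i) := by
  induction i with
  | zero => exact le_rfl
  | succ i ih =>
    have h1 := HH_succ h (k + i)
    have h2 : HH h (k + (i + 1)) = HH h (k + i + 1) := rfl
    omega

/-- the terms -/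
noncomputable def tm (h : ℕ → ℕ) (s : ℕ → Bool) (j : ℕ) : ℝ :=
  if s j then (1 / 3 : ℝ) ^ HH h j else 0

theorem tm_nonneg (h : ℕ → ℕ) (s : ℕ → Bool) (j : ℕ) : 0 ≤ tm h s j := by
  unfold tm
  split_ifs
  · positivity
  · exact le_rfl

theorem tm_le (h : ℕ → ℕ) (s : ℕ → Bool) (k i : ℕ) :
    tm h s (k + i) ≤ (1 / 3 : ℝ) ^ HH h k * (1 / 3) ^ i := by
  have h1 : (1 / 3 : ℝ) ^ HH h (k + i) ≤ (1 / 3 : ℝ) ^ HH h k * (1 / 3) ^ i := by
    rw [← pow_add]
    exact pow_le_pow_of_le_one (by norm_num) (by norm_num) (HH_add h k i)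
  unfold tm
  split_ifs
  · exact h1
  · positivity

theorem tm_summable (h : ℕ → ℕ) (s : ℕ → Bool) (k : ℕ) : Summable fun i => tm h s (k + i) :=
  Summable.of_nonneg_of_le (fun i => tm_nonneg _ _ _) (fun i => tm_le h s k i)
    ((summable_geometric_of_lt_one (by norm_num) (by norm_num)).mul_left _)

/-- the sums -/
noncomputable def ps (h : ℕ → ℕ) (s : ℕ → Bool) : ℝ := ∑' j, tm h s j

/-- the tails -/
noncomputable def tl (h : ℕ → ℕ) (s : ℕ → Bool) (k : ℕ) : ℝ := ∑' i, tm h s (k + i)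

theorem ps_eq (h : ℕ → ℕ) (s : ℕ → Bool) (k : ℕ) :
    ps h s = ∑ j ∈ Finset.range k, tm h s j + tl h s k := by
  have h1 : Summable (tm h s) := by
    have := tm_summable h s 0
    simpa using this
  unfold ps tl
  rw [← h1.sum_add_tsum_nat_add k]
  congr 1
  refine tsum_congr fun i => ?_
  rw [add_comm]

theorem tl_nonneg (h : ℕ → ℕ) (s : ℕ → Bool) (k : ℕ) : 0 ≤ tl h s k :=
  tsum_nonneg fun _ => tm_nonneg _ _ _

theorem tl_le (h : ℕ → ℕ) (s : ℕ → Bool) (k : ℕ) : tl h s k ≤ 3 / 2 * (1 / 3 : ℝ) ^ HH h k := by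
  unfold tl
  calc ∑' i, tm h s (k + i) ≤ ∑' i, (1 / 3 : ℝ) ^ HH h k * (1 / 3) ^ i :=
        (tm_summable h s k).tsum_le_tsum (fun i => tm_le h s k i)
          ((summable_geometric_of_lt_one (by norm_num) (by norm_num)).mul_left _)
    _ = 3 / 2 * (1 / 3 : ℝ) ^ HH h k := by
        rw [tsum_mul_left, tsum_geometric_of_lt_one (by norm_num) (by norm_num)]
        ring

theorem ps_nonneg (h : ℕ → ℕ) (s : ℕ → Bool) : 0 ≤ ps h s := tsum_nonneg fun _ => tm_nonneg _ _ _

theorem ps_injective (h : ℕ → ℕ) : Function.Injective (ps h) := by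
  classical
  have key : ∀ (s s' : ℕ → Bool) (j : ℕ), (∀ i < j, s i = s' i) → s j = true → s' j = false →
      ps h s' < ps h s := by
    intro s s' j h1 h2 h3
    rw [ps_eq h s (j + 1), ps_eq h s' (j + 1), Finset.sum_range_succ, Finset.sum_range_succ]
    have h4 : ∑ i ∈ Finset.range j, tm h s i = ∑ i ∈ Finset.range j, tm h s' i := by
      refine Finset.sum_congr rfl fun i hi => ?_
      unfold tm
      rw [h1 i (Finset.mem_range.1 hi)]
    have h5 : tm h s j = (1 / 3 : ℝ) ^ HH h j := by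
      unfold tm
      rw [if_pos h2]
    have h6 : tm h s' j = 0 := by
      unfold tm
      rw [h3]
      simp
    have h7 := tl_le h s' (j + 1)
    have h8 := tl_nonneg h s (j + 1)
    have h9 : (1 / 3 : ℝ) ^ HH h (j + 1) ≤ (1 / 3 : ℝ) ^ HH h j * (1 / 3) := by
      rw [← pow_succ]
      exact pow_le_pow_of_le_one (by norm_num) (by norm_num) (HH_succ h j)
    have h10 : (0 : ℝ) < (1 / 3 : ℝ) ^ HH h j := by positivity
    rw [h4, h5, h6]
    linarith
  intro s s' hss
  by_contra hne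
  have hex : ∃ j, s j ≠ s' j := by
    by_contra hcon
    push Not at hcon
    exact hne (funext hcon)
  have h1 := Nat.find_spec hex
  have h2 : ∀ i < Nat.find hex, s i = s' i := fun i hi => not_not.1 (Nat.find_min hex hi)
  rcases hb : s (Nat.find hex) with _ | _
  · have h3 : s' (Nat.find hex) = true := by
      rcases hb' : s' (Nat.find hex) with _ | _
      · exact absurd (hb.trans hb'.symm) h1
      · rfl
    exact absurd hss (key s' s _ (fun i hi => (h2 i hi).symm) h3 hb).ne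
  · have h3 : s' (Nat.find hex) = false := by
      rcases hb' : s' (Nat.find hex) with _ | _
      · rfl
      · exact absurd (hb.trans hb'.symm) h1
    exact absurd hss (key s s' _ h2 hb h3).ne'

/-- the sequences that vanish below `k` -/
def sh (k : ℕ) (s : ℕ → Bool) (j : ℕ) : Bool := if j < k then false else s (j - k)

theorem sh_injective (k : ℕ) : Function.Injective (sh k) := by
  intro s s' hss
  funext j
  have h1 := congrFun hss (j + k)
  unfold sh at h1
  simpa using h1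

theorem ps_sh_le (h : ℕ → ℕ) (k : ℕ) (s : ℕ → Bool) : ps h (sh k s) ≤ 3 / 2 * (1 / 3 : ℝ) ^ k := by
  rw [ps_eq h _ k]
  have h1 : ∑ j ∈ Finset.range k, tm h (sh k s) j = 0 := by
    refine Finset.sum_eq_zero fun j hj => ?_
    unfold tm sh
    rw [if_pos (Finset.mem_range.1 hj)]
    simp
  rw [h1, zero_add]
  refine (tl_le h _ k).trans ?_
  refine mul_le_mul_of_nonneg_left ?_ (by norm_num)
  refine pow_le_pow_of_le_one (by norm_num) (by norm_num) ?_
  have := HH_add h 0 k
  rw [zero_add] at this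
  omega

/-- the leading parts -/
noncomputable def ld (h : ℕ → ℕ) (A : Finset ℕ) : ℝ := ∑ j ∈ A, (1 / 3 : ℝ) ^ HH h j

theorem exists_ld (h : ℕ → ℕ) (s : ℕ → Bool) (k : ℕ) : ∃ A ∈ (Finset.range k).powerset,
    ld h A ≤ ps h s ∧ ps h s ≤ ld h A + 3 / 2 * (1 / 3 : ℝ) ^ HH h k := by
  refine ⟨(Finset.range k).filter fun j => s j = true, ?_, ?_⟩
  · rw [Finset.mem_powerset]
    exact Finset.filter_subset _ _
  · have h1 : ld h ((Finset.range k).filter fun j => s j = true) =
        ∑ j ∈ Finset.range k, tm h s j := by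
      unfold ld
      rw [Finset.sum_filter]
      rfl
    rw [h1, ps_eq h s k]
    exact ⟨by linarith [tl_nonneg h s k], by linarith [tl_le h s k]⟩


/-- The perfect set lemma. -/
theorem psl (μ : Measure (ℕ → ℕ)) [IsProbabilityMeasure μ] (hμ : ∀ x, μ {x} = 0) :
    ∃ Q : (ℕ → ℕ) → (ℕ → ℕ) → Set (ℕ → ℕ), (∀ y h, 𝔠 ≤ #(Q y h)) ∧
      ∀ N, μ N = 0 → ∃ φ : ℕ → ℕ, ∀ h : ℕ → ℕ, (∀ᶠ k in atTop, φ k ≤ h k) →
        μ {y | (Q y h ∩ N).Nonempty} = 0 := by
  classical
  have hX : ¬ Countable (ℕ → ℕ) := by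
    rw [← mk_le_aleph0_iff]
    simp [aleph0_lt_continuum]
  have hY : ¬ Countable ℝ := by
    rw [← mk_le_aleph0_iff]
    simp [mk_real, aleph0_lt_continuum]
  let e : (ℕ → ℕ) ≃ᵐ ℝ := PolishSpace.measurableEquivOfNotCountable hX hY
  let ν : Measure ℝ := μ.map e
  have : IsProbabilityMeasure ν := Measure.isProbabilityMeasure_map e.measurable.aemeasurable
  have hmap : ∀ S : Set ℝ, ν S = μ (e ⁻¹' S) := fun S => e.map_apply S
  have hν : ∀ x, ν {x} = 0 := by
    intro x
    rw [hmap]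
    have h1 : e ⁻¹' {x} = {e.symm x} := by
      ext y
      simp only [mem_preimage, mem_singleton_iff]
      exact ⟨fun h => by rw [← h, e.symm_apply_apply], fun h => by rw [h, e.apply_symm_apply]⟩
    rw [h1]
    exact hμ _
  let G : (ℕ → ℕ) → ℝ := fun y => ProbabilityTheory.cdf ν (e y)
  have hG0 : ∀ y, 0 ≤ G y := fun y => ProbabilityTheory.cdf_nonneg ν _
  have hG1 : ∀ y, G y ≤ 1 := fun y => ProbabilityTheory.cdf_le_one ν _
  have hGm : ∀ u v : ℝ, μ {y | u ≤ G y ∧ G y ≤ v} ≤ ENNReal.ofReal (v - u) := fun u v => by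
    have h1 := meas_le hν u v
    rw [hmap] at h1
    exact h1
  have hGr : ∀ t : ℝ, 0 < t → t < 1 → ∃ x, G x = t := by
    intro t ht0 ht1
    have h1 : ∃ a, ProbabilityTheory.cdf ν a ≤ t :=
      ((ProbabilityTheory.tendsto_cdf_atBot ν).eventually (eventually_le_nhds ht0)).exists
    have h2 : ∃ b, t ≤ ProbabilityTheory.cdf ν b :=
      ((ProbabilityTheory.tendsto_cdf_atTop ν).eventually (eventually_ge_nhds ht1)).exists
    obtain ⟨z, hz⟩ := mem_range_of_exists_le_of_exists_ge (cdf_cont hν) h1 h2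
    exact ⟨e.symm z, by show ProbabilityTheory.cdf ν (e (e.symm z)) = t; rw [e.apply_symm_apply, hz]⟩
  refine ⟨fun y h => if 0 < G y ∧ G y < 1 then {x | ∃ s, G x = G y + ps h s} else Set.univ,
    fun y h => ?_, fun N hN => ?_⟩
  · dsimp only
    split_ifs with hy
    · obtain ⟨k, hk⟩ := exists_pow_lt_of_lt_one (show (0 : ℝ) < 2 / 3 * (1 - G y) by linarith)
        (show (1 / 3 : ℝ) < 1 by norm_num)
      have h1 : ∀ s : ℕ → Bool, ∃ x, G x = G y + ps h (sh k s) := fun s =>
        hGr _ (by linarith [ps_nonneg h (sh k s)]) (by linarith [ps_sh_le h k s])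
      choose f hf using h1
      have h2 : #(ℕ → Bool) ≤ #({x | ∃ s, G x = G y + ps h s} : Set (ℕ → ℕ)) := by
        refine mk_le_of_injective (f := fun s => (⟨f s, _, hf s⟩ :
          ({x | ∃ s, G x = G y + ps h s} : Set (ℕ → ℕ)))) fun s s' hss => ?_
        have h3 : f s = f s' := congrArg Subtype.val hss
        have h4 := hf s
        rw [h3, hf s'] at h4
        exact (sh_injective k (ps_injective h (add_left_cancel h4))).symm
      refine le_trans ?_ h2
      simp
    · simp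
  · have hνN : ν (e '' N) = 0 := by
      rw [hmap, e.preimage_image]
      exact hN
    obtain ⟨u, v, huv, hsum, hcov⟩ := inf_cover (ProbabilityTheory.cdf ν) (N := e '' N)
      (by rw [ProbabilityTheory.measure_cdf]; exact hνN)
    have hr : ∀ i, 0 < v i - u i := fun i => sub_pos.2 (huv i)
    obtain ⟨K, hK, hK'⟩ := slow hr hsum
    have h1 : ∀ k, ∃ n, ∀ i ≥ n, k < K i := fun k =>
      eventually_atTop.1 (hK.eventually (eventually_gt_atTop k))
    choose n hn using h1
    have h2 : ∀ i, ∃ m : ℕ, 3 / 2 * (1 / 3 : ℝ) ^ m ≤ v i - u i := by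
      intro i
      obtain ⟨m, hm⟩ := exists_pow_lt_of_lt_one (show (0 : ℝ) < 2 / 3 * (v i - u i) by
        linarith [hr i]) (show (1 / 3 : ℝ) < 1 by norm_num)
      exact ⟨m, by linarith⟩
    choose m hm using h2
    refine ⟨fun k => ∑ i ∈ Finset.range (n k), m i, fun h hh => ?_⟩
    let B : ℕ → Set (ℕ → ℕ) := fun i => ⋃ A ∈ (Finset.range (K i)).powerset,
      {y | u i - ld h A - (v i - u i) ≤ G y ∧ G y ≤ v i - ld h A}
    have hB : ∀ i, μ (B i) ≤ ENNReal.ofReal (2 * (2 ^ K i * (v i - u i))) := by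
      intro i
      refine (measure_biUnion_finset_le _ _).trans ?_
      refine (Finset.sum_le_sum fun A _ => hGm _ _).trans ?_
      have h3 : ∀ A : Finset ℕ, v i - ld h A - (u i - ld h A - (v i - u i)) =
          2 * (v i - u i) := fun A => by ring
      simp only [h3]
      rw [Finset.sum_const, Finset.card_powerset, Finset.card_range, nsmul_eq_mul]
      rw [← ENNReal.ofReal_natCast, ← ENNReal.ofReal_mul (Nat.cast_nonneg _)]
      refine ENNReal.ofReal_le_ofReal (le_of_eq ?_)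
      push_cast
      ring
    have hB' : ∑' i, μ (B i) ≠ ∞ := by
      refine ne_top_of_le_ne_top ?_ (ENNReal.tsum_le_tsum hB)
      rw [← ENNReal.ofReal_tsum_of_nonneg (fun i => ?_) (hK'.mul_left 2)]
      · exact ENNReal.ofReal_ne_top
      · have h3 := (hr i).le
        positivity
    have hBC := measure_setOfPred_frequently_eq_zero (p := fun i y => y ∈ B i) hB'
    have hend : μ {y | ¬ (0 < G y ∧ G y < 1)} = 0 := by
      have h3 : {y | ¬ (0 < G y ∧ G y < 1)} ⊆
          {y | 0 ≤ G y ∧ G y ≤ 0} ∪ {y | 1 ≤ G y ∧ G y ≤ 1} := by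
        intro y hy
        rcases not_and_or.1 hy with h4 | h4
        · exact Or.inl ⟨hG0 y, not_lt.1 h4⟩
        · exact Or.inr ⟨not_lt.1 h4, hG1 y⟩
      have h4 := hGm 0 0
      have h5 := hGm 1 1
      rw [sub_self, ENNReal.ofReal_zero] at h4 h5
      refine measure_mono_null h3 (measure_union_null ?_ ?_)
      · exact nonpos_iff_eq_zero.1 h4
      · exact nonpos_iff_eq_zero.1 h5
    refine measure_mono_null (fun y hy => ?_) (measure_union_null hend hBC)
    by_cases hy1 : 0 < G y ∧ G y < 1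
    · right
      obtain ⟨x, hx, hxN⟩ := hy
      dsimp only at hx
      rw [if_pos hy1] at hx
      obtain ⟨s, hs⟩ := hx
      have h3 := hcov (e x) ⟨x, hxN, rfl⟩
      have h4 : ∀ᶠ i in atTop, ∑ j ∈ Finset.range (n (K i)), m j ≤ h (K i) := hK.eventually hh
      refine (h3.and_eventually h4).mono fun i hi => ?_
      obtain ⟨⟨h5, h6⟩, h7⟩ := hi
      obtain ⟨A, hA, hA1, hA2⟩ := exists_ld h s (K i)
      have h8 : i < n (K i) := by
        by_contra hcon
        exact absurd (hn (K i) i (not_lt.1 hcon)) (lt_irrefl _)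
      have h9 : m i ≤ ∑ j ∈ Finset.range (n (K i)), m j :=
        Finset.single_le_sum (f := m) (fun _ _ => Nat.zero_le _) (Finset.mem_range.2 h8)
      have h10 : (1 / 3 : ℝ) ^ HH h (K i) ≤ (1 / 3 : ℝ) ^ m i :=
        pow_le_pow_of_le_one (by norm_num) (by norm_num) ((h9.trans h7).trans (le_HH _ _))
      have h11 := hm i
      have h12 : ProbabilityTheory.cdf ν (e x) = G y + ps h s := hs
      rw [h12] at h5 h6
      show y ∈ B i
      refine mem_iUnion₂.2 ⟨A, hA, ?_, ?_⟩
      · linarith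
      · linarith
    · exact Or.inl hy1

end Pool.Agent.Lib.MP_0b3fe5_lc.Psl27
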