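import Pool.Agent.Lib.MP_0b3fe5_lc.Roth73
import Pool.Agent.Lib.MP_0b3fe5_lc.CompN
import Pool.Agent.Lib.MP_0b3fe5_lc.Psl27

/-!
# Luzin sequences for `≠*`, dominating families, and all nine pairs
-/

open Cardinal Set Filter Order MeasureTheory

namespace Pool.Agent.Lib.MP_0b3fe5_lc.Roth73

open Pool.Agent.Lib.MP_0b3fe5_lc Pool.Agent.Lib.MP_0b3fe5_lc.NonM90
open Pool.Agent.Lib.MP_0b3fe5_lc.Cantor90

theorem meager_ne (b : ℕ → ℕ) : IsMeagre {y : ℕ → ℕ | NeStar y b} := by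
  have h2 : (⋂ N : ℕ, {y : ℕ → ℕ | ∃ n ≥ N, y n = b n}) ∈ residual (ℕ → ℕ) := by
    rw [countable_iInter_mem]
    intro N
    refine residual_of_dense_open ?_ (dense_dep fun y n => ?_)
    · have h3 : {y : ℕ → ℕ | ∃ n ≥ N, y n = b n} = ⋃ n ≥ N, {y | y n = b n} := by
        ext y
        simp
      rw [h3]
      exact isOpen_biUnion fun n _ => isOpen_dep (n + 1) fun y y' h hc => by
        rw [h n (Nat.lt_succ_self n)]
        exact hc
    · refine ⟨Function.update y (max N n) (b (max N n)), ⟨max N n, le_max_left _ _, by simp⟩,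
        fun i hi => ?_⟩
      rw [Function.update_of_ne (hi.trans_le (le_max_right _ _)).ne]
  show {y : ℕ → ℕ | NeStar y b}ᶜ ∈ residual (ℕ → ℕ)
  refine mem_of_superset h2 fun y hy hyA => ?_
  obtain ⟨N, hN⟩ := eventually_atTop.1 (show NeStar y b from hyA)
  obtain ⟨n, hn, hn'⟩ := mem_iInter.1 hy N
  exact hN n hn hn'

theorem exists_nonmeager : ∃ A : Set (ℕ → ℕ), ¬ IsMeagre A ∧ #A ≤ bnum NeStar := by
  obtain ⟨F, hF, hF'⟩ := exists_unb
  have hFio : ∀ g : ℕ → ℕ, ∃ f ∈ F, ∃ᶠ n in atTop, f n = g n := by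
    intro g
    by_contra hcon
    push Not at hcon
    refine hF ⟨g, fun a ha => ?_⟩
    exact hcon a ha
  refine ⟨range fun p : F × F => xx p.1 p.2 fun _ => false, fun hm => ?_, ?_⟩
  · obtain ⟨f, hf, h, hh, h1⟩ := main hFio hm
    exact h1 (fun _ => false) ⟨(⟨f, hf⟩, ⟨h, hh⟩), rfl⟩
  · refine mk_range_le.trans ?_
    simp only [mk_prod, lift_id, hF', mul_eq_self aleph0_le, le_refl]

/-- A Luzin sequence for `≠*` if `𝔟(≠*) = ℵ₁`. -/
theorem luz_ne (h1 : bnum NeStar = ℵ_ 1) : Luz NeStar := by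
  classical
  obtain ⟨A, hA, hA'⟩ := exists_nonmeager
  have hne : Nonempty A := by
    by_contra hcon
    rw [not_nonempty_iff, isEmpty_coe_sort] at hcon
    exact hA (hcon ▸ IsMeagre.empty)
  have h2 : #A ≤ #(bnum NeStar).ord.ToType := by rw [mk_ord_toType]; exact hA'
  obtain ⟨i⟩ := h2
  let a : (bnum NeStar).ord.ToType → A := Function.invFun i
  have ha : Function.Surjective a := Function.invFun_surjective i.injective
  have hcount : ∀ b : (bnum NeStar).ord.ToType, ∃ e : ℕ → (bnum NeStar).ord.ToType,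
      ∀ b' ≤ b, ∃ m, e m = b' := by
    intro b
    have h3 : #(Iic b : Set (bnum NeStar).ord.ToType) < bnum NeStar := by
      have h5 : (Iic b : Set (bnum NeStar).ord.ToType) = Iio b ∪ {b} := by
        ext j
        simp [le_iff_lt_or_eq]
      rw [h5]
      refine (mk_union_le _ _).trans_lt (add_lt_of_lt aleph0_le ?_ ?_)
      · simpa using mk_Iio_toType_ord_lt b
      · rw [mk_singleton]
        exact one_lt_aleph0.trans_le aleph0_le
    have h4 : (Iic b : Set (bnum NeStar).ord.ToType).Countable := by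
      rw [← le_aleph0_iff_set_countable]
      have h6 : #(Iic b : Set (bnum NeStar).ord.ToType) < succ ℵ₀ := by
        rw [succ_aleph0]
        exact h3.trans_le h1.le
      exact lt_succ_iff.1 h6
    obtain ⟨e, he⟩ := h4.exists_eq_range ⟨b, mem_Iic.2 le_rfl⟩
    exact ⟨e, fun b' hb' => by
      have h6 : b' ∈ range e := he ▸ hb'
      exact h6⟩
  choose e he using hcount
  refine ⟨fun b k => (a (e b k.unpair.1)).1 k.unpair.2, fun S hS hb => ?_⟩
  obtain ⟨g, hg⟩ := hb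
  have hcof := isCofinal_of_mk hS
  have hun : IsMeagre (⋃ m : ℕ, {y : ℕ → ℕ | NeStar y fun n => g (Nat.pair m n)}) :=
    isMeagre_iUnion fun m : ℕ => meager_ne fun n => g (Nat.pair m n)
  refine hA (IsMeagre.mono ?_ hun)
  intro v hv
  obtain ⟨b', hb'⟩ := ha ⟨v, hv⟩
  obtain ⟨b, hb, hbb⟩ := hcof b'
  obtain ⟨m, hm⟩ := he b b' hbb
  refine mem_iUnion.2 ⟨m, ?_⟩
  have h3 : NeStar (fun k => (a (e b k.unpair.1)).1 k.unpair.2) g := hg _ ⟨b, hb, rfl⟩
  obtain ⟨K, hK⟩ := eventually_atTop.1 h3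
  show NeStar v _
  refine eventually_atTop.2 ⟨K, fun n hn h4 => ?_⟩
  have h5 := hK (Nat.pair m n) (hn.trans (Nat.right_le_pair m n))
  simp only [Nat.unpair_pair] at h5
  refine h5 ?_
  rw [hm, hb']
  exact h4

theorem bounded_countable {A : Set (ℕ → ℕ)} (hA : A.Countable) : Bounded InStar A := by
  classical
  rcases A.eq_empty_or_nonempty with rfl | hne
  · exact ⟨⟨fun _ => ∅, fun n => by simp⟩, fun _ h => absurd h (notMem_empty _)⟩
  obtain ⟨a, rfl⟩ := hA.exists_eq_range hne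
  refine ⟨⟨fun k => (Finset.range k).image fun n => a n k, fun k =>
    Finset.card_image_le.trans (Finset.card_range k).le⟩, ?_⟩
  rintro _ ⟨n, rfl⟩
  refine eventually_atTop.2 ⟨n + 1, fun k hk => Finset.mem_image.2 ⟨n, ?_, rfl⟩⟩
  exact Finset.mem_range.2 hk

theorem bounded_le {A : Set (ℕ → ℕ)} (h : Bounded InStar A) : Bounded LeStar A := by
  obtain ⟨s, hs⟩ := h
  exact ⟨fun k => (s.1 k).sup id, fun a ha => (hs a ha).mono fun k hk =>
    Finset.le_sup (f := id) hk⟩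

theorem bounded_ne {A : Set (ℕ → ℕ)} (h : Bounded LeStar A) : Bounded NeStar A := by
  obtain ⟨b, hb⟩ := h
  refine ⟨fun k => b k + 1, fun a ha => (hb a ha).mono fun k hk h => ?_⟩
  simp only at h
  omega

theorem aleph_one_le {B : Type} {R : (ℕ → ℕ) → B → Prop} (hR : ∀ A : Set (ℕ → ℕ), A.Countable →
    Bounded R A) (hex : ∃ A : Set (ℕ → ℕ), ¬ Bounded R A ∧ #A = bnum R) : ℵ_ 1 ≤ bnum R := by
  obtain ⟨A, hA, hA'⟩ := hex
  rw [← hA', ← succ_aleph0, succ_le_iff]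
  by_contra hcon
  push Not at hcon
  exact hA (hR A (le_aleph0_iff_set_countable.1 hcon))

/-- The dominating number. -/
noncomputable def dnum : Cardinal.{0} :=
  sInf {κ | ∃ D : Set (ℕ → ℕ), (∀ f, ∃ d ∈ D, LeStar f d) ∧ #D = κ}

theorem exists_dom : ∃ D : Set (ℕ → ℕ), (∀ f, ∃ d ∈ D, LeStar f d) ∧ #D = dnum :=
  csInf_mem (s := {κ | ∃ D : Set (ℕ → ℕ), (∀ f, ∃ d ∈ D, LeStar f d) ∧ #D = κ})
    ⟨_, Set.univ, fun f => ⟨f, mem_univ _, Eventually.of_forall fun _ => le_rfl⟩, rfl⟩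

theorem LeStar.trans {f g h : ℕ → ℕ} (h1 : LeStar f g) (h2 : LeStar g h) : LeStar f h :=
  (h1.and h2).mono fun _ h => h.1.trans h.2

theorem bnum_le_dnum : bnum LeStar ≤ dnum := by
  obtain ⟨D, hD, hD'⟩ := exists_dom
  rw [← hD']
  refine csInf_le' ⟨D, fun ⟨g, hg⟩ => ?_, rfl⟩
  obtain ⟨d, hd, hd'⟩ := hD fun n => g n + 1
  obtain ⟨n, hn⟩ := (hd'.and (hg d hd)).exists
  have h1 := hn.1.trans hn.2
  simp only at h1
  omega

theorem dnum_le : dnum ≤ 𝔠 := by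
  rw [← mk_NN, ← mk_univ]
  exact csInf_le' ⟨Set.univ, fun f => ⟨f, mem_univ _, Eventually.of_forall fun _ => le_rfl⟩, rfl⟩

/-- A dominating family all of whose bounded subfamilies are small, if `𝔡 ≤ 𝔟⁺`. -/
theorem dom_small (h : dnum ≤ succ (bnum LeStar)) : ∃ D : Set (ℕ → ℕ),
    (∀ f, ∃ d ∈ D, LeStar f d) ∧ ∀ g, #{d | d ∈ D ∧ LeStar d g} ≤ bnum LeStar := by
  classical
  obtain ⟨E, hE, hE'⟩ := exists_dom
  have h0 : ℵ₀ ≤ dnum := (aleph0_le_bnum goodRel_leStar).trans bnum_le_dnum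
  have he : #(dnum.ord.ToType) = #E := by rw [mk_ord_toType, hE']
  obtain ⟨e⟩ := Cardinal.eq.1 he
  have hf : ∀ i : dnum.ord.ToType, ∃ f : ℕ → ℕ, ∀ j ≤ i, ¬ LeStar f (e j).1 := by
    intro i
    by_contra hcon
    push Not at hcon
    have h1 : #((fun j => (e j).1) '' Iic i : Set (ℕ → ℕ)) < dnum := by
      refine mk_image_le.trans_lt ?_
      have h2 : (Iic i : Set dnum.ord.ToType) = Iio i ∪ {i} := by
        ext j
        simp [le_iff_lt_or_eq]
      rw [h2]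
      refine (mk_union_le _ _).trans_lt (add_lt_of_lt h0 ?_ ?_)
      · simpa using mk_Iio_toType_ord_lt i
      · rw [mk_singleton]
        exact one_lt_aleph0.trans_le h0
    refine absurd h1 (not_lt.2 (csInf_le' ⟨_, fun f => ?_, rfl⟩))
    obtain ⟨j, hj, hj'⟩ := hcon f
    exact ⟨_, ⟨j, hj, rfl⟩, hj'⟩
  choose f hf using hf
  let d : dnum.ord.ToType → ℕ → ℕ := fun i n => max ((e i).1 n) (f i n)
  refine ⟨range d, fun g => ?_, fun g => ?_⟩
  · obtain ⟨v, hv, hv'⟩ := hE g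
    refine ⟨d (e.symm ⟨v, hv⟩), ⟨_, rfl⟩, hv'.mono fun n hn => hn.trans ?_⟩
    show v n ≤ max ((e (e.symm ⟨v, hv⟩)).1 n) _
    rw [e.apply_symm_apply]
    exact le_max_left _ _
  · obtain ⟨v, hv, hv'⟩ := hE g
    have hsub : {x | x ∈ range d ∧ LeStar x g} ⊆ d '' Iio (e.symm ⟨v, hv⟩) := by
      rintro _ ⟨⟨i, rfl⟩, hi⟩
      refine ⟨i, ?_, rfl⟩
      by_contra hno
      rw [mem_Iio, not_lt] at hno
      refine hf i _ hno ?_
      rw [e.apply_symm_apply]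
      exact LeStar.trans (LeStar.trans (Eventually.of_forall fun n => le_max_right _ _) hi) hv'
    refine (mk_le_mk_of_subset hsub).trans (mk_image_le.trans ?_)
    exact lt_succ_iff.1 ((mk_Iio_toType_ord_lt _).trans_le h)

theorem ex_unb_le : ∃ A : Set (ℕ → ℕ), ¬ Bounded LeStar A ∧ #A = bnum LeStar :=
  exists_unbounded goodRel_leStar

theorem ex_unb_in : ∃ A : Set (ℕ → ℕ), ¬ Bounded InStar A ∧ #A = bnum InStar :=
  exists_unbounded goodRel_inStar

theorem hu_le (b : ℕ → ℕ) : ∃ x : ℕ → ℕ, ¬ LeStar x b := by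
  refine ⟨fun n => b n + 1, fun h => ?_⟩
  obtain ⟨n, hn⟩ := h.exists
  simp only at hn
  omega

theorem hu_ne (b : ℕ → ℕ) : ∃ x : ℕ → ℕ, ¬ NeStar x b := by
  refine ⟨b, fun h => ?_⟩
  obtain ⟨n, hn⟩ := h.exists
  exact hn rfl

theorem hu_in (s : Slalom) : ∃ x : ℕ → ℕ, ¬ InStar x s := by
  have h : ∀ k, ∃ m, m ∉ s.1 k := fun k => Infinite.exists_notMem_finset _
  choose b hb using h
  refine ⟨b, fun h => ?_⟩
  obtain ⟨n, hn⟩ := h.exists
  exact hb n hn

theorem sub_meager {X : Set (ℕ → ℕ)} (h : X ∈ KSets) : X ∈ MeagerSets := by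
  obtain ⟨b, hb⟩ := bounded_ne (mem_KSets_iff.1 h)
  exact IsMeagre.mono hb (meager_ne b)

/-- The pair `(≤*, I)`: perfect sets, and `𝔡 < 𝔠` or a dominating family whose bounded subfamilies
are small. -/
theorem le_pair {I : Set (Set (ℕ → ℕ))} (hI : Idl I) (hP : PerfectSets I)
    (hd : dnum < 𝔠 ∨ ∃ D : Set (ℕ → ℕ), (∀ f, ∃ d ∈ D, LeStar f d) ∧
      ∀ g, #{d | d ∈ D ∧ LeStar d g} ≤ bnum LeStar)
    (h : 𝔠 < bnumMod LeStar I) : ∃ 𝓧, IsRothberger 𝔠 (bnum LeStar) I 𝓧 := by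
  have hL := luz_of_good goodRel_leStar
  have hreg := isRegular_bnum goodRel_leStar
  have hle := bnum_le goodRel_leStar
  rcases hd with hd | ⟨D, hD, hD'⟩
  · obtain ⟨D, hD, hD'⟩ := exists_dom
    exact fibre_trick hI hP h (spread_of_luz hL hreg) hreg hle hD (hD' ▸ hd)
  · exact of_codes hI hP h hL hreg hle hD id hD'

/-! ### The relation `≠*` if `𝔟(≠*) = 𝔟(∈*)` -/

/-- The transfer for `≠*`. -/
def trN (b : ℕ → ℕ) (m : ℕ) : ℕ :=
  Encodable.encode ((List.range m).map fun i => b (Nat.pair m i))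

/-- One function that is infinitely often equal to `b` if `trN b` is infinitely often in the
slalom. -/
noncomputable def nrT (s : Slalom) (k : ℕ) : ℕ :=
  (decL ((s.1 k.unpair.1).toList.getD k.unpair.2 0)).getD k.unpair.2 0

theorem trN_mem {s : Slalom} {b : ℕ → ℕ} {m : ℕ} (h : trN b m ∈ s.1 m) :
    ∃ k ≥ m, nrT s k = b k := by
  have h1 : trN b m ∈ (s.1 m).toList := Finset.mem_toList.2 h
  obtain ⟨i, hi, hi'⟩ := List.mem_iff_getElem.1 h1
  have h2 : i < m := by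
    rw [Finset.length_toList] at hi
    exact hi.trans_le (s.2 m)
  refine ⟨Nat.pair m i, Nat.left_le_pair m i, ?_⟩
  unfold nrT
  rw [Nat.unpair_pair]
  show (decL ((s.1 m).toList.getD i 0)).getD i 0 = b (Nat.pair m i)
  have h3 : (s.1 m).toList.getD i 0 = trN b m := by
    rw [← hi']
    exact List.getD_eq_getElem _ _ hi
  rw [h3, trN, decL_encode]
  simp [List.getD, h2]

theorem goodRel_neStar (h : bnum NeStar = bnum InStar) : GoodRel NeStar where
  finite := fun _ hA => finite_bounded hA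
  unb := NonM90.unb
  tr := by
    refine ⟨trN, fun U hU => ?_⟩
    obtain ⟨s, hs⟩ := bounded_of_lt (R := InStar) (h ▸ hU)
    refine ⟨nrT s, fun b hb u hu => ?_⟩
    obtain ⟨K, hK⟩ := eventually_atTop.1 hb
    obtain ⟨K', hK'⟩ := eventually_atTop.1 (hs u hu)
    refine eventually_atTop.2 ⟨max K K', fun m hm hum => ?_⟩
    have h1 : trN b m ∈ s.1 m := hum ▸ hK' m ((le_max_right _ _).trans hm)
    obtain ⟨k, hk, hk'⟩ := trN_mem h1
    exact hK k (((le_max_left _ _).trans hm).trans hk) hk'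

theorem bnum_in_le : bnum InStar ≤ bnum LeStar := by
  obtain ⟨A, hA, hA'⟩ := ex_unb_le
  rw [← hA']
  exact csInf_le' ⟨A, fun h => hA (bounded_le h), rfl⟩

theorem bnum_le_ne : bnum LeStar ≤ bnum NeStar := by
  obtain ⟨A, hA, hA'⟩ := exists_unb
  rw [← hA']
  exact csInf_le' ⟨A, fun h => hA (bounded_ne h), rfl⟩

theorem aleph_one_le_in : ℵ_ 1 ≤ bnum InStar :=
  aleph_one_le (fun _ hA => bounded_countable hA) ex_unb_in

theorem aleph_two_le : (ℵ_ 2 : Cardinal.{0}) ≤ succ (bnum InStar) := by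
  have hs : (ℵ_ 2 : Cardinal.{0}) = succ (ℵ_ 1) := by
    rw [succ_aleph]
    norm_num
  rw [hs]
  exact succ_le_succ aleph_one_le_in

/-- The null sets. -/
theorem perfectSets_null (μ : Measure (ℕ → ℕ)) [IsProbabilityMeasure μ] (hμ : ∀ x, μ {x} = 0) :
    PerfectSets (NullSets μ) := by
  obtain ⟨Q, hQ, hN⟩ := Psl27.psl μ hμ
  exact ⟨∅, Q, by simp [NullSets], fun y _ h => hQ y h, fun N hN' => hN N hN'⟩

/-- The pair `(≠*, I)`: perfect sets, `𝔡 < 𝔠`, and `𝔟(≠*) = 𝔟(∈*)` or `2^𝔟(≠*) ≤ 𝔠`. -/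
theorem ne_pair {I : Set (Set (ℕ → ℕ))} (hI : Idl I) (hP : PerfectSets I) (hd : dnum < 𝔠)
    (h1 : bnum NeStar = bnum InStar ∨ ((2 : Cardinal.{0}) ^ bnum NeStar ≤ 𝔠 ∧
      ((bnum NeStar).IsRegular ∨ (𝔠 : Cardinal.{0}).IsRegular)))
    (h : 𝔠 < bnumMod NeStar I) : ∃ 𝓧, IsRothberger 𝔠 (bnum NeStar) I 𝓧 := by
  obtain ⟨D, hD, hD'⟩ := exists_dom
  rcases h1 with h1 | ⟨h1, h2⟩
  · have hG := goodRel_neStar h1
    exact fibre_trick hI hP h (spread_of_luz (luz_of_good hG) (isRegular_bnum hG))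
      (isRegular_bnum hG) bnum_le_c hD (hD' ▸ hd)
  · obtain ⟨A, hA, hA'⟩ := exists_unb
    have hS : Spread NeStar (bnum NeStar) := by
      rw [← hA']
      refine spread_of_power hA ?_ ?_
      · rw [hA']
        exact (aleph0_pos.trans_le aleph0_le).ne'
      · rw [hA']
        exact h1
    rcases h2 with h2 | h2
    · exact fibre_trick hI hP h hS h2 bnum_le_c hD (hD' ▸ hd)
    · exact fibre_regular hI hP h hS aleph0_le bnum_le_c h2 hD (hD' ▸ hd)

/-- The pair `(≠*, 𝒦)`. -/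
theorem ne_K (h1 : bnum LeStar = 𝔠 ∨ (2 : Cardinal.{0}) ^ bnum LeStar ≤ 𝔠 ∨
      ∀ 𝓐 ⊆ MeagerSets, #𝓐 ≤ bnum LeStar → ⋃₀ 𝓐 ≠ Set.univ)
    (h : 𝔠 < bnumMod NeStar KSets) : ∃ 𝓧, IsRothberger 𝔠 (bnum NeStar) KSets 𝓧 := by
  obtain ⟨A, hA, hA'⟩ := ex_unb_le
  rcases h1 with h1 | h1 | h1
  · have h2 : bnum NeStar = 𝔠 := le_antisymm bnum_le_c (h1 ▸ bnum_le_ne)
    rw [h2]
    exact rothberger_of_small fun C hC => mem_KSets_iff.2 (bounded_of_lt (R := LeStar) (h1 ▸ hC))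
  · exact absurd (mem_KSets_iff.1
      (small_of_lt (idl_of_good goodIdl_K) hu_ne h (Y := A) (by rw [hA']; exact h1))) hA
  · obtain ⟨g, hg⟩ := boundedMod_of_le h (J := ℕ → ℕ) mk_NN.le fun f _ => f
    refine absurd ?_ (h1 ((fun y => {f : ℕ → ℕ | NeStar f (g y)}) '' A) ?_
      (mk_image_le.trans hA'.le))
    · rw [eq_univ_iff_forall]
      intro f
      by_contra hcon
      refine hA (mem_KSets_iff.1 (goodIdl_K.sub _ (hg f) _ fun y hy => ?_))
      exact fun hno => hcon (mem_sUnion.2 ⟨_, ⟨y, hy, rfl⟩, hno⟩)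
    · rintro _ ⟨y, -, rfl⟩
      exact meager_ne _

/-- `(≠*, I)` for meager sets, under `2^κ ≤ 𝔠` for all `κ < 𝔠`. -/
theorem ne_small {I : Set (Set (ℕ → ℕ))} (hI : Idl I) (hIM : I ⊆ MeagerSets)
    (h2 : ∀ κ < (𝔠 : Cardinal.{0}), (2 : Cardinal.{0}) ^ κ ≤ 𝔠) (h : 𝔠 < bnumMod NeStar I) :
    ∃ 𝓧, IsRothberger 𝔠 (bnum NeStar) I 𝓧 := by
  have hsm : ∀ A : Set (ℕ → ℕ), #A < 𝔠 → A ∈ I := fun A hA => small_of_lt hI hu_ne h (h2 _ hA)
  rcases bnum_le_c.eq_or_lt with heq | hlt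
  · rw [heq]
    exact rothberger_of_small hsm
  · obtain ⟨A, hA, hA'⟩ := exists_nonmeager
    exact absurd (hIM (hsm A (hA'.trans_lt hlt))) hA

/-- Q1 for the pair `(R, I)`: if `𝔟(R_I) > 𝔠`, there is a `(𝔠, 𝔟(R))`-Rothberger family for `I`. -/
def QOne {B : Type} (R : (ℕ → ℕ) → B → Prop) (I : Set (Set (ℕ → ℕ))) : Prop :=
  𝔠 < bnumMod R I → ∃ 𝓧, IsRothberger 𝔠 (bnum R) I 𝓧

/-- There are `c_α` (`α ∈ ω^ω`) such that every `b` bounds at most `𝔟(R)` of them. -/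
def Thin {B : Type} (R : (ℕ → ℕ) → B → Prop) : Prop :=
  ∃ c : (ℕ → ℕ) → (ℕ → ℕ), ∀ b : B, #{α | R (c α) b} ≤ bnum R

theorem qOne_of_thin {B : Type} {R : (ℕ → ℕ) → B → Prop} (hR : GoodRel R) (hT : Thin R)
    {I : Set (Set (ℕ → ℕ))} (hI : Idl I) : QOne R I := by
  intro h
  obtain ⟨c, hc⟩ := hT
  obtain ⟨g, hg⟩ := boundedMod_of_le h (J := ℕ → ℕ) mk_NN.le fun α _ => c α
  refine second_round hI (luz_of_good hR) (isRegular_bnum hR) (bnum_le hR) h mk_NN _ hg fun y =>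
    (mk_le_mk_of_subset fun α hα => ?_).trans (hc (g y))
  exact not_not.1 hα

/-- All three relations, for every ideal, if `𝔠 ≤ 𝔟(∈*)⁺`. -/
theorem three {I : Set (Set (ℕ → ℕ))} (hI : Idl I)
    (h2 : ∀ κ < (𝔠 : Cardinal.{0}), (2 : Cardinal.{0}) ^ κ ≤ 𝔠)
    (hc : (𝔠 : Cardinal.{0}) ≤ succ (bnum InStar)) :
    QOne LeStar I ∧ QOne NeStar I ∧ QOne InStar I := by
  refine ⟨of_le_succ hI hu_le (bnum_le goodRel_leStar)
      (fun _ => ⟨luz_of_good goodRel_leStar, isRegular_bnum goodRel_leStar⟩) h2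
      (hc.trans (succ_le_succ bnum_in_le)),
    of_le_succ hI hu_ne bnum_le_c (fun hlt => ?_) h2
      (hc.trans (succ_le_succ (bnum_in_le.trans bnum_le_ne))),
    of_le_succ hI hu_in (bnum_le goodRel_inStar)
      (fun _ => ⟨luz_of_good goodRel_inStar, isRegular_bnum goodRel_inStar⟩) h2 hc⟩
  have h1 : bnum NeStar = bnum InStar :=
    le_antisymm (lt_succ_iff.1 (hlt.trans_le hc)) (bnum_in_le.trans bnum_le_ne)
  exact ⟨luz_of_good (goodRel_neStar h1), isRegular_bnum (goodRel_neStar h1)⟩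

/-- All nine pairs. -/
theorem nine (μ : Measure (ℕ → ℕ)) [IsProbabilityMeasure μ] (hμ : ∀ x, μ {x} = 0)
    (h2 : ∀ κ < (𝔠 : Cardinal.{0}), (2 : Cardinal.{0}) ^ κ ≤ 𝔠)
    (hd : dnum < 𝔠 ∨ (𝔠 : Cardinal.{0}) ≤ succ (bnum InStar)) (I : Set (Set (ℕ → ℕ)))
    (hI : I = KSets ∨ I = MeagerSets ∨ I = NullSets μ) :
    QOne LeStar I ∧ QOne NeStar I ∧ QOne InStar I := by
  have hgood : GoodIdl I := by
    rcases hI with rfl | rfl | rfl
    exacts [goodIdl_K, goodIdl_meager, goodIdl_null μ hμ]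
  have hI' := idl_of_good hgood
  rcases hd with hd | hc
  · have h1 : ∀ x b, LeStar x b → LeStar x ((id : (ℕ → ℕ) → ℕ → ℕ) b) := fun _ _ h => h
    have h2' : ∀ x (s : Slalom), InStar x s → LeStar x ((fun s k => (s.1 k).sup id) s) :=
      fun x s h => h.mono fun k hk => Finset.le_sup (f := id) hk
    rcases hI with rfl | rfl | rfl
    · exact ⟨exists_rothberger goodRel_leStar goodIdl_K (comp_K id h1),
        ne_small hI' (fun _ => sub_meager) h2,
        exists_rothberger goodRel_inStar goodIdl_K (comp_K _ h2')⟩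
    · exact ⟨exists_rothberger goodRel_leStar goodIdl_meager (comp_meager id h1),
        ne_small hI' subset_rfl h2,
        exists_rothberger goodRel_inStar goodIdl_meager (comp_meager _ h2')⟩
    · have hP := perfectSets_null μ hμ
      refine ⟨le_pair hI' hP (Or.inl hd), fun h => ?_,
        exists_rothberger goodRel_inStar (goodIdl_null μ hμ) (comp_null μ)⟩
      obtain ⟨D, hD, hD'⟩ := exists_dom
      exact of_power hI' hP hu_ne aleph0_le bnum_le_c h2 (isRegular_continuum h2) exists_unb hD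
        (hD' ▸ hd) h
  · exact three hI' h2 hc

end Pool.Agent.Lib.MP_0b3fe5_lc.Roth73
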