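import Pool.Agent.Lib.MP_0b3fe5_lc.Onto90
import Pool.Agent.Lib.MP_0b3fe5_lc.Cantor90

/-!
# The pair `(≠*, ℳ)`
-/

open Cardinal Set Filter Order

namespace Pool.Agent.Lib.MP_0b3fe5_lc.NonM90

open Pool.Agent.Lib.MP_0b3fe5_lc Pool.Agent.Lib.MP_0b3fe5_lc.Cantor90

/-- `x ≠* y`. -/
def NeStar (x y : ℕ → ℕ) : Prop := ∀ᶠ k in atTop, x k ≠ y k

theorem unb : ¬ Bounded NeStar Set.univ := by
  rintro ⟨b, hb⟩
  obtain ⟨k, hk⟩ := (hb b (mem_univ _)).exists
  exact hk rfl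

theorem finite_bounded {A : Set (ℕ → ℕ)} (hA : A.Finite) : Bounded NeStar A := by
  classical
  have h : ∀ k, ∃ m, m ∉ hA.toFinset.image fun a => a k := fun k =>
    Infinite.exists_notMem_finset _
  choose b hb using h
  exact ⟨b, fun a ha => Eventually.of_forall fun k hk =>
    hb k (Finset.mem_image.2 ⟨a, hA.mem_toFinset.2 ha, hk⟩)⟩

theorem exists_unb : ∃ A : Set (ℕ → ℕ), ¬ Bounded NeStar A ∧ #A = bnum NeStar :=
  csInf_mem (s := {κ | ∃ A : Set (ℕ → ℕ), ¬ Bounded NeStar A ∧ #A = κ}) ⟨_, Set.univ, unb, rfl⟩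

theorem bnum_le_c : bnum NeStar ≤ 𝔠 := by
  obtain ⟨A, -, hA⟩ := exists_unb
  rw [← hA, ← mk_NN]
  exact mk_set_le A

theorem aleph0_le : ℵ₀ ≤ bnum NeStar := by
  obtain ⟨A, hA, hA'⟩ := exists_unb
  rw [← hA']
  by_contra hcon
  push Not at hcon
  exact hA (finite_bounded (lt_aleph0_iff_set_finite.1 hcon))

theorem boundedMod_of_lt {I : Set (Set (ℕ → ℕ))} {κ : Cardinal.{0}} (h : κ < bnumMod NeStar I)
    {J : Type} (hJ : #J ≤ κ) (F : J → (ℕ → ℕ) → (ℕ → ℕ)) :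
    ∃ g : (ℕ → ℕ) → (ℕ → ℕ), ∀ j, {x | ¬ NeStar (F j x) (g x)} ∈ I := by
  have h1 : #(range F) < bnumMod NeStar I := (mk_range_le.trans hJ).trans_lt h
  have h2 : BoundedMod NeStar I (range F) := by
    by_contra hcon
    exact notMem_of_lt_csInf' h1 ⟨_, hcon, rfl⟩
  obtain ⟨g, hg⟩ := h2
  exact ⟨g, fun j => hg _ ⟨j, rfl⟩⟩

/-- Some family of `μ⁺` functions is unbounded modulo meager sets. -/
theorem bnumMod_le {I : Set (Set (ℕ → ℕ))} (hI : I ⊆ MeagerSets) {μ : Cardinal.{0}}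
    (hμ : μ.IsRegular) (h1 : bnum NeStar ≤ μ) (h2 : μ < 𝔠) : bnumMod NeStar I ≤ succ μ := by
  classical
  by_contra h
  push Not at h
  obtain ⟨F, hF, hF'⟩ := exists_unb
  obtain ⟨f, hf⟩ := Onto90.exists_onto hμ
  have hne : Nonempty F := by
    rw [← mk_ne_zero_iff, hF']
    exact (aleph0_pos.trans_le aleph0_le).ne'
  have h3 : #F ≤ #μ.ord.ToType := by rw [hF', mk_ord_toType]; exact h1
  obtain ⟨i⟩ := h3
  obtain ⟨a, ha⟩ : ∃ a : μ.ord.ToType → F, Function.Surjective a :=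
    ⟨Function.invFun i, Function.invFun_surjective i.injective⟩
  have hT : #(succ μ).ord.ToType ≤ 𝔠 := by
    rw [mk_ord_toType]
    exact succ_le_of_lt h2
  have hFc : #F ≤ 𝔠 := by rw [hF']; exact bnum_le_c
  have hFio : ∀ g : ℕ → ℕ, ∃ f ∈ F, ∃ᶠ n in atTop, f n = g n := by
    intro g
    by_contra hcon
    push Not at hcon
    refine hF ⟨g, fun a ha => ?_⟩
    exact hcon a ha
  -- the points
  have hJ : #(F × F × ((succ μ).ord.ToType × (succ μ).ord.ToType)) ≤ 𝔠 := by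
    simp only [mk_prod, lift_id]
    refine (mul_le_mul' hFc (mul_le_mul' hFc (mul_le_mul' hT hT))).trans ?_
    rw [continuum_mul_self, continuum_mul_self, continuum_mul_self]
  obtain ⟨x, hx, hx'⟩ := exists_sdr
    (J := F × F × ((succ μ).ord.ToType × (succ μ).ord.ToType))
    (fun p => range (xx p.1 p.2.1)) hJ fun p => by
      rw [mk_range_eq _ (xx_injective _ _)]
      simp
  let G : (succ μ).ord.ToType → (ℕ → ℕ) → (ℕ → ℕ) := fun α z =>
    if h : ∃ p, x p = z then (a (f (Classical.choose h).2.2 α)).1 else 0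
  have hG : ∀ α p, G α (x p) = (a (f p.2.2 α)).1 := by
    intro α p
    have hex : ∃ q, x q = x p := ⟨p, rfl⟩
    show (if h : ∃ q, x q = x p then (a (f (Classical.choose h).2.2 α)).1 else 0) = _
    rw [dif_pos hex, hx (Classical.choose_spec hex)]
  obtain ⟨g, hg⟩ := boundedMod_of_lt h (J := (succ μ).ord.ToType) (mk_ord_toType _).le G
  have h4 : ∀ α, ∃ p : F × F, ∀ r, xx p.1 p.2 r ∉ {z | ¬ NeStar (G α z) (g z)} := by
    intro α
    obtain ⟨f₁, hf₁, f₂, hf₂, h5⟩ := main hFio (show IsMeagre _ from hI (hg α))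
    exact ⟨(⟨f₁, hf₁⟩, ⟨f₂, hf₂⟩), h5⟩
  choose p hp using h4
  -- many `α` with the same Cantor set
  obtain ⟨p₀, hp₀⟩ := infinite_pigeonhole_card p (succ μ) (by rw [mk_ord_toType])
    (hμ.aleph0_le.trans (le_succ μ)) (by
      rw [(isRegular_succ hμ.aleph0_le).cof_ord]
      simp only [mk_prod, lift_id, hF']
      exact lt_succ_of_le ((mul_le_mul' h1 h1).trans (mul_eq_self hμ.aleph0_le).le))
  have h5 : #(p ⁻¹' {p₀}) = succ μ := by
    refine le_antisymm ?_ hp₀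
    exact (mk_set_le _).trans (mk_ord_toType _).le
  obtain ⟨b, hb⟩ := hf _ h5
  let z := x (p₀.1, p₀.2, b)
  obtain ⟨r, hr⟩ := hx' (p₀.1, p₀.2, b)
  refine hF ⟨g z, fun v hv => ?_⟩
  obtain ⟨j, hj⟩ := ha ⟨v, hv⟩
  obtain ⟨α, hα, hα'⟩ := hb j
  by_contra hno
  have h6 := hp α r
  rw [show p α = p₀ from hα] at h6
  refine h6 ?_
  rw [show xx p₀.1 p₀.2 r = z from hr]
  show ¬ NeStar (G α z) (g z)
  rw [hG, show f (p₀.1, p₀.2, b).2.2 α = j from hα', hj]
  exact hno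

theorem meager_of_lt {A : Set (ℕ → ℕ)} (h : #A < bnum NeStar) : IsMeagre A := by
  have h1 : Bounded NeStar A := by
    by_contra hcon
    exact notMem_of_lt_csInf' h ⟨A, hcon, rfl⟩
  obtain ⟨b, hb⟩ := h1
  have h2 : (⋂ N : ℕ, {y : ℕ → ℕ | ∃ n ≥ N, y n = b n}) ∈ residual (ℕ → ℕ) := by
    rw [countable_iInter_mem]
    intro N
    refine residual_of_dense_open ?_ (dense_dep fun y n => ?_)
    · have h3 : {y : ℕ → ℕ | ∃ n ≥ N, y n = b n} = ⋃ n ≥ N, {y | y n = b n} := by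
        ext y
        simp
      rw [h3]
      exact isOpen_biUnion fun n _ => isOpen_dep (n + 1) fun y y' h hc => by
        rw [h n (Nat.lt_succ_self n)]
        exact hc
    · refine ⟨Function.update y (max N n) (b (max N n)), ⟨max N n, le_max_left _ _, by simp⟩,
        fun i hi => ?_⟩
      rw [Function.update_of_ne (hi.trans_le (le_max_right _ _)).ne]
  show Aᶜ ∈ residual (ℕ → ℕ)
  refine mem_of_superset h2 fun y hy hyA => ?_
  obtain ⟨N, hN⟩ := eventually_atTop.1 (hb y hyA)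
  obtain ⟨n, hn, hn'⟩ := mem_iInter.1 hy N
  exact hN n hn hn'

/-- If all sets of size less than continuum belong to `I`, there is a `(𝔠, 𝔠)`-Rothberger
family. -/
theorem rothberger_of_small {I : Set (Set (ℕ → ℕ))} (hI : ∀ A : Set (ℕ → ℕ), #A < 𝔠 → A ∈ I) :
    ∃ 𝓧, IsRothberger 𝔠 𝔠 I 𝓧 := by
  have h1 : #(𝔠 : Cardinal.{0}).ord.ToType = #(ℕ → ℕ) := by rw [mk_ord_toType, mk_NN]
  obtain ⟨e⟩ := Cardinal.eq.1 h1
  let X : (𝔠 : Cardinal.{0}).ord.ToType → Set (ℕ → ℕ) := fun i => e '' Iio i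
  have hX : Function.Injective X := by
    intro i j hij
    have h2 : Iio i = Iio j := e.injective.image_injective hij
    rcases lt_trichotomy i j with h3 | h3 | h3
    · exact absurd (h2 ▸ h3 : i ∈ Iio i) (lt_irrefl i)
    · exact h3
    · exact absurd (h2.symm ▸ h3 : j ∈ Iio j) (lt_irrefl j)
  refine ⟨range X, ?_, ?_, fun 𝓨 h𝓨 hcard => ?_⟩
  · rintro _ ⟨i, rfl⟩
    exact hI _ (mk_image_le.trans_lt (mk_Iio_toType_ord_lt i))
  · rw [mk_range_eq X hX, mk_ord_toType]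
  · have h2 : #(X ⁻¹' 𝓨) = 𝔠 := by
      refine Eq.trans (le_antisymm ?_ ?_ : #(X ⁻¹' 𝓨) = #𝓨) hcard
      · exact mk_le_of_injective (f := fun i : X ⁻¹' 𝓨 => (⟨X i.1, i.2⟩ : 𝓨)) fun i j hij =>
          Subtype.ext (hX (congrArg Subtype.val hij))
      · have h3 : 𝓨 ⊆ X '' (X ⁻¹' 𝓨) := fun Y hY => by
          obtain ⟨i, rfl⟩ := h𝓨 hY
          exact ⟨i, hY, rfl⟩
        exact (mk_le_mk_of_subset h3).trans mk_image_le
    have h3 := isCofinal_of_mk h2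
    rw [eq_univ_iff_forall]
    intro y
    have hlim : ∃ j, e.symm y < j := by
      by_contra hcon
      push Not at hcon
      have h4 : (Set.univ : Set (𝔠 : Cardinal.{0}).ord.ToType) ⊆ Iio (e.symm y) ∪ {e.symm y} :=
        fun j _ => (hcon j).lt_or_eq
      have h5 := (mk_le_mk_of_subset h4).trans (mk_union_le _ _)
      rw [mk_univ, mk_ord_toType] at h5
      refine absurd h5 (not_le.2 (add_lt_of_lt aleph0_le_continuum (mk_Iio_toType_ord_lt _) ?_))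
      rw [mk_singleton]
      exact one_lt_aleph0.trans_le aleph0_le_continuum
    obtain ⟨j, hj⟩ := hlim
    obtain ⟨i, hi, hji⟩ := h3 j
    exact mem_sUnion.2 ⟨X i, hi, e.symm y, hj.trans_le hji, by simp⟩

theorem bnum_eq {I : Set (Set (ℕ → ℕ))} (hI : I ⊆ MeagerSets) (h : 𝔠 < bnumMod NeStar I)
    (hs : (bnum NeStar).IsRegular ∨ 𝔠 ≠ succ (bnum NeStar)) : bnum NeStar = 𝔠 := by
  by_contra hcon
  have h1 : bnum NeStar < 𝔠 := lt_of_le_of_ne bnum_le_c hcon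
  rcases hs with hs | hs
  · exact absurd h (not_lt.2 ((bnumMod_le hI hs le_rfl h1).trans (succ_le_of_lt h1)))
  · have h2 : succ (bnum NeStar) < 𝔠 := lt_of_le_of_ne (succ_le_of_lt h1) hs.symm
    exact absurd h (not_lt.2 ((bnumMod_le hI (isRegular_succ aleph0_le) (le_succ _) h2).trans
      (succ_le_of_lt h2)))

theorem result_M (h : 𝔠 < bnumMod NeStar MeagerSets)
    (hs : (bnum NeStar).IsRegular ∨ 𝔠 ≠ succ (bnum NeStar)) :
    ∃ 𝓧, IsRothberger 𝔠 (bnum NeStar) MeagerSets 𝓧 := by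
  have h1 := bnum_eq subset_rfl h hs
  rw [h1]
  exact rothberger_of_small fun A hA => meager_of_lt (h1 ▸ hA)

end Pool.Agent.Lib.MP_0b3fe5_lc.NonM90
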