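import Mathlib

/-!
# A colouring lemma

For an infinite regular cardinal `μ` there is a family of `μ⁺` functions from a set `T` of size
`μ⁺` to a set `M` of size `μ` such that every `Γ ⊆ T` of size `μ⁺` is mapped onto `M` by one of
them.
-/

open Cardinal Set Order

namespace Pool.Agent.Lib.MP_0b3fe5_lc.Onto90

section

variable {T M : Type} [LinearOrder T] [WellFoundedLT T] [LinearOrder M] [WellFoundedLT M]
  {μ : Cardinal.{0}}

/-- unbounded sets -/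
def Unb (S : Set T) : Prop := ∀ x, ∃ y ∈ S, x < y

/-- stationary sets, by closure points of functions -/
def Stat (S : Set T) : Prop := ∀ (x₀ : T) (F : T → T), ∃ δ ∈ S, x₀ < δ ∧ ∀ x < δ, F x < δ

/-- What is used about `T = μ⁺` and `M = μ`. -/
structure Ctx (T M : Type) [LinearOrder T] [WellFoundedLT T] [LinearOrder M] [WellFoundedLT M]
    (μ : Cardinal.{0}) : Prop where
  inf : ℵ₀ ≤ μ
  hM : #M = μ
  ub : ∀ A : Set T, #A ≤ μ → ∃ b, ∀ a ∈ A, a < b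
  seg : ∀ b : T, #(Iio b) ≤ μ
  ubM : ∀ A : Set M, #A < μ → ∃ b, ∀ a ∈ A, a < b
  segM : ∀ b : M, #(Iio b) < μ

theorem Ctx.ubf (h : Ctx T M μ) {I : Type} (hI : #I ≤ μ) (f : I → T) : ∃ b, ∀ i, f i < b := by
  obtain ⟨b, hb⟩ := h.ub (range f) (mk_range_le.trans hI)
  exact ⟨b, fun i => hb _ ⟨i, rfl⟩⟩

theorem Ctx.pigeon (h : Ctx T M μ) {S : Set T} (hS : Unb S) (c : T → M) :
    ∃ i, Unb {x ∈ S | c x = i} := by
  by_contra hcon
  simp only [Unb] at hcon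
  push Not at hcon
  choose x hx using hcon
  obtain ⟨b, hb⟩ := h.ubf h.hM.le x
  obtain ⟨y, hy, hby⟩ := hS b
  exact absurd (hx (c y) y ⟨hy, rfl⟩) (not_le.2 ((hb _).trans hby))

theorem Ctx.stat_color (h : Ctx T M μ) {S : Set T} (hS : Stat S) (c : T → M) :
    ∃ i, Stat {x ∈ S | c x = i} := by
  by_contra hcon
  simp only [Stat] at hcon
  push Not at hcon
  choose x F hF using hcon
  obtain ⟨b, hb⟩ := h.ubf h.hM.le x
  have h1 : ∀ y : T, ∃ b, ∀ i, F i y < b := fun y => h.ubf h.hM.le fun i => F i y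
  choose G hG using h1
  obtain ⟨δ, hδ, h2, h3⟩ := hS b G
  obtain ⟨y, hy, hy'⟩ := hF (c δ) δ ⟨hδ, rfl⟩ ((hb _).trans h2)
  exact absurd ((hG y _).trans (h3 y hy)) (not_lt.2 hy')

theorem Ctx.fodor (h : Ctx T M μ) {S : Set T} (hS : Stat S) (g : T → T)
    (hg : ∀ δ ∈ S, g δ < δ) : ∃ ν, Stat {x ∈ S | g x = ν} := by
  by_contra hcon
  simp only [Stat] at hcon
  push Not at hcon
  choose x F hF using hcon
  have hseg : ∀ y : T, #(Iic y) ≤ μ := by
    intro y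
    have h2 : (Iic y : Set T) = Iio y ∪ {y} := by
      ext z
      simp [le_iff_lt_or_eq]
    rw [h2]
    refine (mk_union_le _ _).trans (add_le_of_le h.inf (h.seg y) ?_)
    rw [mk_singleton]
    exact one_le_aleph0.trans h.inf
  have h1 : ∀ y : T, ∃ b, (∀ ν ≤ y, x ν < b) ∧ ∀ ν ≤ y, ∀ z ≤ y, F ν z < b := by
    intro y
    obtain ⟨b₁, hb₁⟩ := h.ubf (hseg y) fun ν : Iic y => x ν
    have h3 : #(Iic y × Iic y) ≤ μ := by
      simp only [mk_prod, lift_id]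
      exact (mul_le_mul' (hseg y) (hseg y)).trans (mul_eq_self h.inf).le
    obtain ⟨b₂, hb₂⟩ := h.ubf h3 fun p : Iic y × Iic y => F p.1 p.2
    refine ⟨max b₁ b₂, fun ν hν => (hb₁ ⟨ν, hν⟩).trans_le (le_max_left _ _), fun ν hν z hz => ?_⟩
    exact (hb₂ (⟨ν, hν⟩, ⟨z, hz⟩)).trans_le (le_max_right _ _)
  choose G hG1 hG2 using h1
  obtain ⟨b, hb⟩ := h.ub ∅ (by simp)
  obtain ⟨δ, hδ, h2, h3⟩ := hS b G
  have h4 := hg δ hδ
  have h5 : x (g δ) < δ := (hG1 (g δ) (g δ) le_rfl).trans (h3 _ h4)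
  obtain ⟨y, hy, hy'⟩ := hF (g δ) δ ⟨hδ, rfl⟩ h5
  refine absurd ?_ (not_lt.2 hy')
  exact (hG2 (max (g δ) y) (g δ) (le_max_left _ _) y (le_max_right _ _)).trans
    (h3 _ (max_lt h4 hy))

theorem Stat.unb {S : Set T} (hS : Stat S) : Unb S := fun x => by
  obtain ⟨δ, h1, h2, -⟩ := hS x id
  exact ⟨δ, h1, h2⟩

theorem Stat.mono {S S' : Set T} (hS : Stat S) (h : S ⊆ S') : Stat S' := fun x F => by
  obtain ⟨δ, h1, h2⟩ := hS x F
  exact ⟨δ, h h1, h2⟩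

theorem Ctx.lt_mk (h : Ctx T M μ) {S : Set T} (hS : Unb S) : μ < #S := by
  by_contra hcon
  push Not at hcon
  obtain ⟨b, hb⟩ := h.ub S hcon
  obtain ⟨y, hy, hby⟩ := hS b
  exact absurd (hb y hy) hby.asymm

theorem Ctx.noMax (h : Ctx T M μ) (i : M) : ∃ j, i < j := by
  obtain ⟨b, hb⟩ := h.ubM {i} (by rw [mk_singleton]; exact one_lt_aleph0.trans_le h.inf)
  exact ⟨b, hb i rfl⟩

/-- the points of cofinality `μ` -/
def EE (T : Type) [LinearOrder T] (μ : Cardinal.{0}) : Set T :=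
  {δ | ∀ A : Set T, A ⊆ Iio δ → #A < μ → ∃ ν < δ, ∀ η ∈ A, η ≤ ν}

theorem Ctx.stat_EE (h : Ctx T M μ) : Stat (EE T μ) := by
  classical
  intro x₀ F
  have hseg : ∀ y : T, #(Iic y) ≤ μ := by
    intro y
    have h2 : (Iic y : Set T) = Iio y ∪ {y} := by
      ext z
      simp [le_iff_lt_or_eq]
    rw [h2]
    refine (mk_union_le _ _).trans (add_le_of_le h.inf (h.seg y) ?_)
    rw [mk_singleton]
    exact one_le_aleph0.trans h.inf
  have h1 : ∀ y : T, ∃ b, y < b ∧ ∀ z ≤ y, F z < b := by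
    intro y
    obtain ⟨b₁, hb₁⟩ := h.ubf (hseg y) fun ν : Iic y => F ν
    obtain ⟨b₂, hb₂⟩ := h.ubf (hseg y) fun ν : Iic y => ν.1
    exact ⟨max b₁ b₂, (hb₂ ⟨y, le_rfl⟩).trans_le (le_max_right _ _),
      fun z hz => (hb₁ ⟨z, hz⟩).trans_le (le_max_left _ _)⟩
  choose G hG1 hG2 using h1
  have h2 : ∀ (i : M) (g : ∀ j, j < i → T), ∃ b, x₀ < b ∧ ∀ j hj, G (g j hj) < b := by
    intro i g
    obtain ⟨b, hb⟩ := h.ubf (h.segM i).le fun j : Iio i => G (g j.1 j.2)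
    exact ⟨max b (G x₀), (hG1 _).trans_le (le_max_right _ _),
      fun j hj => (hb ⟨j, hj⟩).trans_le (le_max_left _ _)⟩
  choose nx hnx1 hnx2 using h2
  let x : M → T := (wellFounded_lt : WellFounded ((· < ·) : M → M → Prop)).fix nx
  have hx : ∀ i, x i = nx i fun j _ => x j := fun i =>
    (wellFounded_lt : WellFounded ((· < ·) : M → M → Prop)).fix_eq nx i
  have hx1 : ∀ i, x₀ < x i := fun i => by
    rw [hx]
    exact hnx1 _ _
  have hx2 : ∀ i j, j < i → G (x j) < x i := fun i j hj => by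
    rw [hx i]
    exact hnx2 i (fun j _ => x j) j hj
  obtain ⟨b, hb⟩ := h.ubf h.hM.le x
  have hex : ∃ d, ∀ i, x i < d := ⟨b, hb⟩
  let δ : T := (wellFounded_lt : WellFounded ((· < ·) : T → T → Prop)).min {d | ∀ i, x i < d} hex
  have hδ : ∀ i, x i < δ :=
    (wellFounded_lt : WellFounded ((· < ·) : T → T → Prop)).min_mem {d | ∀ i, x i < d} hex
  have hδ' : ∀ y < δ, ∃ i, y ≤ x i := by
    intro y hy
    by_contra hcon
    push Not at hcon
    exact (wellFounded_lt : WellFounded ((· < ·) : T → T → Prop)).not_lt_min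
      {d | ∀ i, x i < d} (show y ∈ {d | ∀ i, x i < d} from hcon) hy
  have hne : Nonempty M := by
    rw [← mk_ne_zero_iff, h.hM]
    exact (aleph0_pos.trans_le h.inf).ne'
  obtain ⟨i₀⟩ := hne
  refine ⟨δ, fun A hA hA' => ?_, (hx1 i₀).trans (hδ i₀), fun y hy => ?_⟩
  · have h3 : ∀ η : A, ∃ i, η.1 ≤ x i := fun η => hδ' _ (hA η.2)
    choose i hi using h3
    obtain ⟨j, hj⟩ := h.ubM (range i) (mk_range_le.trans_lt hA')
    refine ⟨x j, hδ j, fun η hη => (hi ⟨η, hη⟩).trans ?_⟩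
    exact ((hG1 _).trans (hx2 _ _ (hj _ ⟨_, rfl⟩))).le
  · obtain ⟨i, hi⟩ := hδ' y hy
    obtain ⟨j, hj⟩ := h.noMax i
    exact ((hG2 _ _ hi).trans (hx2 _ _ hj)).trans (hδ j)

theorem Ctx.exists_inj (h : Ctx T M μ) : ∃ e : T → T → M, ∀ b, InjOn (e b) (Iio b) := by
  classical
  have h1 : ∀ b : T, ∃ f : T → M, InjOn f (Iio b) := by
    intro b
    have h2 : #(Iio b) ≤ #M := (h.seg b).trans h.hM.ge
    obtain ⟨f⟩ := h2
    have hne : Nonempty M := by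
      rw [← mk_ne_zero_iff, h.hM]
      exact (aleph0_pos.trans_le h.inf).ne'
    refine ⟨fun x => if hx : x < b then f ⟨x, hx⟩ else Classical.arbitrary M, ?_⟩
    intro x hx y hy hxy
    dsimp only at hxy
    rw [dif_pos (show x < b from hx), dif_pos (show y < b from hy)] at hxy
    exact congrArg Subtype.val (f.injective hxy)
  choose e he using h1
  exact ⟨e, he⟩

/-- a colouring with stationary colour classes of cofinality `μ` -/
theorem Ctx.exists_col (h : Ctx T M μ) {e : T → T → M} (he : ∀ b, InjOn (e b) (Iio b)) :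
    ∃ col : T → M, ∀ j, Stat {δ ∈ EE T μ | col δ = j} := by
  classical
  have h1 : ∀ ξ : T, ∃ τ : M, Stat {δ | δ ∈ EE T μ ∧ ξ < δ ∧ e δ ξ = τ} := by
    intro ξ
    have h2 : Stat {δ | δ ∈ EE T μ ∧ ξ < δ} := by
      intro x F
      obtain ⟨δ, h3, h4, h5⟩ := h.stat_EE (max x ξ) F
      exact ⟨δ, ⟨h3, (le_max_right _ _).trans_lt h4⟩, (le_max_left _ _).trans_lt h4, h5⟩
    obtain ⟨τ, hτ⟩ := h.stat_color h2 fun δ => e δ ξ
    exact ⟨τ, hτ.mono fun δ hδ => ⟨hδ.1.1, hδ.1.2, hδ.2⟩⟩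
  choose τ hτ using h1
  obtain ⟨t, ht⟩ := h.pigeon (S := Set.univ) (fun x => by
    obtain ⟨b, hb⟩ := h.ub {x} (by rw [mk_singleton]; exact one_le_aleph0.trans h.inf)
    exact ⟨b, mem_univ _, hb x rfl⟩) τ
  have h3 : #M ≤ #({x | x ∈ Set.univ ∧ τ x = t} : Set T) := by
    rw [h.hM]
    exact (h.lt_mk ht).le
  obtain ⟨k⟩ := h3
  have hne : Nonempty M := by
    rw [← mk_ne_zero_iff, h.hM]
    exact (aleph0_pos.trans_le h.inf).ne'
  let col : T → M := fun δ => if hj : ∃ j, (k j).1 < δ ∧ e δ (k j).1 = t then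
    Classical.choose hj else Classical.arbitrary M
  refine ⟨col, fun j => (hτ (k j).1).mono fun δ hδ => ⟨hδ.1, ?_⟩⟩
  obtain ⟨-, h4, h5⟩ := hδ
  rw [(k j).2.2] at h5
  have hj : ∃ j, (k j).1 < δ ∧ e δ (k j).1 = t := ⟨j, h4, h5⟩
  show (if hj : ∃ j, (k j).1 < δ ∧ e δ (k j).1 = t then
    Classical.choose hj else Classical.arbitrary M) = j
  rw [dif_pos hj]
  have h6 := Classical.choose_spec hj
  have h7 := he δ h6.1 h4 (h6.2.trans h5.symm)
  exact k.injective (Subtype.ext h7)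

/-- Ulam: for some `ξ` the values of `e_α(ξ)` that are taken unboundedly often are unbounded. -/
theorem Ctx.exists_xi (h : Ctx T M μ) {e : T → T → M} (he : ∀ b, InjOn (e b) (Iio b))
    {Γ : Set T} (hΓ : Unb Γ) : ∃ ξ, ∀ i : M, ∃ t, i < t ∧ Unb {α | α ∈ Γ ∧ e α ξ = t} := by
  classical
  by_contra hcon
  push Not at hcon
  choose i hi using hcon
  obtain ⟨j, hj⟩ := h.pigeon (S := Set.univ) (fun x => by
    obtain ⟨b, hb⟩ := h.ub {x} (by rw [mk_singleton]; exact one_le_aleph0.trans h.inf)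
    exact ⟨b, mem_univ _, hb x rfl⟩) i
  have h3 : #M ≤ #({x | x ∈ Set.univ ∧ i x = j} : Set T) := by
    rw [h.hM]
    exact (h.lt_mk hj).le
  obtain ⟨k⟩ := h3
  have h4 : ∀ p : M × M, ∃ b, j < p.2 → ∀ α ∈ Γ, e α (k p.1).1 = p.2 → α ≤ b := by
    intro p
    by_cases hp : j < p.2
    · have h5 := hi (k p.1).1 p.2 (by rw [(k p.1).2.2]; exact hp)
      simp only [Unb] at h5
      push Not at h5
      obtain ⟨b, hb⟩ := h5
      exact ⟨b, fun _ α hα hα' => hb α ⟨hα, hα'⟩⟩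
    · obtain ⟨b, -⟩ := h.ub ∅ (by simp)
      exact ⟨b, fun h' => absurd h' hp⟩
  choose b hb using h4
  obtain ⟨c, hc⟩ := h.ubf (I := M × M) (by
    simp only [mk_prod, lift_id, h.hM]
    exact (mul_eq_self h.inf).le) b
  obtain ⟨d, hd⟩ := h.ubf h.hM.le fun m => (k m).1
  obtain ⟨α, hα, hα'⟩ := hΓ (max c d)
  have h6 : ∀ m, e α (k m).1 ≤ j := by
    intro m
    by_contra hlt
    push Not at hlt
    have h7 := hb (m, e α (k m).1) hlt α hα rfl
    exact absurd ((h7.trans (hc _).le).trans (le_max_left _ _)) (not_le.2 hα')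
  have h8 : #M ≤ #(Iic j) := by
    refine mk_le_of_injective (f := fun m => (⟨e α (k m).1, h6 m⟩ : Iic j)) ?_
    intro m m' hmm
    have h9 : e α (k m).1 = e α (k m').1 := congrArg Subtype.val hmm
    have h10 : ∀ m, (k m).1 < α := fun m =>
      ((hd m).trans_le (le_max_right _ _)).trans hα'
    exact k.injective (Subtype.ext (he α (h10 m) (h10 m') h9))
  obtain ⟨j', hj'⟩ := h.noMax j
  have h11 : #(Iic j) ≤ #(Iio j') := mk_le_mk_of_subset fun x hx => lt_of_le_of_lt hx hj'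
  exact absurd (h8.trans h11) (not_le.2 (h.hM ▸ h.segM j'))

theorem Ctx.onto (h : Ctx T M μ) : ∃ f : T × T → T → M, ∀ Γ : Set T, Unb Γ →
    ∃ p, ∀ j, ∃ α ∈ Γ, f p α = j := by
  classical
  obtain ⟨e, he⟩ := h.exists_inj
  obtain ⟨col, hcol⟩ := h.exists_col he
  let f : T × T → T → M := fun p α =>
    if hη : ∃ η, α < η ∧ η < p.1 ∧ e p.1 η < e α p.2 then
      col ((wellFounded_lt : WellFounded ((· < ·) : T → T → Prop)).min
        {η | α < η ∧ η < p.1 ∧ e p.1 η < e α p.2} hη) else col α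
  refine ⟨f, fun Γ hΓ => ?_⟩
  obtain ⟨ξ, hξ⟩ := h.exists_xi he hΓ
  by_contra hcon
  push Not at hcon
  have hcon' : ∀ β : T, ∃ j, ∀ α ∈ Γ, f (β, ξ) α ≠ j := fun β => hcon (β, ξ)
  choose jj hjj using hcon'
  obtain ⟨j, hj⟩ := h.pigeon (S := Set.univ) (fun x => by
    obtain ⟨b, hb⟩ := h.ub {x} (by rw [mk_singleton]; exact one_le_aleph0.trans h.inf)
    exact ⟨b, mem_univ _, hb x rfl⟩) jj
  have h1 : ∀ δ : T, ∃ β, jj β = j ∧ δ < β := fun δ => by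
    obtain ⟨β, ⟨-, h2⟩, h3⟩ := hj δ
    exact ⟨β, h2, h3⟩
  choose β hβ1 hβ2 using h1
  obtain ⟨t, ht⟩ := h.stat_color (hcol j) fun δ => e (β δ) δ
  obtain ⟨t', htt', hΓ'⟩ := hξ t
  have h2 : ∀ δ : T, ∃ ν, δ ∈ EE T μ → ν < δ ∧ ∀ η < δ, e (β δ) η < t' → η ≤ ν := by
    intro δ
    by_cases hδ : δ ∈ EE T μ
    · obtain ⟨ν, hν, hν'⟩ := hδ {η | η < δ ∧ e (β δ) η < t'} (fun η hη => hη.1) (by
        refine lt_of_le_of_lt ?_ (h.segM t')
        refine mk_le_of_injective (f := fun η : {η | η < δ ∧ e (β δ) η < t'} =>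
          (⟨e (β δ) η.1, η.2.2⟩ : Iio t')) ?_
        intro η η' hη
        exact Subtype.ext (he (β δ) (η.2.1.trans (hβ2 δ)) (η'.2.1.trans (hβ2 δ))
          (congrArg Subtype.val hη)))
      exact ⟨ν, fun _ => ⟨hν, fun η h3 h4 => hν' η ⟨h3, h4⟩⟩⟩
    · exact ⟨δ, fun h' => absurd h' hδ⟩
  choose ν hν using h2
  obtain ⟨n, hn⟩ := h.fodor ht ν fun δ hδ => (hν δ hδ.1.1).1
  obtain ⟨α, ⟨hα, hα'⟩, hnα⟩ := hΓ' n
  obtain ⟨δ, ⟨⟨⟨hδ1, hδ2⟩, hδ3⟩, hδ4⟩, hαδ⟩ := hn.unb α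
  refine hjj (β δ) α hα ?_
  rw [hβ1 δ]
  have hδ' : α < δ ∧ δ < β δ ∧ e (β δ) δ < e α ξ := ⟨hαδ, hβ2 δ, by
    rw [hα']
    exact (show e (β δ) δ = t from hδ3) ▸ htt'⟩
  have hη : ∃ η, α < η ∧ η < (β δ, ξ).1 ∧ e (β δ, ξ).1 η < e α (β δ, ξ).2 := ⟨δ, hδ'⟩
  show (if hη : ∃ η, α < η ∧ η < (β δ, ξ).1 ∧ e (β δ, ξ).1 η < e α (β δ, ξ).2 then
      col ((wellFounded_lt : WellFounded ((· < ·) : T → T → Prop)).min
        {η | α < η ∧ η < (β δ, ξ).1 ∧ e (β δ, ξ).1 η < e α (β δ, ξ).2} hη) else col α) = j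
  rw [dif_pos hη]
  have h5 := (wellFounded_lt : WellFounded ((· < ·) : T → T → Prop)).min_mem
    {η | α < η ∧ η < (β δ, ξ).1 ∧ e (β δ, ξ).1 η < e α (β δ, ξ).2} hη
  have h6 := (wellFounded_lt : WellFounded ((· < ·) : T → T → Prop)).not_lt_min
    {η | α < η ∧ η < (β δ, ξ).1 ∧ e (β δ, ξ).1 η < e α (β δ, ξ).2} (x := δ) hδ'
  generalize (wellFounded_lt : WellFounded ((· < ·) : T → T → Prop)).min
    {η | α < η ∧ η < (β δ, ξ).1 ∧ e (β δ, ξ).1 η < e α (β δ, ξ).2} hη = m at h5 h6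
  obtain ⟨h7, h8, h9⟩ := h5
  have h10 : m = δ := by
    refine le_antisymm (not_lt.1 h6) ?_
    by_contra hlt
    push Not at hlt
    have h11 := (hν δ hδ1).2 m hlt (hα' ▸ h9)
    rw [show ν δ = n from hδ4] at h11
    exact absurd (h11.trans_lt hnα) h7.asymm
  rw [h10]
  exact hδ2

end

/-- The colouring lemma. -/
theorem exists_onto {μ : Cardinal.{0}} (hμ : μ.IsRegular) :
    ∃ f : (succ μ).ord.ToType × (succ μ).ord.ToType → (succ μ).ord.ToType → μ.ord.ToType,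
      ∀ Γ : Set (succ μ).ord.ToType, #Γ = succ μ → ∃ p, ∀ j, ∃ α ∈ Γ, f p α = j := by
  have key : ∀ (c : Cardinal.{0}), c.IsRegular → ∀ A : Set c.ord.ToType, #A < c →
      ∃ b, ∀ a ∈ A, a < b := by
    intro c hc A hA
    by_contra hcon
    push Not at hcon
    have h1 : IsCofinal A := hcon
    have h2 := Order.cof_le h1
    rw [Ordinal.cof_toType, hc.cof_ord] at h2
    exact absurd h2 (not_le.2 hA)
  have hreg := isRegular_succ hμ.aleph0_le
  have h : Ctx (succ μ).ord.ToType μ.ord.ToType μ := {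
    inf := hμ.aleph0_le
    hM := mk_ord_toType μ
    ub := fun A hA => key _ hreg A (lt_succ_of_le hA)
    seg := fun b => le_of_lt_succ (mk_Iio_toType_ord_lt b)
    ubM := fun A hA => key _ hμ A hA
    segM := fun b => mk_Iio_toType_ord_lt b }
  obtain ⟨f, hf⟩ := h.onto
  refine ⟨f, fun Γ hΓ => hf Γ fun x => ?_⟩
  by_contra hcon
  push Not at hcon
  have h1 : Γ ⊆ Iio x ∪ {x} := fun y hy => (hcon y hy).lt_or_eq
  have h2 := (mk_le_mk_of_subset h1).trans (mk_union_le _ _)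
  have h3 : #(Iio x) + #({x} : Set (succ μ).ord.ToType) ≤ μ :=
    add_le_of_le h.inf (h.seg x) (by rw [mk_singleton]; exact one_le_aleph0.trans h.inf)
  rw [hΓ] at h2
  exact absurd (h2.trans h3) (not_le.2 (lt_succ μ))

end Pool.Agent.Lib.MP_0b3fe5_lc.Onto90
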