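import Pool.Agent.Lib.MP_0b3fe5_lc.Comb
import Pool.Agent.Lib.MP_0b3fe5_lc.Defs

/-!
# Relations with a transfer property: the bounding number is regular and there is an unbounded
sequence all of whose large subsets are unbounded
-/

open Cardinal Set Filter

namespace Pool.Agent.Lib.MP_0b3fe5_lc

/-- What is used about the relation `R`. -/
structure GoodRel {B : Type} (R : (ℕ → ℕ) → B → Prop) : Prop where
  finite : ∀ A : Set (ℕ → ℕ), A.Finite → Bounded R A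
  unb : ¬ Bounded R Set.univ
  tr : ∃ T : B → B, ∀ U : Set (ℕ → ℕ), #U < bnum R → ∃ a, ∀ b, R a b → ∀ u ∈ U, R u (T b)

section

variable {B : Type} {R : (ℕ → ℕ) → B → Prop}

theorem bounded_of_lt {A : Set (ℕ → ℕ)} (h : #A < bnum R) : Bounded R A := by
  by_contra hcon
  exact notMem_of_lt_csInf' h ⟨A, hcon, rfl⟩

theorem exists_unbounded (h : GoodRel R) : ∃ A : Set (ℕ → ℕ), ¬ Bounded R A ∧ #A = bnum R :=
  csInf_mem (s := {κ | ∃ A : Set (ℕ → ℕ), ¬ Bounded R A ∧ #A = κ}) ⟨_, Set.univ, h.unb, rfl⟩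

theorem mk_NN : #(ℕ → ℕ) = 𝔠 := by simp

theorem bnum_le (h : GoodRel R) : bnum R ≤ 𝔠 := by
  obtain ⟨A, -, hA⟩ := exists_unbounded h
  rw [← hA, ← mk_NN]
  exact mk_set_le A

theorem aleph0_le_bnum (h : GoodRel R) : ℵ₀ ≤ bnum R := by
  obtain ⟨A, hA, hA'⟩ := exists_unbounded h
  rw [← hA']
  by_contra hcon
  push Not at hcon
  exact hA (h.finite A (lt_aleph0_iff_set_finite.1 hcon))

theorem exists_luzin (h : GoodRel R) : ∃ a : (bnum R).ord.ToType → (ℕ → ℕ),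
    ∀ S : Set (bnum R).ord.ToType, IsCofinal S → ¬ Bounded R (a '' S) := by
  obtain ⟨A, hA, hA'⟩ := exists_unbounded h
  obtain ⟨T, hT⟩ := h.tr
  have he : #(bnum R).ord.ToType = #A := by rw [mk_ord_toType, hA']
  obtain ⟨e⟩ := Cardinal.eq.1 he
  have hU : ∀ i : (bnum R).ord.ToType, ∃ a, ∀ b, R a b → ∀ j ≤ i, R (e j).1 (T b) := by
    intro i
    have h1 : #((fun j => (e j).1) '' Iic i : Set (ℕ → ℕ)) < bnum R := by
      refine mk_image_le.trans_lt ?_
      have h2 : (Iic i : Set (bnum R).ord.ToType) = Iio i ∪ {i} := by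
        ext j
        simp [le_iff_lt_or_eq]
      rw [h2]
      refine (mk_union_le _ _).trans_lt (add_lt_of_lt (aleph0_le_bnum h) ?_ ?_)
      · simpa using mk_Iio_toType_ord_lt i
      · rw [mk_singleton]
        exact one_lt_aleph0.trans_le (aleph0_le_bnum h)
    obtain ⟨a, ha⟩ := hT _ h1
    exact ⟨a, fun b hb j hj => ha b hb _ ⟨j, hj, rfl⟩⟩
  choose a ha using hU
  refine ⟨a, fun S hS ⟨b, hb⟩ => hA ⟨T b, fun v hv => ?_⟩⟩
  obtain ⟨i, hi, hi'⟩ := hS (e.symm ⟨v, hv⟩)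
  have := ha i b (hb _ ⟨i, hi, rfl⟩) _ hi'
  simpa using this

theorem isRegular_bnum (h : GoodRel R) : (bnum R).IsRegular := by
  refine ⟨aleph0_le_bnum h, ?_⟩
  obtain ⟨a, ha⟩ := exists_luzin h
  rw [← Ordinal.cof_toType, Order.le_cof_iff]
  intro S hS
  refine le_trans ?_ (mk_image_le (f := a) (s := S))
  by_contra hcon
  push Not at hcon
  exact ha S hS (bounded_of_lt hcon)

theorem isCofinal_of_mk {c : Cardinal.{0}} {S : Set c.ord.ToType} (hS : #S = c) : IsCofinal S := by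
  intro x
  by_contra hcon
  push Not at hcon
  have h1 : S ⊆ Iio x := fun y hy => hcon y hy
  have h2 := (mk_le_mk_of_subset h1).trans_lt (mk_Iio_toType_ord_lt x)
  rw [hS] at h2
  simp at h2

theorem boundedMod_of_le {I : Set (Set (ℕ → ℕ))} (h : 𝔠 < bnumMod R I) {J : Type} (hJ : #J ≤ 𝔠)
    (F : J → (ℕ → ℕ) → (ℕ → ℕ)) :
    ∃ g : (ℕ → ℕ) → B, ∀ j, {x | ¬ R (F j x) (g x)} ∈ I := by
  have h1 : #(range F) < bnumMod R I := (mk_range_le.trans hJ).trans_lt h
  have h2 : BoundedMod R I (range F) := by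
    by_contra hcon
    exact notMem_of_lt_csInf' h1 ⟨_, hcon, rfl⟩
  obtain ⟨g, hg⟩ := h2
  exact ⟨g, fun j => hg _ ⟨j, rfl⟩⟩

end

end Pool.Agent.Lib.MP_0b3fe5_lc
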