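import Pool.Agent.Lib.MP_0b3fe5_lc.Inst
import Pool.Agent.Lib.MP_0b3fe5_lc.Psl27

/-!
# Rothberger families for the null ideal
-/

open Cardinal Set Filter MeasureTheory Order

namespace Pool.Agent.Lib.MP_0b3fe5_lc.Roth27

open Pool.Agent.Lib.MP_0b3fe5_lc

variable {B : Type} {R : (ℕ → ℕ) → B → Prop} {I : Set (Set (ℕ → ℕ))}

theorem boundedMod_of_lt {κ : Cardinal.{0}} (h : κ < bnumMod R I) {J : Type} (hJ : #J ≤ κ)
    (F : J → (ℕ → ℕ) → (ℕ → ℕ)) :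
    ∃ g : (ℕ → ℕ) → B, ∀ j, {x | ¬ R (F j x) (g x)} ∈ I := by
  have h1 : #(range F) < bnumMod R I := (mk_range_le.trans hJ).trans_lt h
  have h2 : BoundedMod R I (range F) := by
    by_contra hcon
    exact notMem_of_lt_csInf' h1 ⟨_, hcon, rfl⟩
  obtain ⟨g, hg⟩ := h2
  exact ⟨g, fun j => hg _ ⟨j, rfl⟩⟩

/-- A family of sets of `I` such that every point avoids fewer than `l` of them. -/
theorem mk_rothberger (hI : GoodIdl I) {l κ : Cardinal.{0}} (hl : l.IsRegular) (hlκ : l ≤ κ)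
    {T : Type} (hT : #T = κ) (X : T → Set (ℕ → ℕ)) (hX : ∀ α, X α ∈ I)
    (hX' : ∀ y, #{α | y ∉ X α} < l) : ∃ 𝓧, IsRothberger κ l I 𝓧 := by
  classical
  have hfib : ∀ Y : Set (ℕ → ℕ), #{α | X α = Y} < l := by
    intro Y
    rcases {α | X α = Y}.eq_empty_or_nonempty with he | ⟨α, hα⟩
    · rw [he, mk_eq_zero]
      exact pos_iff_ne_zero.2 hl.ne_zero
    · have hne : Y ≠ Set.univ := fun h => hI.univ (h ▸ (show X α = Y from hα) ▸ hX α)
      obtain ⟨y, hy⟩ := (ne_univ_iff_exists_notMem Y).1 hne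
      refine (mk_le_mk_of_subset fun β hβ => ?_).trans_lt (hX' y)
      show y ∉ X β
      rw [show X β = Y from hβ]
      exact hy
  refine ⟨range X, ?_, le_antisymm (mk_range_le.trans hT.le) ?_, fun 𝓨 h𝓨 hcard => ?_⟩
  · rintro _ ⟨α, rfl⟩
    exact hX α
  · by_contra hcon
    push Not at hcon
    have hcov : (Set.univ : Set T) ⊆ ⋃ Y ∈ range X, {α | X α = Y} := fun α _ =>
      mem_iUnion₂.2 ⟨X α, ⟨α, rfl⟩, rfl⟩
    have hle := mk_le_mk_of_subset hcov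
    rw [mk_univ, hT] at hle
    rcases hlκ.lt_or_eq with hlt | heq
    · have h1 : #(⋃ Y ∈ range X, {α | X α = Y} : Set T) ≤ #(range X) * l := by
        refine (mk_biUnion_le _ _).trans (mul_le_mul_right ?_ _)
        exact ciSup_le' fun Y => (hfib Y).le
      exact absurd (hle.trans h1) (not_le.2 (mul_lt_of_lt (hl.aleph0_le.trans hlκ) hcon hlt))
    · have h1 := (card_biUnion_lt_iff_forall_of_isRegular (s := range X)
        (t := fun Y _ => {α | X α = Y}) hl (heq ▸ hcon)).2 fun Y _ => hfib Y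
      exact absurd hle (not_le.2 (heq ▸ h1))
  · rw [eq_univ_iff_forall]
    intro y
    by_contra hno
    have h1 : 𝓨 ⊆ X '' {α | y ∉ X α} := by
      intro Y hY
      obtain ⟨α, rfl⟩ := h𝓨 hY
      exact ⟨α, fun hy => hno (mem_sUnion.2 ⟨_, hY, hy⟩), rfl⟩
    have h2 := (mk_le_mk_of_subset h1).trans mk_image_le
    rw [hcard] at h2
    exact absurd (hX' y) (not_lt.2 h2)

/-- First round. -/
theorem key (hR : GoodRel R) {T : Type} (hT : #T ≤ 𝔠) (h : #T < bnumMod R I) {J : Type}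
    (hJ : #J ≤ 𝔠) (Q : J → Set (ℕ → ℕ)) (hQ : ∀ j, 𝔠 ≤ #(Q j)) :
    ∃ N : T → Set (ℕ → ℕ), (∀ α, N α ∈ I) ∧
      ∀ j, #{α | ¬ (Q j ∩ N α).Nonempty} < bnum R := by
  classical
  obtain ⟨a, ha⟩ := exists_luzin hR
  obtain ⟨Φ, hΦ, hΦ'⟩ := exists_family (isRegular_bnum hR) (bnum R).ord.ToType
    (mk_ord_toType _) (#T) hT T rfl
  have hJ' : #(J × Φ) ≤ 𝔠 := by
    rw [mk_prod, lift_id, lift_id]
    exact (mul_le_mul' hJ hΦ).trans continuum_mul_self.le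
  obtain ⟨x, hx, hx'⟩ := exists_sdr (J := J × Φ) (fun p => Q p.1) hJ' fun p => hQ p.1
  let F : T → (ℕ → ℕ) → (ℕ → ℕ) := fun α z =>
    if h : ∃ p, x p = z then a ((Classical.choose h).2.1 α) else 0
  have hF : ∀ α p, F α (x p) = a (p.2.1 α) := by
    intro α p
    have hex : ∃ q, x q = x p := ⟨p, rfl⟩
    show (if h : ∃ q, x q = x p then a ((Classical.choose h).2.1 α) else 0) = _
    rw [dif_pos hex, hx (Classical.choose_spec hex)]
  obtain ⟨g, hg⟩ := boundedMod_of_lt h le_rfl F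
  refine ⟨fun α => {z | ¬ R (F α z) (g z)}, hg, fun j => ?_⟩
  by_contra hcon
  obtain ⟨Γ, hΓ, hΓ'⟩ := le_mk_iff_exists_subset.1 (not_lt.1 hcon)
  obtain ⟨φ, hφ, hφ'⟩ := hΦ' Γ hΓ'
  refine ha (φ '' Γ) (isCofinal_of_mk hφ') ⟨g (x (j, ⟨φ, hφ⟩)), ?_⟩
  rintro _ ⟨_, ⟨α, hα, rfl⟩, rfl⟩
  by_contra hno
  refine hΓ hα ⟨x (j, ⟨φ, hφ⟩), hx' (j, ⟨φ, hφ⟩), ?_⟩
  show ¬ R (F α _) _
  rw [hF]
  exact hno

/-- Second round. -/
theorem round2 (hR : GoodRel R) (hI : GoodIdl I) {T : Type} (h : #T < bnumMod R I)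
    (A : T → Set (ℕ → ℕ)) (hA : ∀ α, A α ∈ I) (hA' : ∀ y, #{α | y ∉ A α} ≤ bnum R) :
    ∃ X : T → Set (ℕ → ℕ), (∀ α, X α ∈ I) ∧ ∀ y, #{α | y ∉ X α} < bnum R := by
  classical
  obtain ⟨a, ha⟩ := exists_luzin hR
  have h1 : ∀ y, ∃ ψ : T → (bnum R).ord.ToType, InjOn ψ {α | y ∉ A α} := by
    intro y
    have h2 : #{α | y ∉ A α} ≤ #(bnum R).ord.ToType := by
      rw [mk_ord_toType]
      exact hA' y
    obtain ⟨f⟩ := h2
    have hne : Nonempty (bnum R).ord.ToType := by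
      rw [← mk_ne_zero_iff, mk_ord_toType]
      exact (isRegular_bnum hR).ne_zero
    refine ⟨fun α => if hα : y ∉ A α then f ⟨α, hα⟩ else Classical.arbitrary _, ?_⟩
    intro α hα β hβ hαβ
    dsimp only at hαβ
    rw [dif_pos (show y ∉ A α from hα), dif_pos (show y ∉ A β from hβ)] at hαβ
    exact congrArg Subtype.val (f.injective hαβ)
  choose ψ hψ using h1
  obtain ⟨g, hg⟩ := boundedMod_of_lt h le_rfl fun α y => a (ψ y α)
  refine ⟨fun α => A α ∪ {y | ¬ R (a (ψ y α)) (g y)}, fun α => hI.union _ (hA α) _ (hg α),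
    fun y => ?_⟩
  by_contra hcon
  push Not at hcon
  obtain ⟨Γ, hΓ, hΓ'⟩ := le_mk_iff_exists_subset.1 hcon
  have h2 : ∀ α ∈ Γ, y ∉ A α ∧ R (a (ψ y α)) (g y) := fun α hα =>
    ⟨fun h3 => hΓ hα (Or.inl h3), by_contra fun h3 => hΓ hα (Or.inr h3)⟩
  have h3 : #(ψ y '' Γ) = bnum R := by
    rw [mk_image_eq_of_injOn _ _ ((hψ y).mono fun α hα => (h2 α hα).1), hΓ']
  refine ha (ψ y '' Γ) (isCofinal_of_mk h3) ⟨g y, ?_⟩
  rintro _ ⟨_, ⟨α, hα, rfl⟩, rfl⟩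
  exact (h2 α hα).2

/-- A family of functions whose bounded subfamilies are small gives a family of sets of `I`. -/
theorem of_family (T : Type) (h : #T < bnumMod R I) (c : T → (ℕ → ℕ)) {κ : Cardinal.{0}}
    (hc : ∀ b, #{α | R (c α) b} ≤ κ) :
    ∃ X : T → Set (ℕ → ℕ), (∀ α, X α ∈ I) ∧ ∀ y, #{α | y ∉ X α} ≤ κ := by
  obtain ⟨g, hg⟩ := boundedMod_of_lt h le_rfl fun α _ => c α
  refine ⟨_, hg, fun y => (mk_le_mk_of_subset fun α hα => ?_).trans (hc (g y))⟩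
  exact not_not.1 hα

/-- The least size of a dominating family. -/
noncomputable def dnum : Cardinal.{0} :=
  sInf {κ | ∃ D : Set (ℕ → ℕ), (∀ x, ∃ d ∈ D, LeStar x d) ∧ #D = κ}

theorem exists_dom : ∃ D : Set (ℕ → ℕ), (∀ x, ∃ d ∈ D, LeStar x d) ∧ #D = dnum :=
  csInf_mem (s := {κ | ∃ D : Set (ℕ → ℕ), (∀ x, ∃ d ∈ D, LeStar x d) ∧ #D = κ})
    ⟨_, Set.univ, fun x => ⟨x, mem_univ _, Eventually.of_forall fun _ => le_rfl⟩, rfl⟩

theorem LeStar.trans {x y z : ℕ → ℕ} (h : LeStar x y) (h' : LeStar y z) : LeStar x z := by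
  filter_upwards [h, h'] with k h1 h2
  exact h1.trans h2

theorem bnum_le_dnum : bnum LeStar ≤ dnum := by
  obtain ⟨D, hD, hD'⟩ := exists_dom
  rw [← hD']
  refine csInf_le' ⟨D, fun ⟨b, hb⟩ => ?_, rfl⟩
  obtain ⟨d, hd, hd'⟩ := hD fun k => b k + 1
  obtain ⟨k, hk⟩ := (LeStar.trans hd' (hb d hd)).exists
  exact absurd hk (by simp)

section null

variable (μ : Measure (ℕ → ℕ)) [IsProbabilityMeasure μ] (hμ : ∀ x, μ {x} = 0)

include hμ

/-- First round for the null ideal: what the perfect set lemma gives. -/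
theorem first {T : Type} (hT : #T ≤ 𝔠) (h : #T < bnumMod LeStar (NullSets μ)) :
    ∃ (φ : T → (ℕ → ℕ)) (Y : T → (ℕ → ℕ) → Set (ℕ → ℕ)),
      (∀ α h, LeStar (φ α) h → Y α h ∈ NullSets μ) ∧
      ∀ h y, #{α | y ∉ Y α h} < bnum LeStar := by
  obtain ⟨Q, hQ, hN⟩ := Psl27.psl μ hμ
  obtain ⟨N, hNI, hN'⟩ := key goodRel_leStar hT h (J := (ℕ → ℕ) × (ℕ → ℕ))
    (by simp) (fun p => Q p.1 p.2) fun p => hQ p.1 p.2
  choose φ hφ using fun α => hN (N α) (hNI α)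
  exact ⟨φ, fun α h => {y | (Q y h ∩ N α).Nonempty}, hφ, fun h y => hN' (y, h)⟩

/-- More than `𝔡` many functions. -/
theorem of_dnum_lt {T : Type} (hT : #T ≤ 𝔠) (h : #T < bnumMod LeStar (NullSets μ))
    (hd : dnum < #T) :
    ∃ X : T → Set (ℕ → ℕ), (∀ α, X α ∈ NullSets μ) ∧ ∀ y, #{α | y ∉ X α} < bnum LeStar := by
  classical
  have hreg := isRegular_bnum goodRel_leStar
  have hI := goodIdl_null μ hμ
  obtain ⟨φ, Y, hY, hY'⟩ := first μ hμ hT h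
  obtain ⟨D, hD, hD'⟩ := exists_dom
  have h1 : ∀ α, ∃ d : D, LeStar (φ α) d := fun α => by
    obtain ⟨d, hd, hd'⟩ := hD (φ α)
    exact ⟨⟨d, hd⟩, hd'⟩
  choose k hk using h1
  have hD0 : ℵ₀ ≤ #D := by
    rw [hD']
    exact (aleph0_le_bnum goodRel_leStar).trans bnum_le_dnum
  -- a large fibre
  obtain ⟨h₀, hh₀⟩ : ∃ h₀ : D, #D < #(k ⁻¹' {h₀}) := by
    by_contra hcon
    push Not at hcon
    have h2 : (Set.univ : Set T) ⊆ ⋃ d : D, k ⁻¹' {d} := fun α _ => mem_iUnion.2 ⟨k α, rfl⟩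
    have h3 := (mk_le_mk_of_subset h2).trans (mk_iUnion_le _)
    rw [mk_univ] at h3
    have h4 : #D * (⨆ d : D, #(k ⁻¹' {d})) ≤ #D * #D := mul_le_mul_right (ciSup_le' hcon) _
    rw [mul_eq_self hD0, hD'] at h4
    exact absurd (h3.trans (hD' ▸ h4)) (not_le.2 hd)
  obtain ⟨j⟩ := hh₀.le
  let X : T → Set (ℕ → ℕ) := fun α => Y α (k α) ∪ Y (j (k α)).1 h₀
  refine ⟨X, fun α => hI.union _ (hY _ _ (hk α)) _ (hY _ _ ?_), fun y => ?_⟩
  · have h2 := hk (j (k α)).1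
    rw [show k (j (k α)).1 = h₀ from (j (k α)).2] at h2
    exact h2
  · -- few members of `D` are active
    let E : Set D := {d | y ∉ Y (j d).1 h₀}
    have hE : #E < bnum LeStar := by
      refine lt_of_le_of_lt ?_ (hY' h₀ y)
      exact mk_le_of_injective (f := fun d : E => (⟨(j d.1).1, d.2⟩ : {α | y ∉ Y α h₀}))
        fun d d' hdd => by
          have h3 : (j d.1).1 = (j d'.1).1 :=
            congrArg (fun q : {α | y ∉ Y α h₀} => q.1) hdd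
          exact Subtype.ext (j.injective (Subtype.ext h3))
    have h2 : {α | y ∉ X α} ⊆ ⋃ d ∈ E, {α | y ∉ Y α d} := by
      intro α hα
      refine mem_iUnion₂.2 ⟨k α, fun h3 => hα (Or.inr h3), fun h3 => hα (Or.inl h3)⟩
    refine (mk_le_mk_of_subset h2).trans_lt ?_
    exact (card_biUnion_lt_iff_forall_of_isRegular (s := E)
      (t := fun d _ => {α | y ∉ Y α d}) hreg hE).2 fun d _ => hY' d y

/-- At most `𝔟⁺` functions. -/
theorem of_le_succ {T : Type} (hT : #T ≤ 𝔠) (h : #T < bnumMod LeStar (NullSets μ))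
    (hd : #T ≤ succ (bnum LeStar)) :
    ∃ (T' : Type) (X : T' → Set (ℕ → ℕ)), #T' = #T ∧ (∀ α, X α ∈ NullSets μ) ∧
      ∀ y, #{α | y ∉ X α} < bnum LeStar := by
  classical
  have hI := goodIdl_null μ hμ
  obtain ⟨φ, Y, hY, hY'⟩ := first μ hμ hT h
  by_cases hex : ∃ b, #T ≤ #{α | LeStar (φ α) b}
  · obtain ⟨b, hb⟩ := hex
    refine ⟨{α | LeStar (φ α) b}, fun α => Y α.1 b, le_antisymm (mk_set_le _) hb,
      fun α => hY _ _ α.2, fun y => lt_of_le_of_lt ?_ (hY' b y)⟩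
    exact mk_le_of_injective (f := fun α : {α : {α | LeStar (φ α) b} | y ∉ Y α.1 b} =>
      (⟨α.1.1, α.2⟩ : {α | y ∉ Y α b})) fun α β hαβ => by
        have h3 : α.1.1 = β.1.1 := congrArg (fun q : {α | y ∉ Y α b} => q.1) hαβ
        exact Subtype.ext (Subtype.ext h3)
  · push Not at hex
    obtain ⟨A, hA, hA'⟩ := of_family T h φ (κ := bnum LeStar) fun b =>
      le_of_lt_succ ((hex b).trans_le hd)
    obtain ⟨X, hX, hX'⟩ := round2 goodRel_leStar hI h A hA hA'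
    exact ⟨T, X, rfl, hX, hX'⟩

/-- The pair `(≤*, 𝒩)`, for `κ ≤ 𝔟⁺` and for `κ > 𝔡`. -/
theorem null_pair {κ : Cardinal.{0}} (h1 : bnum LeStar ≤ κ) (h2 : κ ≤ 𝔠)
    (h3 : κ ≤ succ (bnum LeStar) ∨ dnum < κ) (h : κ < bnumMod LeStar (NullSets μ)) :
    ∃ 𝓧, IsRothberger κ (bnum LeStar) (NullSets μ) 𝓧 := by
  have hI := goodIdl_null μ hμ
  have hreg := isRegular_bnum goodRel_leStar
  have hT : #κ.ord.ToType = κ := mk_ord_toType κ
  rcases h3 with h3 | h3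
  · obtain ⟨T', X, hT', hX, hX'⟩ := of_le_succ μ hμ (T := κ.ord.ToType) (hT.trans_le h2)
      (by rwa [hT]) (by rwa [hT])
    exact mk_rothberger hI hreg h1 (hT'.trans hT) X hX hX'
  · obtain ⟨X, hX, hX'⟩ := of_dnum_lt μ hμ (T := κ.ord.ToType) (hT.trans_le h2)
      (by rwa [hT]) (by rwa [hT])
    exact mk_rothberger hI hreg h1 hT X hX hX'

end null

end Pool.Agent.Lib.MP_0b3fe5_lc.Roth27
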