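import Pool.Agent.Lib.MP_0b3fe5_lc.NonM90

/-!
# Rothberger families: general lemmas

`Luz R`: there is a sequence of length `𝔟(R)` all of whose subsets of size `𝔟(R)` are `R`-unbounded.
`Spread R l`: at most `𝔠` functions such that every set of size `l` is mapped onto an `R`-unbounded
set by one of them.  `PerfectSets I`: there are sets `Q y h` of size `𝔠` such that for every `N` in
`I` and all fast growing `h` the set of all `y` such that `Q y h` meets `N` belongs to `I`.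
-/

open Cardinal Set Filter Order

namespace Pool.Agent.Lib.MP_0b3fe5_lc.Roth73

open Pool.Agent.Lib.MP_0b3fe5_lc Pool.Agent.Lib.MP_0b3fe5_lc.NonM90

/-- What is used about the ideal `I`. -/
structure Idl (I : Set (Set (ℕ → ℕ))) : Prop where
  sub : ∀ X ∈ I, ∀ Y ⊆ X, Y ∈ I
  union : ∀ X ∈ I, ∀ Y ∈ I, X ∪ Y ∈ I
  univ : Set.univ ∉ I

theorem idl_of_good {I : Set (Set (ℕ → ℕ))} (h : GoodIdl I) : Idl I := ⟨h.sub, h.union, h.univ⟩

/-- There are perfect sets `Q y h` as in the perfect set lemma. -/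
def PerfectSets (I : Set (Set (ℕ → ℕ))) : Prop :=
  ∃ (Z : Set (ℕ → ℕ)) (Q : (ℕ → ℕ) → (ℕ → ℕ) → Set (ℕ → ℕ)), Z ∈ I ∧
    (∀ y ∉ Z, ∀ h, 𝔠 ≤ #(Q y h)) ∧
    ∀ N ∈ I, ∃ φ : ℕ → ℕ, ∀ h, LeStar φ h → {y | (Q y h ∩ N).Nonempty} ∈ I

section

variable {B : Type} {R : (ℕ → ℕ) → B → Prop} {I : Set (Set (ℕ → ℕ))}

variable (R) in
/-- There is a sequence of length `𝔟(R)` all of whose subsets of size `𝔟(R)` are unbounded. -/
def Luz : Prop := ∃ a : (bnum R).ord.ToType → (ℕ → ℕ),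
  ∀ S : Set (bnum R).ord.ToType, #S = bnum R → ¬ Bounded R (a '' S)

variable (R) in
/-- Few functions that map every set of size `l` onto an unbounded set. -/
def Spread (l : Cardinal.{0}) : Prop := ∃ Ψ : Set ((ℕ → ℕ) → (ℕ → ℕ)), #Ψ ≤ 𝔠 ∧
  ∀ Γ : Set (ℕ → ℕ), #Γ = l → ∃ ψ ∈ Ψ, ¬ Bounded R (ψ '' Γ)

theorem luz_of_good (h : GoodRel R) : Luz R := by
  obtain ⟨a, ha⟩ := exists_luzin h
  exact ⟨a, fun S hS => ha S (isCofinal_of_mk hS)⟩

theorem spread_of_luz (h : Luz R) (hreg : (bnum R).IsRegular) : Spread R (bnum R) := by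
  obtain ⟨a, ha⟩ := h
  obtain ⟨Φ, hΦ, hΦ'⟩ := exists_family hreg (bnum R).ord.ToType
    (mk_ord_toType _) 𝔠 le_rfl (ℕ → ℕ) mk_NN
  refine ⟨(fun φ => a ∘ φ) '' Φ, mk_image_le.trans hΦ, fun Γ hΓ => ?_⟩
  obtain ⟨φ, hφ, hφ'⟩ := hΦ' Γ hΓ
  refine ⟨a ∘ φ, ⟨φ, hφ, rfl⟩, ?_⟩
  rw [image_comp]
  exact ha _ hφ'

theorem continuum_power_le {κ : Cardinal.{0}} (h : (2 : Cardinal.{0}) ^ κ ≤ 𝔠) : 𝔠 ^ κ ≤ 𝔠 := by
  rcases le_or_gt κ ℵ₀ with h1 | h1
  · calc (𝔠 : Cardinal.{0}) ^ κ ≤ 𝔠 ^ ℵ₀ := power_le_power_left continuum_ne_zero h1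
      _ = 𝔠 := continuum_power_aleph0
  · calc (𝔠 : Cardinal.{0}) ^ κ = 2 ^ (ℵ₀ * κ) := by rw [← two_power_aleph0, ← power_mul]
      _ = 2 ^ κ := by rw [aleph0_mul_eq h1.le]
      _ ≤ 𝔠 := h

theorem spread_of_power {A : Set (ℕ → ℕ)} (hA : ¬ Bounded R A) (hA' : #A ≠ 0)
    (h2 : (2 : Cardinal.{0}) ^ #A ≤ 𝔠) : Spread R #A := by
  classical
  have : Nonempty A := mk_ne_zero_iff.1 hA'
  refine ⟨range fun (u : A → (ℕ → ℕ)) (t : ℕ → ℕ) => (Function.invFun u t).1, ?_, fun Γ hΓ => ?_⟩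
  · refine mk_range_le.trans ?_
    rw [mk_arrow, lift_id, lift_id, mk_NN]
    exact continuum_power_le h2
  · obtain ⟨e⟩ := Cardinal.eq.1 hΓ
    let u : A → (ℕ → ℕ) := fun a => (e.symm a).1
    have hu : Function.Injective u := fun a b hab => e.symm.injective (Subtype.ext hab)
    refine ⟨_, ⟨u, rfl⟩, fun hb => hA ?_⟩
    obtain ⟨b, hb⟩ := hb
    refine ⟨b, fun v hv => hb v ⟨u ⟨v, hv⟩, (e.symm _).2, ?_⟩⟩
    show (Function.invFun u (u ⟨v, hv⟩)).1 = v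
    rw [Function.leftInverse_invFun hu]

/-- Small sets belong to `I`. -/
theorem small_of_lt (hI : Idl I) (hu : ∀ b : B, ∃ x : ℕ → ℕ, ¬ R x b) (h : 𝔠 < bnumMod R I)
    {Y : Set (ℕ → ℕ)} (h2 : (2 : Cardinal.{0}) ^ #Y ≤ 𝔠) : Y ∈ I := by
  classical
  choose u hu using hu
  obtain ⟨g, hg⟩ := boundedMod_of_le h (J := Y → (ℕ → ℕ)) (by
    rw [mk_arrow, lift_id, lift_id, mk_NN]
    exact continuum_power_le h2) fun s x => if hx : x ∈ Y then s ⟨x, hx⟩ else 0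
  refine hI.sub _ (hg fun y => u (g y.1)) _ fun y hy => ?_
  show ¬ R (if hx : y ∈ Y then u (g y) else 0) (g y)
  rw [dif_pos hy]
  exact hu _

theorem finish (hI : Idl I) {l : Cardinal.{0}} (hl : ℵ₀ ≤ l) (hlc : l ≤ 𝔠)
    (hlr : l < 𝔠 ∨ l.IsRegular) {T : Type} (hT : #T = 𝔠) (X : T → Set (ℕ → ℕ))
    (hX : ∀ α, X α ∈ I) (hc : ∀ y, #{α | y ∉ X α} < l) : ∃ 𝓧, IsRothberger 𝔠 l I 𝓧 := by
  classical
  have hX' : ∀ Γ : Set T, #Γ = l → (⋃ α ∈ Γ, X α) = Set.univ := by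
    intro Γ hΓ
    rw [eq_univ_iff_forall]
    intro y
    by_contra hcon
    refine absurd (hc y) (not_lt.2 ?_)
    rw [← hΓ]
    exact mk_le_mk_of_subset fun α hα hy => hcon (mem_iUnion₂.2 ⟨α, hα, hy⟩)
  have hfib : ∀ Y : Set (ℕ → ℕ), #{α | X α = Y} < l := by
    intro Y
    by_contra hcon
    push Not at hcon
    obtain ⟨Γ, hΓ, hΓ'⟩ := le_mk_iff_exists_subset.1 hcon
    have h1 := hX' Γ hΓ'
    have hne : Γ.Nonempty := by
      rw [nonempty_iff_ne_empty]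
      rintro rfl
      rw [mk_eq_zero] at hΓ'
      exact (aleph0_pos.trans_le hl).ne hΓ'
    obtain ⟨α, hα⟩ := hne
    have h2 : (⋃ α ∈ Γ, X α) = Y := by
      refine Subset.antisymm (iUnion₂_subset fun β hβ => (hΓ hβ).subset) fun y hy => ?_
      refine mem_iUnion₂.2 ⟨α, hα, ?_⟩
      rw [show X α = Y from hΓ hα]
      exact hy
    have h3 : X α = Set.univ := (show X α = Y from hΓ hα).trans (h2.symm.trans h1)
    exact hI.univ (h3 ▸ hX α)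
  refine ⟨range X, ?_, le_antisymm (mk_range_le.trans hT.le) ?_, fun 𝓨 h𝓨 hcard => ?_⟩
  · rintro _ ⟨α, rfl⟩
    exact hX α
  · by_contra hcon
    push Not at hcon
    have hcov : (Set.univ : Set T) ⊆ ⋃ Y ∈ range X, {α | X α = Y} := fun α _ =>
      mem_iUnion₂.2 ⟨X α, ⟨α, rfl⟩, rfl⟩
    have hle := mk_le_mk_of_subset hcov
    rw [mk_univ, hT] at hle
    rcases hlc.lt_or_eq with hlt | heq
    · have h1 : #(⋃ Y ∈ range X, {α | X α = Y} : Set T) ≤ #(range X) * l := by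
        refine (mk_biUnion_le _ _).trans (mul_le_mul_right ?_ _)
        exact ciSup_le' fun Y => (hfib Y).le
      exact absurd (hle.trans h1) (not_le.2 (mul_lt_of_lt aleph0_le_continuum hcon hlt))
    · have hreg' : (𝔠 : Cardinal.{0}).IsRegular := by
        rcases hlr with h | h
        · exact absurd heq h.ne
        · exact heq ▸ h
      have h1 := (card_biUnion_lt_iff_forall_of_isRegular (s := range X)
        (t := fun Y _ => {α | X α = Y}) hreg' hcon).2 fun Y _ => heq ▸ hfib Y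
      exact absurd hle (not_le.2 h1)
  · have hsec : ∀ Y : 𝓨, ∃ α, X α = Y.1 := fun Y => h𝓨 Y.2
    choose s hs using hsec
    have hinj : Function.Injective s := fun Y Y' hYY => by
      apply Subtype.ext
      rw [← hs Y, ← hs Y', hYY]
    have h1 : #(range s) = l := by rw [mk_range_eq s hinj, hcard]
    rw [← hX' _ h1]
    refine Subset.antisymm ?_ ?_
    · rintro y ⟨Y, hY, hy⟩
      refine mem_iUnion₂.2 ⟨s ⟨Y, hY⟩, ⟨_, rfl⟩, ?_⟩
      rw [hs]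
      exact hy
    · intro y hy
      obtain ⟨_, ⟨Y, rfl⟩, hy⟩ := mem_iUnion₂.1 hy
      rw [hs] at hy
      exact ⟨Y.1, Y.2, hy⟩

/-- The key lemma: for every `y` and `h`, fewer than `l` of the indices in the fibre of `h` are such
that `y` is outside of `X α`. -/
theorem key (hI : Idl I) (hP : PerfectSets I) (h : 𝔠 < bnumMod R I) {l : Cardinal.{0}}
    (hS : Spread R l) {D : Set (ℕ → ℕ)} (hD : ∀ f, ∃ d ∈ D, LeStar f d) :
    ∃ (k : (ℕ → ℕ) → (ℕ → ℕ)) (X : (ℕ → ℕ) → Set (ℕ → ℕ)), (∀ α, k α ∈ D) ∧ (∀ α, X α ∈ I) ∧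
      ∀ y h, #{α | k α = h ∧ y ∉ X α} < l := by
  classical
  obtain ⟨Z, Q, hZ, hQ, hN⟩ := hP
  obtain ⟨Ψ, hΨ, hΨ'⟩ := hS
  have hJ : #(({y : ℕ → ℕ // y ∉ Z} × (ℕ → ℕ)) × Ψ) ≤ 𝔠 := by
    simp only [mk_prod, lift_id]
    have h1 : #{y : ℕ → ℕ // y ∉ Z} ≤ 𝔠 := by
      rw [← mk_NN]
      exact mk_subtype_le _
    refine (mul_le_mul' (mul_le_mul' h1 mk_NN.le) hΨ).trans ?_
    rw [continuum_mul_self, continuum_mul_self]
  obtain ⟨x, hx, hx'⟩ := exists_sdr (J := ({y : ℕ → ℕ // y ∉ Z} × (ℕ → ℕ)) × Ψ)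
    (fun p => Q p.1.1.1 p.1.2) hJ fun p => hQ _ p.1.1.2 _
  let F : (ℕ → ℕ) → (ℕ → ℕ) → (ℕ → ℕ) := fun α z =>
    if h : ∃ p, x p = z then (Classical.choose h).2.1 α else 0
  have hF : ∀ α p, F α (x p) = p.2.1 α := by
    intro α p
    have hex : ∃ q, x q = x p := ⟨p, rfl⟩
    show (if h : ∃ q, x q = x p then (Classical.choose h).2.1 α else 0) = _
    rw [dif_pos hex, hx (Classical.choose_spec hex)]
  obtain ⟨g, hg⟩ := boundedMod_of_le h (J := ℕ → ℕ) mk_NN.le F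
  choose φ hφ using fun α => hN _ (hg α)
  choose k hk hk' using fun α => hD (φ α)
  refine ⟨k, fun α => Z ∪ {y | (Q y (k α) ∩ {z | ¬ R (F α z) (g z)}).Nonempty}, hk, fun α =>
    hI.union _ hZ _ (hφ α _ (hk' α)), fun y d => ?_⟩
  by_contra hcon
  push Not at hcon
  obtain ⟨Γ, hΓ, hΓ'⟩ := le_mk_iff_exists_subset.1 hcon
  obtain ⟨ψ, hψ, hψ'⟩ := hΨ' Γ hΓ'
  by_cases hy : y ∈ Z
  · have h0 : Γ = ∅ := by
      rw [eq_empty_iff_forall_notMem]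
      exact fun α hα => (hΓ hα).2 (Or.inl hy)
    refine hψ' ⟨g y, ?_⟩
    rw [h0, image_empty]
    exact fun _ h => absurd h (notMem_empty _)
  · refine hψ' ⟨g (x ((⟨y, hy⟩, d), ⟨ψ, hψ⟩)), ?_⟩
    rintro _ ⟨α, hα, rfl⟩
    by_contra hno
    refine (hΓ hα).2 (Or.inr ⟨x ((⟨y, hy⟩, d), ⟨ψ, hψ⟩), ?_, ?_⟩)
    · rw [(hΓ hα).1]
      exact hx' ((⟨y, hy⟩, d), ⟨ψ, hψ⟩)
    · show ¬ R (F α _) _
      rw [hF]
      exact hno

/-- The fibre trick, for regular `l`. -/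
theorem fibre_trick (hI : Idl I) (hP : PerfectSets I) (h : 𝔠 < bnumMod R I) {l : Cardinal.{0}}
    (hS : Spread R l) (hl : l.IsRegular) (hlc : l ≤ 𝔠) {D : Set (ℕ → ℕ)}
    (hD : ∀ f, ∃ d ∈ D, LeStar f d) (hDc : #D < 𝔠) : ∃ 𝓧, IsRothberger 𝔠 l I 𝓧 := by
  classical
  obtain ⟨k, X, hk, hX, hkey⟩ := key hI hP h hS hD
  -- one large fibre
  obtain ⟨h₀, hh₀⟩ : ∃ h₀, #D ≤ #{α | k α = h₀} := by
    by_contra hcon
    push Not at hcon
    have hcov : (Set.univ : Set (ℕ → ℕ)) ⊆ ⋃ d ∈ D, {α | k α = d} := fun α _ =>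
      mem_iUnion₂.2 ⟨k α, hk α, rfl⟩
    have hle := mk_le_mk_of_subset hcov
    rw [mk_univ, mk_NN] at hle
    have h1 : #(⋃ d ∈ D, {α | k α = d} : Set (ℕ → ℕ)) ≤ #D * #D := by
      refine (mk_biUnion_le _ _).trans (mul_le_mul_right ?_ _)
      exact ciSup_le' fun d => (hcon d).le
    exact absurd (hle.trans h1) (not_le.2 (mul_lt_of_lt aleph0_le_continuum hDc hDc))
  obtain ⟨j⟩ := hh₀
  refine finish hI hl.aleph0_le hlc (Or.inr hl) mk_NN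
    (fun α => X α ∪ X (j ⟨k α, hk α⟩).1) (fun α => hI.union _ (hX _) _ (hX _)) fun y => ?_
  let H : Set D := {d | y ∉ X (j d).1}
  have hH : #H < l := by
    refine (mk_le_of_injective (f := fun d : H =>
      (⟨(j d.1).1, (j d.1).2, d.2⟩ : {α | k α = h₀ ∧ y ∉ X α})) fun d d' hdd => ?_).trans_lt
      (hkey y h₀)
    have h1 : (j d.1).1 = (j d'.1).1 := congrArg
      (fun q : {α | k α = h₀ ∧ y ∉ X α} => q.1) hdd
    exact Subtype.ext (j.injective (Subtype.ext h1))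
  have hsub : {α | y ∉ X α ∪ X (j ⟨k α, hk α⟩).1} ⊆
      ⋃ d ∈ H, {α | k α = d.1 ∧ y ∉ X α} := by
    intro α hα
    refine mem_iUnion₂.2 ⟨⟨k α, hk α⟩, fun hy => hα (Or.inr hy), rfl, fun hy => hα (Or.inl hy)⟩
  exact (mk_le_mk_of_subset hsub).trans_lt
    ((card_biUnion_lt_iff_forall_of_isRegular hl hH).2 fun d _ => hkey y d.1)

/-- The case of a regular continuum. -/
theorem fibre_regular (hI : Idl I) (hP : PerfectSets I) (h : 𝔠 < bnumMod R I) {l : Cardinal.{0}}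
    (hS : Spread R l) (hl : ℵ₀ ≤ l) (hlc : l ≤ 𝔠) (hreg : (𝔠 : Cardinal.{0}).IsRegular)
    {D : Set (ℕ → ℕ)} (hD : ∀ f, ∃ d ∈ D, LeStar f d) (hDc : #D < 𝔠) :
    ∃ 𝓧, IsRothberger 𝔠 l I 𝓧 := by
  classical
  obtain ⟨k, X, hk, hX, hkey⟩ := key hI hP h hS hD
  obtain ⟨h₀, hh₀⟩ : ∃ h₀, 𝔠 ≤ #{α | k α = h₀} := by
    by_contra hcon
    push Not at hcon
    have hcov : (Set.univ : Set (ℕ → ℕ)) ⊆ ⋃ d ∈ D, {α | k α = d} := fun α _ =>
      mem_iUnion₂.2 ⟨k α, hk α, rfl⟩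
    have hle := mk_le_mk_of_subset hcov
    rw [mk_univ, mk_NN] at hle
    exact absurd hle (not_le.2
      ((card_biUnion_lt_iff_forall_of_isRegular hreg hDc).2 fun d _ => hcon d))
  have hlr : l < 𝔠 ∨ l.IsRegular := by
    rcases hlc.lt_or_eq with he | he
    · exact Or.inl he
    · exact Or.inr (he ▸ hreg)
  refine finish hI hl hlc hlr
    (T := {α | k α = h₀}) (le_antisymm ((mk_set_le _).trans mk_NN.le) hh₀)
    (fun α => X α.1) (fun α => hX _) fun y => ?_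
  refine (mk_le_of_injective (f := fun α : {α : {α | k α = h₀} | y ∉ X α.1} =>
      (⟨α.1.1, α.1.2, α.2⟩ : {α | k α = h₀ ∧ y ∉ X α})) fun α β hab => ?_).trans_lt (hkey y h₀)
  exact Subtype.ext (Subtype.ext (congrArg (fun q : {α | k α = h₀ ∧ y ∉ X α} => q.1) hab))

/-- The second round. -/
theorem second_round (hI : Idl I) (hL : Luz R) (hreg : (bnum R).IsRegular) (hlc : bnum R ≤ 𝔠)
    (h : 𝔠 < bnumMod R I) {T : Type} (hT : #T = 𝔠) (X : T → Set (ℕ → ℕ))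
    (hX : ∀ α, X α ∈ I) (hc : ∀ y, #{α | y ∉ X α} ≤ bnum R) :
    ∃ 𝓧, IsRothberger 𝔠 (bnum R) I 𝓧 := by
  classical
  obtain ⟨a, ha⟩ := hL
  have h1 : ∀ y, Nonempty ({α | y ∉ X α} ↪ (bnum R).ord.ToType) := fun y => by
    rw [← Cardinal.le_def, mk_ord_toType]
    exact hc y
  let ψ := fun y => (h1 y).some
  obtain ⟨g, hg⟩ := boundedMod_of_le h (J := T) hT.le fun α y =>
    if hy : y ∉ X α then a (ψ y ⟨α, hy⟩) else 0
  refine finish hI hreg.aleph0_le hlc (Or.inr hreg) hT _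
    (fun α => hI.union _ (hX α) _ (hg α)) fun y => ?_
  by_contra hcon
  push Not at hcon
  let S : Set {α | y ∉ X α} := {α | R (a (ψ y α)) (g y)}
  have hS : bnum R ≤ #S := by
    refine hcon.trans (mk_le_of_injective (f := fun α : {α | y ∉ X α ∪
      {z | ¬ R (if hy : z ∉ X α then a (ψ z ⟨α, hy⟩) else 0) (g z)}} =>
      (⟨⟨α.1, fun hy => α.2 (Or.inl hy)⟩, ?_⟩ : S)) fun α β hab => ?_)
    · by_contra hno
      refine α.2 (Or.inr ?_)
      show ¬ R (if hy : y ∉ X α.1 then a (ψ y ⟨α.1, hy⟩) else 0) (g y)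
      rw [dif_pos fun hy => α.2 (Or.inl hy)]
      exact hno
    · exact Subtype.ext (congrArg (fun q : S => q.1.1) hab)
  have hS' : #(ψ y '' S) = bnum R := by
    rw [mk_image_eq (ψ y).injective]
    exact le_antisymm ((mk_set_le _).trans (hc y)) hS
  refine ha _ hS' ⟨g y, ?_⟩
  rintro _ ⟨_, ⟨α, hα, rfl⟩, rfl⟩
  exact hα

/-- A dominating family with codes all of whose bounded subfamilies are small. -/
theorem of_codes (hI : Idl I) (hP : PerfectSets I) (h : 𝔠 < bnumMod R I) (hL : Luz R)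
    (hreg : (bnum R).IsRegular) (hlc : bnum R ≤ 𝔠) {D : Set (ℕ → ℕ)}
    (hD : ∀ f, ∃ d ∈ D, LeStar f d) (c : (ℕ → ℕ) → (ℕ → ℕ))
    (hc : ∀ g, #{d | d ∈ D ∧ R (c d) g} ≤ bnum R) : ∃ 𝓧, IsRothberger 𝔠 (bnum R) I 𝓧 := by
  classical
  obtain ⟨k, X, hk, hX, hkey⟩ := key hI hP h (spread_of_luz hL hreg) hD
  obtain ⟨g, hg⟩ := boundedMod_of_le h (J := ℕ → ℕ) mk_NN.le fun α _ => c (k α)
  refine second_round hI hL hreg hlc h mk_NN _
    (fun α => hI.union _ (hX α) _ (hg α)) fun y => ?_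
  have hsub : {α | y ∉ X α ∪ {z | ¬ R (c (k α)) (g z)}} ⊆
      ⋃ d ∈ {d | d ∈ D ∧ R (c d) (g y)}, {α | k α = d ∧ y ∉ X α} := by
    intro α hα
    refine mem_iUnion₂.2 ⟨k α, ⟨hk α, ?_⟩, rfl, fun hy => hα (Or.inl hy)⟩
    by_contra hno
    exact hα (Or.inr hno)
  refine (mk_le_mk_of_subset hsub).trans ((mk_biUnion_le _ _).trans ?_)
  refine (mul_le_mul' (hc (g y)) (ciSup_le' fun d => (hkey y _).le)).trans ?_
  exact (mul_eq_self hreg.aleph0_le).le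

/-- The case `𝔠 ≤ 𝔟(R)⁺`. -/
theorem of_le_succ (hI : Idl I) (hu : ∀ b : B, ∃ x : ℕ → ℕ, ¬ R x b)
    (hlc : bnum R ≤ 𝔠) (hL : bnum R < 𝔠 → Luz R ∧ (bnum R).IsRegular)
    (h2 : ∀ κ < (𝔠 : Cardinal.{0}), (2 : Cardinal.{0}) ^ κ ≤ 𝔠)
    (hc : (𝔠 : Cardinal.{0}) ≤ succ (bnum R))
    (h : 𝔠 < bnumMod R I) : ∃ 𝓧, IsRothberger 𝔠 (bnum R) I 𝓧 := by
  classical
  have hsm : ∀ A : Set (ℕ → ℕ), #A < 𝔠 → A ∈ I := fun A hA => small_of_lt hI hu h (h2 _ hA)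
  rcases hlc.eq_or_lt with heq | hlt
  · rw [heq]
    exact rothberger_of_small hsm
  obtain ⟨hL, hreg⟩ := hL hlt
  have h4 : #(𝔠 : Cardinal.{0}).ord.ToType = #(ℕ → ℕ) := by rw [mk_ord_toType, mk_NN]
  obtain ⟨e⟩ := Cardinal.eq.1 h4
  refine second_round hI hL hreg hlc h (mk_ord_toType _) (fun i => e '' Iic i) (fun i =>
    hsm _ ?_) fun y => ?_
  · refine mk_image_le.trans_lt ?_
    have h5 : (Iic i : Set (𝔠 : Cardinal.{0}).ord.ToType) = Iio i ∪ {i} := by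
      ext j
      simp [le_iff_lt_or_eq]
    rw [h5]
    refine (mk_union_le _ _).trans_lt (add_lt_of_lt aleph0_le_continuum ?_ ?_)
    · simpa using mk_Iio_toType_ord_lt i
    · rw [mk_singleton]
      exact one_lt_aleph0.trans_le aleph0_le_continuum
  · have h5 : {i | y ∉ e '' Iic i} ⊆ Iio (e.symm y) := by
      intro i hi
      by_contra hno
      rw [mem_Iio, not_lt] at hno
      exact hi ⟨e.symm y, hno, by simp⟩
    have h6 := (mk_le_mk_of_subset h5).trans_lt (mk_Iio_toType_ord_lt _)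
    exact lt_succ_iff.1 (h6.trans_le hc)

/-- The case of a regular continuum that is larger than `𝔡`. -/
theorem of_power (hI : Idl I) (hP : PerfectSets I) (hu : ∀ b : B, ∃ x : ℕ → ℕ, ¬ R x b)
    (h1 : ℵ₀ ≤ bnum R) (hlc : bnum R ≤ 𝔠)
    (h2 : ∀ κ < (𝔠 : Cardinal.{0}), (2 : Cardinal.{0}) ^ κ ≤ 𝔠) (hreg : (𝔠 : Cardinal.{0}).IsRegular)
    (hex : ∃ A : Set (ℕ → ℕ), ¬ Bounded R A ∧ #A = bnum R) {D : Set (ℕ → ℕ)}
    (hD : ∀ f, ∃ d ∈ D, LeStar f d) (hDc : #D < 𝔠)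
    (h : 𝔠 < bnumMod R I) : ∃ 𝓧, IsRothberger 𝔠 (bnum R) I 𝓧 := by
  rcases hlc.eq_or_lt with heq | hlt
  · rw [heq]
    exact rothberger_of_small fun A hA => small_of_lt hI hu h (h2 _ hA)
  obtain ⟨A, hA, hA'⟩ := hex
  have hS : Spread R (bnum R) := by
    rw [← hA']
    refine spread_of_power hA ?_ ?_
    · rw [hA']
      exact (aleph0_pos.trans_le h1).ne'
    · rw [hA']
      exact h2 _ hlt
  exact fibre_regular hI hP h hS h1 hlc hreg hD hDc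

end

theorem isRegular_continuum (h2 : ∀ κ < (𝔠 : Cardinal.{0}), (2 : Cardinal.{0}) ^ κ ≤ 𝔠) :
    (𝔠 : Cardinal.{0}).IsRegular := by
  refine ⟨aleph0_le_continuum, ?_⟩
  by_contra hcon
  push Not at hcon
  have h0 : ℵ₀ ≤ (𝔠 : Cardinal.{0}).ord.cof := by
    rw [Ordinal.aleph0_le_cof]
    exact isSuccLimit_ord aleph0_le_continuum
  have h3 : (2 : Cardinal.{0}) ^ (𝔠 : Cardinal.{0}).ord.cof = 𝔠 := by
    refine le_antisymm (h2 _ hcon) ?_
    rw [← two_power_aleph0]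
    exact power_le_power_left two_ne_zero h0
  have h4 := lt_cof_power (b := (2 : Cardinal.{0})) h0 (by norm_num)
  rw [h3] at h4
  exact lt_irrefl _ h4

end Pool.Agent.Lib.MP_0b3fe5_lc.Roth73
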