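import Pool.Agent.Lib.MP_0b3fe5_lc.Rel

/-!
# From large bounding numbers to Rothberger families
-/

open Cardinal Set Filter MeasureTheory

namespace Pool.Agent.Lib.MP_0b3fe5_lc

/-- What is used about the ideal `I`. -/
structure GoodIdl (I : Set (Set (ℕ → ℕ))) : Prop where
  sub : ∀ X ∈ I, ∀ Y ⊆ X, Y ∈ I
  union : ∀ X ∈ I, ∀ Y ∈ I, X ∪ Y ∈ I
  countable : ∀ C : Set (ℕ → ℕ), C.Countable → C ∈ I
  univ : Set.univ ∉ I
  borel : ∀ X ∈ I, ∃ B ∈ I, X ⊆ B ∧ MeasurableSet B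

/-- Sets in `I` can be bounded by means of bounds for functions, relative to a point outside
another set of `I`. -/
def Comp {B : Type} (R : (ℕ → ℕ) → B → Prop) (I : Set (Set (ℕ → ℕ))) : Prop :=
  ∃ (P : Set (ℕ → ℕ) → Set (ℕ → ℕ)) (f : Set (ℕ → ℕ) → (ℕ → ℕ) → (ℕ → ℕ))
    (Ψ : (ℕ → ℕ) → B → Set (ℕ → ℕ)), (∀ y b, Ψ y b ∈ I) ∧
    ∀ X ∈ I, P X ∈ I ∧ ∀ y ∉ P X, ∀ b, R (f X y) b → X ⊆ Ψ y b

theorem mk_measurable : #{s : Set (ℕ → ℕ) | MeasurableSet s} ≤ 𝔠 := by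
  have h := MeasurableSpace.cardinal_measurableSet_le_continuum
    (s := MeasurableSpace.countableGeneratingSet (ℕ → ℕ))
    (MeasurableSpace.countable_countableGeneratingSet.le_aleph0.trans aleph0_le_continuum)
  rwa [MeasurableSpace.generateFrom_countableGeneratingSet] at h

theorem mk_compl {I : Set (Set (ℕ → ℕ))} (hI : GoodIdl I) {X : Set (ℕ → ℕ)} (hX : X ∈ I)
    (hm : MeasurableSet X) : 𝔠 ≤ #(Xᶜ : Set (ℕ → ℕ)) := by
  have h1 : ¬ Countable (Xᶜ : Set (ℕ → ℕ)) := by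
    intro hc
    refine hI.univ ?_
    rw [← union_compl_self X]
    exact hI.union X hX _ (hI.countable _ (to_countable _))
  have : StandardBorelSpace (Xᶜ : Set (ℕ → ℕ)) := hm.compl.standardBorel
  have h2 := (PolishSpace.measurableEquivNatBoolOfNotCountable h1).toEquiv.cardinal_eq
  rw [h2]
  simp

variable {B : Type} {R : (ℕ → ℕ) → B → Prop} {I : Set (Set (ℕ → ℕ))}

theorem exists_weak (hR : GoodRel R) (hI : GoodIdl I) (h : 𝔠 < bnumMod R I) :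
    ∃ Z : (ℕ → ℕ) → Set (ℕ → ℕ), (∀ α, Z α ∈ I) ∧
      ∀ Γ : Set (ℕ → ℕ), #Γ = bnum R → (⋃ α ∈ Γ, Z α) ∉ I := by
  classical
  obtain ⟨a, ha⟩ := exists_luzin hR
  obtain ⟨Φ, hΦ, hΦ'⟩ := exists_family (isRegular_bnum hR) (bnum R).ord.ToType
    (mk_ord_toType _) 𝔠 le_rfl (ℕ → ℕ) mk_NN
  let 𝓑 : Set (Set (ℕ → ℕ)) := {X | MeasurableSet X ∧ X ∈ I}
  have h𝓑 : #𝓑 ≤ 𝔠 := (mk_le_mk_of_subset fun X hX => hX.1).trans mk_measurable
  have hJ : #(𝓑 × Φ) ≤ 𝔠 := by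
    rw [mk_prod, lift_id, lift_id]
    exact (mul_le_mul' h𝓑 hΦ).trans continuum_mul_self.le
  obtain ⟨x, hx, hx'⟩ := exists_sdr (J := 𝓑 × Φ) (fun p => (p.1.1)ᶜ) hJ
    fun p => mk_compl hI p.1.2.2 p.1.2.1
  let F : (ℕ → ℕ) → (ℕ → ℕ) → (ℕ → ℕ) := fun α z =>
    if h : ∃ p, x p = z then a ((Classical.choose h).2.1 α) else 0
  have hF : ∀ α p, F α (x p) = a (p.2.1 α) := by
    intro α p
    have hex : ∃ q, x q = x p := ⟨p, rfl⟩
    show (if h : ∃ q, x q = x p then a ((Classical.choose h).2.1 α) else 0) = _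
    rw [dif_pos hex, hx (Classical.choose_spec hex)]
  obtain ⟨g, hg⟩ := boundedMod_of_le h (J := ℕ → ℕ) mk_NN.le F
  refine ⟨fun α => {z | ¬ R (F α z) (g z)}, hg, fun Γ hΓ hcon => ?_⟩
  obtain ⟨X, hX, hX', hXm⟩ := hI.borel _ hcon
  obtain ⟨φ, hφ, hφ'⟩ := hΦ' Γ hΓ
  have hp := hx' (⟨X, hXm, hX⟩, ⟨φ, hφ⟩)
  refine ha (φ '' Γ) (isCofinal_of_mk hφ') ⟨g (x (⟨X, hXm, hX⟩, ⟨φ, hφ⟩)), ?_⟩
  rintro _ ⟨_, ⟨α, hα, rfl⟩, rfl⟩
  by_contra hno
  refine hp (hX' (mem_iUnion₂.2 ⟨α, hα, ?_⟩))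
  show ¬ R (F α _) _
  rw [hF]
  exact hno

theorem exists_rothberger (hR : GoodRel R) (hI : GoodIdl I) (hC : Comp R I)
    (h : 𝔠 < bnumMod R I) : ∃ 𝓧, IsRothberger 𝔠 (bnum R) I 𝓧 := by
  classical
  obtain ⟨Z, hZ, hZ'⟩ := exists_weak hR hI h
  obtain ⟨P, f, Ψ, hΨ, hC⟩ := hC
  obtain ⟨g, hg⟩ := boundedMod_of_le h (J := ℕ → ℕ) mk_NN.le fun α y => f (Z α) y
  let X : (ℕ → ℕ) → Set (ℕ → ℕ) := fun α => P (Z α) ∪ {y | ¬ R (f (Z α) y) (g y)}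
  have hX : ∀ α, X α ∈ I := fun α => hI.union _ (hC _ (hZ α)).1 _ (hg α)
  have hX' : ∀ Γ : Set (ℕ → ℕ), #Γ = bnum R → (⋃ α ∈ Γ, X α) = Set.univ := by
    intro Γ hΓ
    by_contra hcon
    rw [← ne_eq, ne_univ_iff_exists_notMem] at hcon
    obtain ⟨y, hy⟩ := hcon
    refine hZ' Γ hΓ (hI.sub _ (hΨ y (g y)) _ (iUnion₂_subset fun α hα => ?_))
    have hyα : y ∉ X α := fun hyα => hy (mem_iUnion₂.2 ⟨α, hα, hyα⟩)
    refine (hC _ (hZ α)).2 y (fun h => hyα (Or.inl h)) _ ?_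
    by_contra hno
    exact hyα (Or.inr hno)
  have hreg := isRegular_bnum hR
  have hfib : ∀ Y : Set (ℕ → ℕ), #{α | X α = Y} < bnum R := by
    intro Y
    by_contra hcon
    push Not at hcon
    obtain ⟨Γ, hΓ, hΓ'⟩ := le_mk_iff_exists_subset.1 hcon
    have h1 := hX' Γ hΓ'
    have hne : Γ.Nonempty := by
      rw [nonempty_iff_ne_empty]
      rintro rfl
      rw [mk_eq_zero] at hΓ'
      exact hreg.ne_zero hΓ'.symm
    obtain ⟨α, hα⟩ := hne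
    have h2 : (⋃ α ∈ Γ, X α) = Y := by
      refine Subset.antisymm (iUnion₂_subset fun β hβ => (hΓ hβ).subset) fun y hy => ?_
      refine mem_iUnion₂.2 ⟨α, hα, ?_⟩
      rw [show X α = Y from hΓ hα]
      exact hy
    have h3 : X α = Set.univ := (show X α = Y from hΓ hα).trans (h2.symm.trans h1)
    exact hI.univ (h3 ▸ hX α)
  refine ⟨range X, ?_, le_antisymm (mk_range_le.trans mk_NN.le) ?_, fun 𝓨 h𝓨 hcard => ?_⟩
  · rintro _ ⟨α, rfl⟩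
    exact hX α
  · by_contra hcon
    push Not at hcon
    have hcov : (Set.univ : Set (ℕ → ℕ)) ⊆ ⋃ Y ∈ range X, {α | X α = Y} := fun α _ =>
      mem_iUnion₂.2 ⟨X α, ⟨α, rfl⟩, rfl⟩
    have hle := mk_le_mk_of_subset hcov
    rw [mk_univ, mk_NN] at hle
    rcases (bnum_le hR).lt_or_eq with hlt | heq
    · have h1 : #(⋃ Y ∈ range X, {α | X α = Y} : Set (ℕ → ℕ)) ≤ #(range X) * bnum R := by
        refine (mk_biUnion_le _ _).trans (mul_le_mul_right ?_ _)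
        exact ciSup_le' fun Y => (hfib Y).le
      exact absurd (hle.trans h1) (not_le.2 (mul_lt_of_lt aleph0_le_continuum hcon hlt))
    · have hreg' : (𝔠 : Cardinal.{0}).IsRegular := heq ▸ hreg
      have h1 := (card_biUnion_lt_iff_forall_of_isRegular (s := range X)
        (t := fun Y _ => {α | X α = Y}) hreg' hcon).2 fun Y _ => heq ▸ hfib Y
      exact absurd hle (not_le.2 h1)
  · have hsec : ∀ Y : 𝓨, ∃ α, X α = Y.1 := fun Y => h𝓨 Y.2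
    choose s hs using hsec
    have hinj : Function.Injective s := fun Y Y' hYY => by
      apply Subtype.ext
      rw [← hs Y, ← hs Y', hYY]
    have h1 : #(range s) = bnum R := by rw [mk_range_eq s hinj, hcard]
    rw [← hX' _ h1]
    refine Subset.antisymm ?_ ?_
    · rintro y ⟨Y, hY, hy⟩
      refine mem_iUnion₂.2 ⟨s ⟨Y, hY⟩, ⟨_, rfl⟩, ?_⟩
      rw [hs]
      exact hy
    · intro y hy
      obtain ⟨_, ⟨Y, rfl⟩, hy⟩ := mem_iUnion₂.1 hy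
      rw [hs] at hy
      exact ⟨Y.1, Y.2, hy⟩

end Pool.Agent.Lib.MP_0b3fe5_lc
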